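import Pool.Agent.Helper1_CP3.Dyn

set_option autoImplicit false
set_option linter.unusedSimpArgs false
set_option linter.unusedVariables false

open scoped LinearAlgebra.Projectivization Topology InnerProductSpace
open MeasureTheory Filter

namespace Pool.Agent.Helper1_CP3

/-- the projective subspace of `W` -/
def PW (W : Submodule ℂ V) : Set CP3 := {x | x.submodule ≤ W}

lemma mem_PW {v : V} (hv : v ≠ 0) {W : Submodule ℂ V} : pr v ∈ PW W ↔ v ∈ W :=
  submodule_le_iff hv W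

/-- A group acting projectively, properly discontinuously and cocompactly on `D`. -/
structure Act (Γ : Type) [Group Γ] (D : Set CP3) (T : Γ → V →L[ℂ] V) : Prop where
  opn : IsOpen D
  dim : dimH (Dᶜ) ≤ 2
  inj : ∀ γ, Function.Injective (T γ)
  maps : ∀ γ, ∀ v ∈ cone D, T γ v ∈ cone D
  mul : ∀ γ γ', ∀ v ∈ cone D, pr (T (γ * γ') v) = pr (T γ (T γ' v))
  one : ∀ v ∈ cone D, pr (T 1 v) = pr v
  pd : ∀ K : Set CP3, IsCompact K → K ⊆ D →
    {γ | ∃ v ∈ cone K, T γ v ∈ cone K}.Finite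
  fund : ∃ K U : Set CP3, IsCompact K ∧ IsOpen U ∧ U ⊆ K ∧ K ⊆ D ∧
    ∀ v ∈ cone D, ∃ γ, ∃ w ∈ cone U, pr v = pr (T γ w)

lemma exists_compact_nhd {D : Set CP3} (hD : IsOpen D) {x : CP3} (hx : x ∈ D) :
    ∃ K : Set CP3, IsCompact K ∧ K ∈ 𝓝 x ∧ K ⊆ D := by
  obtain ⟨K, hK, hxK, hKD⟩ := exists_compact_subset hD hx
  exact ⟨K, hK, mem_interior_iff_mem_nhds.mp hxK, hKD⟩

lemma cone_mono {S S' : Set CP3} (h : S ⊆ S') : cone S ⊆ cone S' := fun _ hv => ⟨hv.1, h hv.2⟩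

lemma dense_cone {D : Set CP3} (hdim : dimH (Dᶜ) ≤ 2) : Dense (cone D) := by
  -- use any plane through a point: first D nonempty
  have hli : LinearIndependent ℂ ![(EuclideanSpace.basisFun (Fin 4) ℂ) 0,
      (EuclideanSpace.basisFun (Fin 4) ℂ) 1, (EuclideanSpace.basisFun (Fin 4) ℂ) 2] := by
    apply SV.li3 (EuclideanSpace.basisFun (Fin 4) ℂ).orthonormal 0 1 2 (by decide) (by decide)
      (by decide)
    simp
  obtain ⟨z, hz, hzS⟩ := (dense_plane hdim hli).nonempty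
  refine (dense_dir hdim hz hzS).mono ?_
  intro b hb
  have := hb 0 1 (Or.inr one_ne_zero)
  rw [zero_smul, zero_add, one_smul] at this
  exact ⟨this.1, Set.notMem_compl_iff.mp this.2⟩

variable {Γ : Type} [Group Γ] {D : Set CP3} {T : Γ → V →L[ℂ] V}

namespace Act

lemma nonempty (h : Act Γ D T) : ∃ v, v ∈ cone D := (dense_cone h.dim).nonempty

lemma comp_eq (h : Act Γ D T) (γ γ' : Γ) :
    ∃ c : ℂ, c ≠ 0 ∧ T (γ * γ') = c • (T γ).comp (T γ') := by
  obtain ⟨v, hv⟩ := h.nonempty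
  apply proportional (M := (T γ).comp (T γ')) (M' := T (γ * γ')) ((h.inj γ).comp (h.inj γ'))
    (h.inj _) hv.1
  filter_upwards [(isOpen_cone h.opn).mem_nhds hv] with w hw
  exact (h.mul γ γ' w hw).symm

lemma one_eq (h : Act Γ D T) : ∃ c : ℂ, c ≠ 0 ∧ T 1 = c • ContinuousLinearMap.id ℂ V := by
  obtain ⟨v, hv⟩ := h.nonempty
  apply proportional (M := ContinuousLinearMap.id ℂ V) (M' := T 1) Function.injective_id
    (h.inj _) hv.1
  filter_upwards [(isOpen_cone h.opn).mem_nhds hv] with w hw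
  exact (h.one w hw).symm

lemma inv_eq (h : Act Γ D T) (γ : Γ) :
    ∃ c : ℂ, c ≠ 0 ∧ ∀ v, (c • T γ⁻¹) (T γ v) = v := by
  obtain ⟨c₁, hc₁, h₁⟩ := h.comp_eq γ⁻¹ γ
  obtain ⟨c₂, hc₂, h₂⟩ := h.one_eq
  rw [inv_mul_cancel, h₂] at h₁
  refine ⟨c₂⁻¹ * c₁, mul_ne_zero (inv_ne_zero hc₂) hc₁, ?_⟩
  intro v
  have h3 := congrArg (fun L : V →L[ℂ] V => L v) h₁
  simp only [smul_apply, ContinuousLinearMap.id_apply, ContinuousLinearMap.comp_apply] at h3
  rw [smul_apply, mul_smul, ← h3, smul_smul, inv_mul_cancel₀ hc₂, one_smul]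

/-- escaping sequences -/
lemma esc (h : Act Γ D T) {γ : ℕ → Γ} (hγ : Tendsto γ atTop cofinite) :
    Esc (fun n => T (γ n)) D := by
  intro v hv vn hvn z hz an han hlim hzD
  obtain ⟨K₁, hK₁, hK₁n, hK₁D⟩ := exists_compact_nhd h.opn hv.2
  obtain ⟨K₂, hK₂, hK₂n, hK₂D⟩ := exists_compact_nhd h.opn hzD
  have hfin := h.pd (K₁ ∪ K₂) (hK₁.union hK₂) (Set.union_subset hK₁D hK₂D)
  have h1 : ∀ᶠ n in atTop, γ n ∉ {γ | ∃ v ∈ cone (K₁ ∪ K₂), T γ v ∈ cone (K₁ ∪ K₂)} :=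
    hγ.eventually (hfin.compl_mem_cofinite)
  have h2 : ∀ᶠ n in atTop, pr (vn n) ∈ K₁ :=
    hvn.eventually ((mem_nhds_pr hv.1).mp hK₁n)
  have h3 : ∀ᶠ n in atTop, pr (an n • T (γ n) (vn n)) ∈ K₂ :=
    hlim.eventually ((mem_nhds_pr hz).mp hK₂n)
  have h4 : ∀ᶠ n in atTop, vn n ≠ 0 := hvn.eventually_ne hv.1
  obtain ⟨n, k1, k2, k3, k4⟩ := (h1.and (h2.and (h3.and h4))).exists
  apply k1
  rw [pr_smul (han n)] at k3
  exact ⟨vn n, ⟨k4, Or.inl k2⟩, ⟨inj_ne (h.inj _) k4, Or.inr k3⟩⟩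

lemma Esc.smul {M : ℕ → V →L[ℂ] V} (hM : Esc M D) {cn : ℕ → ℂ} (hc : ∀ n, cn n ≠ 0) :
    Esc (fun n => cn n • M n) D := by
  intro v hv vn hvn z hz an han hlim
  refine hM v hv vn hvn z hz (fun n => an n * cn n) (fun n => mul_ne_zero (han n) (hc n)) ?_
  refine hlim.congr fun n => ?_
  simp [smul_smul]

/-- dynamics of divergent sequences -/
lemma dyn (h : Act Γ D T) {γ : ℕ → Γ} (hγ : Tendsto γ atTop cofinite) :
    ∃ φ : ℕ → ℕ, StrictMono φ ∧ ∃ Lm Lp : Submodule ℂ V, Module.finrank ℂ Lp = 2 ∧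
      (∀ v ∈ Lm, v ∉ cone D) ∧ (∀ v ∈ Lp, v ∉ cone D) ∧
      ∀ ψ : ℕ → ℕ, Tendsto ψ atTop atTop → ∀ (y : V) (yn : ℕ → V), Tendsto yn atTop (𝓝 y) →
        y ∉ Lm → ∀ (z : V) (an : ℕ → ℂ),
        Tendsto (fun n => an n • T (γ (φ (ψ n))) (yn n)) atTop (𝓝 z) → z ∈ Lp := by
  obtain ⟨φ, hφ, bn, cn, σ, b, c, α, κ, β, hsv⟩ := exists_SV (fun n => T (γ n)) (fun n => h.inj _)
  have hγφ : Tendsto (fun n => γ (φ n)) atTop cofinite := hγ.comp hφ.tendsto_atTop
  have hesc := h.esc hγφ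
  have hκ := hsv.κ_zero h.opn h.dim hesc
  -- the inverse sequence
  choose k hk hkinv using fun n => h.inv_eq (γ (φ n))
  have hsv' := hsv.inv (M' := fun n => k n • T (γ (φ n))⁻¹) hkinv
  have hγi : Tendsto (fun n => (γ (φ n))⁻¹) atTop cofinite :=
    (inv_injective.tendsto_cofinite).comp hγφ
  have hesc' : Esc (fun n => k n • T (γ (φ n))⁻¹) D := Esc.smul (h.esc hγi) hk
  refine ⟨φ, hφ, Submodule.span ℂ {b 2, b 3}, Submodule.span ℂ {c 0, c 1}, ?_, ?_, ?_, ?_⟩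
  · have hc := hsv.oc
    have hli : LinearIndependent ℂ ![c 0, c 1] := by
      have := hc.linearIndependent.comp ![0, 1] (by decide)
      have e : c ∘ ![0, 1] = ![c 0, c 1] := by
        funext i; fin_cases i <;> rfl
      rw [e] at this
      exact this
    have h2 := finrank_span_eq_card hli
    rw [Matrix.range_cons_cons_empty, Fintype.card_fin] at h2
    exact h2
  · intro v hv
    rw [Submodule.mem_span_pair] at hv
    obtain ⟨x2, x3, rfl⟩ := hv
    exact hsv.repelling h.opn h.dim hesc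
  · intro v hv
    rw [Submodule.mem_span_pair] at hv
    obtain ⟨x0, x1, rfl⟩ := hv
    have h1 := hsv'.repelling h.opn h.dim hesc' (x2 := x1) (x3 := x0)
    have e : x1 • c (Fin.rev 2) + x0 • c (Fin.rev 3) = x0 • c 0 + x1 • c 1 := by
      rw [show (Fin.rev 2 : Fin 4) = 1 from rfl, show (Fin.rev 3 : Fin 4) = 0 from rfl, add_comm]
    rw [← e]
    exact h1
  · intro ψ hψ y yn hyn hy z an hz
    exact (hsv.subseq hψ).attract hκ hyn hy hz

end Act

/-- lifting convergent sequences -/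
lemma lift_seq {z : V} (hz : z ≠ 0) {u : ℕ → V} (hu : ∀ n, u n ≠ 0)
    (h : Tendsto (fun n => pr (u n)) atTop (𝓝 (pr z))) :
    ∃ an : ℕ → ℂ, (∀ n, an n ≠ 0) ∧ Tendsto (fun n => an n • u n) atTop (𝓝 z) := by
  have h1 : Tendsto (fun n => proj (pr (u n)) z) atTop (𝓝 z) := (proj_lift hz).comp h
  have h2 : ∀ n, ∃ a : ℂ, a ≠ 0 ∧ (proj (pr (u n)) z ≠ 0 → proj (pr (u n)) z = a • u n) := by
    intro n
    by_cases h0 : proj (pr (u n)) z = 0
    · exact ⟨1, one_ne_zero, fun hne => absurd h0 hne⟩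
    · obtain ⟨a, ha, hae⟩ := (pr_eq_iff h0 (hu n)).mp (pr_proj h0)
      exact ⟨a, ha, fun _ => hae⟩
  choose an han hae using h2
  refine ⟨an, han, h1.congr' ?_⟩
  filter_upwards [h1.eventually_ne hz] with n hn
  exact hae n hn

/-- unit representatives of a compact set -/
lemma isCompact_unit {K : Set CP3} (hK : IsCompact K) : IsCompact {v : V | ‖v‖ = 1 ∧ pr v ∈ K} := by
  have h1 : IsCompact (Metric.sphere (0 : V) 1) := isCompact_sphere 0 1
  have h2 : ContinuousOn pr (Metric.sphere (0 : V) 1) := by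
    intro v hv
    apply (continuousAt_pr _).continuousWithinAt
    rintro rfl
    simp at hv
  have h3 := h2.preimage_isClosed_of_isClosed h1.isClosed hK.isClosed
  have e : {v : V | ‖v‖ = 1 ∧ pr v ∈ K} = Metric.sphere (0 : V) 1 ∩ pr ⁻¹' K := by
    ext v; simp
  rw [e]
  exact h1.of_isClosed_subset h3 Set.inter_subset_left

namespace Act

/-- images of compact sets are compact -/
lemma isCompact_image (h : Act Γ D T) (γ : Γ) {K : Set CP3} (hK : IsCompact K) :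
    IsCompact (act (T γ) '' K) := by
  have h1 := isCompact_unit hK
  have h2 : ContinuousOn (fun v => pr (T γ v)) {v : V | ‖v‖ = 1 ∧ pr v ∈ K} := by
    rintro v ⟨hv, -⟩
    have hv0 := unit_ne hv
    apply ContinuousAt.continuousWithinAt
    exact ContinuousAt.comp' (g := pr) (continuousAt_pr (inj_ne (h.inj γ) hv0))
      (T γ).continuous.continuousAt
  have h3 : act (T γ) '' K = (fun v => pr (T γ v)) '' {v : V | ‖v‖ = 1 ∧ pr v ∈ K} := by
    ext x
    constructor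
    · rintro ⟨y, hy, rfl⟩
      obtain ⟨v, hv, rfl⟩ := exists_unit y
      exact ⟨v, ⟨hv, hy⟩, (act_pr (unit_ne hv)).symm⟩
    · rintro ⟨v, ⟨hv, hvK⟩, rfl⟩
      exact ⟨pr v, hvK, act_pr (unit_ne hv)⟩
  rw [h3]
  exact h1.image_of_continuousOn h2

/-- sequences `γ n • y n` converging to the boundary have `γ n → ∞` -/
lemma tendsto_cofinite (h : Act Γ D T) {K : Set CP3} (hK : IsCompact K) (hKD : K ⊆ D)
    {γ : ℕ → Γ} {y : ℕ → V} (hy : ∀ n, y n ∈ cone K) {x : CP3} (hx : x ∉ D)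
    (hlim : Tendsto (fun n => pr (T (γ n) (y n))) atTop (𝓝 x)) : Tendsto γ atTop cofinite := by
  rw [Tendsto, Filter.le_cofinite_iff_eventually_ne]
  intro g
  rw [eventually_map]
  by_contra hcon
  rw [not_eventually] at hcon
  simp only [not_not] at hcon
  have hclosed := (h.isCompact_image g hK).isClosed
  have h1 : ∃ᶠ n in atTop, pr (T (γ n) (y n)) ∈ act (T g) '' K := by
    refine hcon.mono fun n hn => ?_
    rw [hn]
    exact ⟨pr (y n), (hy n).2, act_pr (hy n).1⟩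
  have h2 := hclosed.mem_of_frequently_of_tendsto h1 hlim
  obtain ⟨u, hu, hux⟩ := h2
  apply hx
  obtain ⟨v, hv, rfl⟩ := exists_unit u
  rw [act_pr (unit_ne hv)] at hux
  rw [← hux]
  exact (h.maps g v ⟨unit_ne hv, hKD hu⟩).2

end Act

end Pool.Agent.Helper1_CP3
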