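import Pool.Agent.Helper1_CP3.Defs

set_option autoImplicit false
set_option linter.unusedSimpArgs false
set_option linter.unusedVariables false

open scoped LinearAlgebra.Projectivization Topology InnerProductSpace
open MeasureTheory Filter

namespace Pool.Agent.Helper1_CP3

/-- a fixed nonzero vector -/
noncomputable def e0 : V := EuclideanSpace.single 0 1

lemma e0_ne : e0 ≠ 0 := by
  unfold e0
  rw [Ne, PiLp.single_eq_zero_iff]
  exact one_ne_zero

open Classical in
/-- the projection `V → CP3` (junk at `0`) -/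
noncomputable def pr (v : V) : CP3 :=
  if h : v ≠ 0 then Projectivization.mk ℂ v h else Projectivization.mk ℂ e0 e0_ne

lemma pr_of_ne {v : V} (h : v ≠ 0) : pr v = Projectivization.mk ℂ v h := dif_pos h

lemma pr_rep (x : CP3) : pr x.rep = x := by
  rw [pr_of_ne x.rep_nonzero, Projectivization.mk_rep]

lemma pr_smul {c : ℂ} (hc : c ≠ 0) (v : V) : pr (c • v) = pr v := by
  by_cases h : v = 0
  · subst h; simp
  · have h' : c • v ≠ 0 := smul_ne_zero hc h
    rw [pr_of_ne h, pr_of_ne h', Projectivization.mk_eq_mk_iff']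
    exact ⟨c, rfl⟩

lemma pr_eq_iff {v w : V} (hv : v ≠ 0) (hw : w ≠ 0) : pr v = pr w ↔ ∃ c : ℂ, c ≠ 0 ∧ v = c • w := by
  rw [pr_of_ne hv, pr_of_ne hw, Projectivization.mk_eq_mk_iff']
  constructor
  · rintro ⟨a, ha⟩
    refine ⟨a, ?_, ha.symm⟩
    rintro rfl
    rw [zero_smul] at ha
    exact hv ha.symm
  · rintro ⟨c, _, hc⟩
    exact ⟨c, hc.symm⟩

lemma submodule_pr {v : V} (hv : v ≠ 0) : (pr v).submodule = ℂ ∙ v := by
  rw [pr_of_ne hv]; rfl

lemma starProj_congr {U W : Submodule ℂ V} (h : U = W) (w : V) :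
    U.starProjection w = W.starProjection w := by subst h; rfl

lemma proj_pr {v : V} (hv : v ≠ 0) (w : V) :
    proj (pr v) w = (⟪v, w⟫_ℂ / (‖v‖ ^ 2 : ℝ)) • v := by
  unfold proj
  rw [starProj_congr (submodule_pr hv)]
  exact Submodule.starProjection_singleton ℂ w

lemma self_div {v : V} (hv : v ≠ 0) : (⟪v, v⟫_ℂ / ((‖v‖ ^ 2 : ℝ) : ℂ)) = 1 := by
  have h : ((‖v‖ ^ 2 : ℝ) : ℂ) ≠ 0 := by simpa using hv
  rw [div_eq_one_iff_eq h, inner_self_eq_norm_sq_to_K]
  push_cast
  rfl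

/-- `proj (pr v)` as an operator depending continuously on `v` -/
lemma proj_pr_eq {v : V} (hv : v ≠ 0) :
    proj (pr v) = (((‖v‖ ^ 2 : ℝ) : ℂ)⁻¹) • (innerSL ℂ v).smulRight v := by
  ext1 w
  rw [proj_pr hv]
  simp [div_eq_inv_mul, mul_smul]

lemma continuousAt_pr {v : V} (hv : v ≠ 0) : ContinuousAt pr v := by
  have h1 : ContinuousAt (fun v : V => proj (pr v)) v := by
    have h2 : (fun v : V => proj (pr v)) =ᶠ[𝓝 v]
        fun v => (((‖v‖ ^ 2 : ℝ) : ℂ)⁻¹) • (innerSL ℂ v).smulRight v := by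
      filter_upwards [isOpen_ne.mem_nhds hv] with w hw
      exact proj_pr_eq hw
    refine ContinuousAt.congr ?_ h2.symm
    refine ContinuousAt.fun_smul ?_ ?_
    · apply ContinuousAt.inv₀
      · fun_prop
      · simpa using hv
    · have : Continuous fun v : V => (innerSL ℂ v).smulRight v := by
        have h3 : Continuous fun p : (V →L[ℂ] ℂ) × V => p.1.smulRight p.2 := by
          exact (ContinuousLinearMap.smulRightL ℂ V V).isBoundedBilinearMap.continuous
        exact h3.comp (((innerSL ℂ).continuous).prodMk continuous_id)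
      exact this.continuousAt
  have h3 : Isometry proj := fun _ _ => rfl
  exact h3.isEmbedding.isInducing.continuousAt_iff.mpr h1

lemma isometry_proj : Isometry proj := fun _ _ => rfl

lemma continuous_proj : Continuous proj := isometry_proj.continuous

/-- local lifts -/
lemma proj_lift {v : V} (hv : v ≠ 0) : Tendsto (fun x : CP3 => proj x v) (𝓝 (pr v)) (𝓝 v) := by
  have h1 : Tendsto (fun x : CP3 => proj x v) (𝓝 (pr v)) (𝓝 (proj (pr v) v)) :=
    ((ContinuousLinearMap.apply ℂ V v).continuous.comp continuous_proj).continuousAt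
  rwa [proj_pr hv, self_div hv, one_smul] at h1

lemma pr_proj {x : CP3} {v : V} (h : proj x v ≠ 0) : pr (proj x v) = x := by
  have hx : x = pr x.rep := (pr_rep x).symm
  have h0 : x.rep ≠ 0 := x.rep_nonzero
  have e : proj x v = (⟪x.rep, v⟫_ℂ / (‖x.rep‖ ^ 2 : ℝ)) • x.rep := by
    conv_lhs => rw [hx]
    exact proj_pr h0 v
  have hc : (⟪x.rep, v⟫_ℂ / (‖x.rep‖ ^ 2 : ℝ)) ≠ 0 := by
    intro hc
    rw [e, hc, zero_smul] at h
    exact h rfl
  rw [e, pr_smul hc, pr_rep]

/-- the cone over a subset of `CP3` -/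
def cone (S : Set CP3) : Set V := {v | v ≠ 0 ∧ pr v ∈ S}

lemma cone_smul {S : Set CP3} {v : V} (hv : v ∈ cone S) {c : ℂ} (hc : c ≠ 0) : c • v ∈ cone S :=
  ⟨smul_ne_zero hc hv.1, by rw [pr_smul hc]; exact hv.2⟩

lemma isOpen_cone {S : Set CP3} (hS : IsOpen S) : IsOpen (cone S) := by
  rw [isOpen_iff_mem_nhds]
  rintro v ⟨hv, hvS⟩
  filter_upwards [isOpen_ne.mem_nhds hv, (continuousAt_pr hv) (hS.mem_nhds hvS)] with w hw1 hw2
  exact ⟨hw1, hw2⟩

/-- `pr` is open -/
lemma isOpen_pr_image {O : Set V} (hO : IsOpen O) (h0 : (0 : V) ∉ O) : IsOpen (pr '' O) := by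
  rw [isOpen_iff_mem_nhds]
  rintro _ ⟨v, hv, rfl⟩
  have hv0 : v ≠ 0 := by rintro rfl; exact h0 hv
  filter_upwards [(proj_lift hv0) (hO.mem_nhds hv)] with x hx
  refine ⟨proj x v, hx, pr_proj ?_⟩
  intro h
  rw [Set.mem_preimage, h] at hx
  exact h0 hx

/-- neighbourhoods in `CP3` -/
lemma mem_nhds_pr {v : V} (hv : v ≠ 0) {S : Set CP3} :
    S ∈ 𝓝 (pr v) ↔ ∀ᶠ w in 𝓝 v, pr w ∈ S := by
  constructor
  · intro h; exact (continuousAt_pr hv) h
  · intro h
    filter_upwards [(proj_lift hv) h, (proj_lift hv) (isOpen_ne.mem_nhds hv)] with x hx hx'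
    rwa [Set.mem_preimage, Set.mem_ofPred_eq, pr_proj hx'] at hx

instance : CompactSpace CP3 := by
  constructor
  have h1 : IsCompact (Metric.sphere (0 : V) 1) := isCompact_sphere 0 1
  have h2 : ContinuousOn pr (Metric.sphere (0 : V) 1) := by
    intro v hv
    apply (continuousAt_pr _).continuousWithinAt
    rintro rfl
    simp at hv
  have h3 : pr '' (Metric.sphere (0 : V) 1) = Set.univ := by
    ext x
    simp only [Set.mem_image, Set.mem_univ, iff_true]
    have hx := x.rep_nonzero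
    have hn : (‖x.rep‖ : ℂ) ≠ 0 := by simpa using hx
    refine ⟨((‖x.rep‖ : ℂ)⁻¹) • x.rep, ?_, ?_⟩
    · simp [norm_smul, norm_ne_zero_iff.mpr hx]
    · rw [pr_smul (inv_ne_zero hn), pr_rep]
  rw [← h3]
  exact h1.image_of_continuousOn h2

/-- unit representative -/
lemma exists_unit (x : CP3) : ∃ v : V, ‖v‖ = 1 ∧ pr v = x := by
  have hx := x.rep_nonzero
  have hn : (‖x.rep‖ : ℂ) ≠ 0 := by simpa using hx
  refine ⟨((‖x.rep‖ : ℂ)⁻¹) • x.rep, ?_, ?_⟩
  · simp [norm_smul, norm_ne_zero_iff.mpr hx]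
  · rw [pr_smul (inv_ne_zero hn), pr_rep]

lemma unit_ne {v : V} (h : ‖v‖ = 1) : v ≠ 0 := by
  rintro rfl; simp at h

lemma submodule_le_iff {v : V} (hv : v ≠ 0) (W : Submodule ℂ V) : (pr v).submodule ≤ W ↔ v ∈ W := by
  rw [submodule_pr hv, Submodule.span_singleton_le_iff_mem]

end Pool.Agent.Helper1_CP3
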