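import Pool.Agent.Helper1_CP3.Act

set_option autoImplicit false
set_option linter.unusedSimpArgs false
set_option linter.unusedVariables false

open scoped LinearAlgebra.Projectivization Topology InnerProductSpace
open MeasureTheory Filter

namespace Pool.Agent.Helper1_CP3

variable {Γ : Type} [Group Γ] {D : Set CP3} {T : Γ → V →L[ℂ] V}

/-- the attracting property of `Lp` for the sequence `γ ∘ φ` -/
def Attr (T : Γ → V →L[ℂ] V) (D : Set CP3) (γ : ℕ → Γ) (Lp : Submodule ℂ V) : Prop :=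
  ∀ ψ : ℕ → ℕ, Tendsto ψ atTop atTop → ∀ (y : V) (yn : ℕ → V), Tendsto yn atTop (𝓝 y) →
        y ∈ cone D → ∀ (z : V) (an : ℕ → ℂ),
        Tendsto (fun n => an n • T (γ (ψ n)) (yn n)) atTop (𝓝 z) → z ∈ Lp

/-- the set of lines in the complement of `D` -/
def lines (D : Set CP3) : Set (Submodule ℂ V) := {W | Module.finrank ℂ W = 2 ∧ ∀ v ∈ W, v ∉ cone D}

namespace Act

lemma dyn' (h : Act Γ D T) {γ : ℕ → Γ} (hγ : Tendsto γ atTop cofinite) :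
    ∃ φ : ℕ → ℕ, StrictMono φ ∧ ∃ Lp ∈ lines D, Attr T D (fun n => γ (φ n)) Lp := by
  obtain ⟨φ, hφ, Lm, Lp, h1, h2, h3, h4⟩ := h.dyn hγ
  refine ⟨φ, hφ, Lp, ⟨h1, h3⟩, ?_⟩
  intro ψ hψ y yn hyn hy z an hz
  exact h4 ψ hψ y yn hyn (fun hyL => h2 y hyL hy) z an hz

lemma bdry (h : Act Γ D T) {K : Set CP3} (hK : IsCompact K) (hKD : K ⊆ D)
    {γ : ℕ → Γ} {y : ℕ → V} (hy : ∀ n, y n ∈ cone K) {x : CP3} (hx : x ∉ D)
    (hlim : Tendsto (fun n => pr (T (γ n) (y n))) atTop (𝓝 x)) :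
    ∃ φ : ℕ → ℕ, StrictMono φ ∧ ∃ Lp ∈ lines D, Attr T D (fun n => γ (φ n)) Lp ∧ x ∈ PW Lp := by
  have hcof := h.tendsto_cofinite hK hKD hy hx hlim
  obtain ⟨φ, hφ, Lp, hLp, hattr⟩ := h.dyn' hcof
  refine ⟨φ, hφ, Lp, hLp, hattr, ?_⟩
  -- unit representatives
  have hu : ∀ n, ∃ u : V, ‖u‖ = 1 ∧ pr u = pr (y n) := fun n => exists_unit _
  choose u hu1 hu2 using hu
  have huK : ∀ n, u (φ n) ∈ {v : V | ‖v‖ = 1 ∧ pr v ∈ K} := by
    intro n
    refine ⟨hu1 _, ?_⟩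
    rw [hu2]
    exact (hy _).2
  obtain ⟨u₀, hu₀, ψ, hψ, hψlim⟩ := (isCompact_unit hK).tendsto_subseq huK
  obtain ⟨z, hz1, rfl⟩ := exists_unit x
  have hz0 := unit_ne hz1
  have hpr : ∀ n, pr (T (γ n) (u n)) = pr (T (γ n) (y n)) := by
    intro n
    obtain ⟨c, hc, hce⟩ := (pr_eq_iff (unit_ne (hu1 n)) (hy n).1).mp (hu2 n)
    rw [hce, map_smul, pr_smul hc]
  have hlim2 : Tendsto (fun n => pr (T (γ (φ (ψ n))) (u (φ (ψ n))))) atTop (𝓝 (pr z)) := by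
    have := hlim.comp ((hφ.comp hψ).tendsto_atTop)
    refine this.congr fun n => ?_
    simp only [Function.comp_apply]
    rw [hpr]
  obtain ⟨an, han, hanlim⟩ := lift_seq hz0
    (fun n => inj_ne (h.inj (γ (φ (ψ n)))) (unit_ne (hu1 (φ (ψ n))))) hlim2
  rw [mem_PW hz0]
  exact hattr ψ hψ.tendsto_atTop u₀ (fun n => u (φ (ψ n))) hψlim
    ⟨unit_ne hu₀.1, hKD hu₀.2⟩ z an hanlim

/-- The complement of `D` is the union of the lines it contains. -/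
lemma cover (h : Act Γ D T) {x : CP3} (hx : x ∉ D) : ∃ L ∈ lines D, x ∈ PW L := by
  obtain ⟨K, U, hK, hU, hUK, hKD, hfund⟩ := h.fund
  obtain ⟨z, hz1, rfl⟩ := exists_unit x
  have hz0 := unit_ne hz1
  obtain ⟨v, hvD, hvlim⟩ := mem_closure_iff_seq_limit.mp ((dense_cone h.dim) z)
  choose γ w hw hvw using fun n => hfund (v n) (hvD n)
  have hlim : Tendsto (fun n => pr (T (γ n) (w n))) atTop (𝓝 (pr z)) := by
    have h1 : Tendsto (fun n => pr (v n)) atTop (𝓝 (pr z)) := (continuousAt_pr hz0).tendsto.comp hvlim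
    refine h1.congr fun n => hvw n
  obtain ⟨φ, hφ, Lp, hLp, -, hxL⟩ := h.bdry hK hKD (fun n => cone_mono hUK (hw n)) hx hlim
  exact ⟨Lp, hLp, hxL⟩

end Act

end Pool.Agent.Helper1_CP3
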