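import Mathlib

/-!
Domains in `ℂℙ³` covering compact complex threefolds: definitions.
-/

set_option autoImplicit false

open scoped LinearAlgebra.Projectivization Topology
open MeasureTheory

namespace Pool.Agent.Helper1_CP3

/-- `ℂ⁴` with its standard hermitian inner product. -/
abbrev V : Type := EuclideanSpace ℂ (Fin 4)

/-- Complex projective three-space. -/
abbrev CP3 : Type := ℙ ℂ V

/-- The orthogonal projection of `ℂ⁴` onto the complex line `x`. -/
noncomputable def proj (x : CP3) : V →L[ℂ] V := x.submodule.starProjection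

lemma range_proj (x : CP3) : (proj x).range = x.submodule :=
  Submodule.range_starProjection _

lemma proj_injective : Function.Injective proj := by
  intro x y h
  apply Projectivization.submodule_injective
  rw [← range_proj x, ← range_proj y, h]

/-- The metric `dist x y = ‖proj x - proj y‖` (operator norm) on `ℂℙ³`: it is the sine of the
Fubini-Study distance, hence bi-Lipschitz equivalent to the latter. -/
noncomputable instance : MetricSpace CP3 := MetricSpace.induced proj proj_injective inferInstance

noncomputable instance : MeasurableSpace CP3 := borel CP3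

instance : BorelSpace CP3 := ⟨rfl⟩

/-- A map `f : D → ℂℙ³` on a subset `D` of `ℂℙ³` is holomorphic if near every point it is given, in
homogeneous coordinates, by a complex analytic map `G` of `ℂ⁴`: `f [w] = [G w]`. -/
def IsHolo (D : Set CP3) (f : D → CP3) : Prop :=
  ∀ x : D, ∃ (v : V) (hv : v ≠ 0) (G : V → V), Projectivization.mk ℂ v hv = (x : CP3) ∧
    AnalyticAt ℂ G v ∧ G v ≠ 0 ∧
    ∀ᶠ w in 𝓝 v, ∀ (hw : w ≠ 0) (hD : Projectivization.mk ℂ w hw ∈ D) (hG : G w ≠ 0),
      f ⟨Projectivization.mk ℂ w hw, hD⟩ = Projectivization.mk ℂ (G w) hG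

/-- `D ⊆ ℂℙ³` covers a compact complex threefold: a group `Γ` of biholomorphisms of `D` acts freely
and properly discontinuously on `D` with compact quotient. (`Γ` is a group of bijections of `D`, all
of whose elements, hence also the inverses of its elements, are holomorphic.) -/
def Covers (D : Set CP3) : Prop :=
  ∃ Γ : Subgroup (Equiv.Perm D), (∀ γ ∈ Γ, IsHolo D (fun x => (γ x : CP3))) ∧
    (∀ γ ∈ Γ, γ ≠ 1 → ∀ x, γ x ≠ x) ∧
    (∀ K : Set D, IsCompact K → {γ : Γ | ((γ : Equiv.Perm D) '' K ∩ K).Nonempty}.Finite) ∧
    CompactSpace (MulAction.orbitRel.Quotient Γ D)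

/-- `S ⊆ ℂℙ³` is a (complex projective) line. -/
def IsLine (S : Set CP3) : Prop :=
  ∃ W : Submodule ℂ V, Module.finrank ℂ W = 2 ∧ S = {x | x.submodule ≤ W}

end Pool.Agent.Helper1_CP3
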