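import Pool.Agent.Helper1_CP3.Basic

set_option autoImplicit false
set_option linter.unusedSimpArgs false
set_option linter.unusedVariables false

open scoped LinearAlgebra.Projectivization Topology InnerProductSpace
open MeasureTheory Filter

namespace Pool.Agent.Helper1_CP3

/-- affine chart given by three linear forms -/
noncomputable def chart (f : Fin 3 → (V →L[ℂ] ℂ)) (x : CP3) : ℂ × ℂ :=
  (f 1 x.rep / f 0 x.rep, f 2 x.rep / f 0 x.rep)

lemma rep_pr {v : V} (hv : v ≠ 0) : ∃ c : ℂ, c ≠ 0 ∧ (pr v).rep = c • v := by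
  have h := pr_rep (pr v)
  exact (pr_eq_iff (pr v).rep_nonzero hv).mp h

lemma chart_pr (f : Fin 3 → (V →L[ℂ] ℂ)) {v : V} (hv : v ≠ 0) :
    chart f (pr v) = (f 1 v / f 0 v, f 2 v / f 0 v) := by
  obtain ⟨c, hc, h⟩ := rep_pr hv
  unfold chart
  rw [h]
  simp only [map_smul, smul_eq_mul]
  rw [mul_div_mul_left _ _ hc, mul_div_mul_left _ _ hc]

lemma f0_rep (f : Fin 3 → (V →L[ℂ] ℂ)) {v : V} (hv : v ≠ 0) :
    f 0 (pr v).rep ≠ 0 ↔ f 0 v ≠ 0 := by
  obtain ⟨c, hc, h⟩ := rep_pr hv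
  rw [h]
  simp [hc]

lemma proj_rep (x : CP3) : proj x x.rep = x.rep := by
  have h := pr_rep x
  have h2 : proj (pr x.rep) x.rep = x.rep := by
    rw [proj_pr x.rep_nonzero, self_div x.rep_nonzero, one_smul]
  rwa [h] at h2

lemma chart_locLip (f : Fin 3 → (V →L[ℂ] ℂ)) (x : CP3) (hx : f 0 x.rep ≠ 0) :
    ∃ C : NNReal, ∃ t ∈ 𝓝 x, LipschitzOnWith C (chart f) t := by
  set u := x.rep with hu
  set Φ : (V →L[ℂ] V) → ℂ × ℂ := fun T => (f 1 (T u) / f 0 (T u), f 2 (T u) / f 0 (T u)) with hΦ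
  have hT : proj x u = u := proj_rep x
  have h1 : ContDiffAt ℂ 1 Φ (proj x) := by
    have e : ∀ i, ContDiffAt ℂ 1 (fun T : V →L[ℂ] V => f i (T u)) (proj x) := by
      intro i
      exact ((f i).contDiff.comp (ContinuousLinearMap.apply ℂ V u).contDiff).contDiffAt
    apply ContDiffAt.prodMk
    · exact (e 1).div (e 0) (by rw [hT]; exact hx)
    · exact (e 2).div (e 0) (by rw [hT]; exact hx)
  obtain ⟨K, t, ht, hK⟩ := h1.exists_lipschitzOnWith
  refine ⟨K, proj ⁻¹' t ∩ {y | f 0 (proj y u) ≠ 0}, ?_, ?_⟩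
  · refine inter_mem (continuous_proj.continuousAt.preimage_mem_nhds ht) ?_
    have h2 : ContinuousAt (fun y => f 0 (proj y u)) x :=
      ((f 0).continuous.comp
        ((ContinuousLinearMap.apply ℂ V u).continuous.comp continuous_proj)).continuousAt
    apply h2.eventually_ne
    rw [hT]
    exact hx
  · have key : ∀ y, f 0 (proj y u) ≠ 0 → chart f y = Φ (proj y) := by
      intro y hy
      have h3 : proj y u ≠ 0 := by
        intro h; rw [h] at hy; simp at hy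
      have h4 := pr_proj h3
      conv_lhs => rw [← h4]
      rw [chart_pr f h3]
    rintro y ⟨hy1, hy2⟩ z ⟨hz1, hz2⟩
    rw [key y hy2, key z hz2]
    exact hK hy1 hz1

lemma dim_chart {S : Set CP3} (hS : dimH S ≤ 2) (f : Fin 3 → (V →L[ℂ] ℂ)) :
    dimH (chart f '' (S ∩ {x | f 0 x.rep ≠ 0})) ≤ 2 := by
  refine le_trans (dimH_image_le_of_locally_lipschitzOn ?_) (le_trans (dimH_mono Set.inter_subset_left) hS)
  rintro x ⟨hx1, hx2⟩
  obtain ⟨C, t, ht, hC⟩ := chart_locLip f x hx2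
  exact ⟨C, t, mem_nhdsWithin_of_mem_nhds ht, hC⟩

lemma finrank_CC : Module.finrank ℝ (ℂ × ℂ) = 4 := by
  rw [Module.finrank_prod, Complex.finrank_real_complex]

lemma dense_chart {S : Set CP3} (hS : dimH S ≤ 2) (f : Fin 3 → (V →L[ℂ] ℂ)) :
    Dense (chart f '' (S ∩ {x | f 0 x.rep ≠ 0}))ᶜ := by
  apply dense_compl_of_dimH_lt_finrank
  refine lt_of_le_of_lt (dim_chart hS f) ?_
  rw [finrank_CC]
  norm_num

/-- dual forms -/
lemma exists_dual {w : Fin 3 → V} (hw : LinearIndependent ℂ w) :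
    ∃ f : Fin 3 → (V →L[ℂ] ℂ), ∀ i j, f i (w j) = if i = j then 1 else 0 := by
  have hinj : LinearMap.ker (Fintype.linearCombination ℂ w) = ⊥ := by
    rw [LinearMap.ker_eq_bot]
    exact linearIndependent_iff_injective_fintypeLinearCombination.mp hw
  obtain ⟨g, hg⟩ := LinearMap.exists_leftInverse_of_injective _ hinj
  refine ⟨fun i => (LinearMap.toContinuousLinearMap ((LinearMap.proj i).comp g) : V →L[ℂ] ℂ), ?_⟩
  intro i j
  have h1 : g (w j) = Pi.single j 1 := by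
    have h2 : Fintype.linearCombination ℂ w (Pi.single j 1) = w j := by
      simp [Fintype.linearCombination_apply_single]
    rw [← h2]
    exact LinearMap.congr_fun hg _
  simp [h1, Pi.single_apply]

/-- Lemma A: no open piece of a plane lies in `S`. -/
lemma dense_plane {S : Set CP3} (hS : dimH S ≤ 2) {w : Fin 3 → V} (hw : LinearIndependent ℂ w) :
    Dense {z : ℂ × ℂ | w 0 + z.1 • w 1 + z.2 • w 2 ≠ 0 ∧ pr (w 0 + z.1 • w 1 + z.2 • w 2) ∉ S} := by
  obtain ⟨f, hf⟩ := exists_dual hw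
  refine (dense_chart hS f).mono ?_
  intro z hz
  have h0 : f 0 (w 0 + z.1 • w 1 + z.2 • w 2) = 1 := by simp [hf]
  have h1 : f 1 (w 0 + z.1 • w 1 + z.2 • w 2) = z.1 := by simp [hf]
  have h2 : f 2 (w 0 + z.1 • w 1 + z.2 • w 2) = z.2 := by simp [hf]
  have hne : w 0 + z.1 • w 1 + z.2 • w 2 ≠ 0 := by
    intro h; rw [h] at h0; simp at h0
  refine ⟨hne, fun hmem => hz ⟨pr (w 0 + z.1 • w 1 + z.2 • w 2), ⟨hmem, ?_⟩, ?_⟩⟩
  · rw [Set.mem_ofPred_eq, f0_rep f hne, h0]
    exact one_ne_zero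
  · rw [chart_pr f hne, h0, h1, h2]
    simp

/-- Lemma C: generic lines through a point of `D` avoid `S`. -/
lemma dense_dir {S : Set CP3} (hS : dimH S ≤ 2) {a : V} (ha : a ≠ 0) (haS : pr a ∉ S) :
    Dense {b : V | ∀ s t : ℂ, (s ≠ 0 ∨ t ≠ 0) → s • a + t • b ≠ 0 ∧ pr (s • a + t • b) ∉ S} := by
  -- forms vanishing exactly on ℂ a
  have hfin : Module.finrank ℂ ((ℂ ∙ a)ᗮ : Submodule ℂ V) = 3 := by
    have h1 := Submodule.finrank_add_finrank_orthogonal (ℂ ∙ a)
    rw [finrank_span_singleton ha, finrank_euclideanSpace_fin] at h1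
    omega
  let B := (stdOrthonormalBasis ℂ ((ℂ ∙ a)ᗮ : Submodule ℂ V)).reindex (finCongr hfin)
  set w : Fin 3 → V := fun i => (B i : V) with hw
  have hwo : ∀ i j, ⟪w i, w j⟫_ℂ = if i = j then 1 else 0 := by
    intro i j
    have := (orthonormal_iff_ite.mp B.orthonormal) i j
    rw [← this]
    rfl
  have hwa : ∀ i, ⟪w i, a⟫_ℂ = 0 := by
    intro i
    have := (B i).2
    rw [Submodule.mem_orthogonal_singleton_iff_inner_left] at this
    exact this
  set f : Fin 3 → (V →L[ℂ] ℂ) := fun i => innerSL ℂ (w i) with hf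
  have hfw : ∀ i j, f i (w j) = if i = j then 1 else 0 := by
    intro i j
    simp only [hf, innerSL_apply_apply]
    exact hwo i j
  have hfa : ∀ i, f i a = 0 := by
    intro i
    simp only [hf, innerSL_apply_apply]
    exact hwa i
  have hD := dense_chart hS f
  rw [dense_iff_inter_open]
  intro U hU ⟨b, hb⟩
  -- perturb to get f 0 b' ≠ 0
  obtain ⟨b', hb', hf0⟩ : ∃ b' ∈ U, f 0 b' ≠ 0 := by
    by_cases h : f 0 b = 0
    · have hc : Continuous fun s : ℂ => b + s • w 0 := by fun_prop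
      have h1 : ∀ᶠ s : ℂ in 𝓝 0, b + s • w 0 ∈ U := by
        apply hc.continuousAt
        apply hU.mem_nhds
        simpa using hb
      have h2 : ∀ᶠ s : ℂ in 𝓝[≠] 0, b + s • w 0 ∈ U ∧ s ≠ 0 := by
        filter_upwards [h1.filter_mono nhdsWithin_le_nhds, self_mem_nhdsWithin] with s hs hs'
        exact ⟨hs, hs'⟩
      obtain ⟨s, hs, hs0⟩ := h2.exists
      refine ⟨_, hs, ?_⟩
      simp [h, hfw, hs0]
    · exact ⟨b, hb, h⟩
  set z0 : ℂ × ℂ := (f 1 b' / f 0 b', f 2 b' / f 0 b') with hz0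
  set ψ : ℂ × ℂ → V := fun z => b' + (f 0 b' * (z.1 - z0.1)) • w 1 + (f 0 b' * (z.2 - z0.2)) • w 2
    with hψ
  have hψc : Continuous ψ := by
    rw [hψ]; fun_prop
  have hψ0 : ψ z0 = b' := by simp [hψ]
  obtain ⟨z, hzU, hz⟩ := hD.inter_open_nonempty (ψ ⁻¹' U) (hU.preimage hψc)
    ⟨z0, by rw [Set.mem_preimage, hψ0]; exact hb'⟩
  refine ⟨ψ z, hzU, ?_⟩
  have g0 : f 0 (ψ z) = f 0 b' := by simp [hψ, hfw]
  have g1 : f 1 (ψ z) = f 0 b' * z.1 := by
    simp [hψ, hfw, hz0]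
    field_simp
    ring
  have g2 : f 2 (ψ z) = f 0 b' * z.2 := by
    simp [hψ, hfw, hz0]
    field_simp
    ring
  intro s t hst
  by_cases ht : t = 0
  · subst ht
    have hs : s ≠ 0 := by simpa using hst
    rw [zero_smul, add_zero, pr_smul hs]
    exact ⟨smul_ne_zero hs ha, haS⟩
  · have k0 : f 0 (s • a + t • ψ z) = t * f 0 b' := by simp [hfa, g0]
    have k1 : f 1 (s • a + t • ψ z) = t * (f 0 b' * z.1) := by simp [hfa, g1]
    have k2 : f 2 (s • a + t • ψ z) = t * (f 0 b' * z.2) := by simp [hfa, g2]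
    have hne : s • a + t • ψ z ≠ 0 := by
      intro h
      rw [h] at k0
      simp only [map_zero] at k0
      exact mul_ne_zero ht hf0 k0.symm
    refine ⟨hne, fun hmem => hz ⟨pr (s • a + t • ψ z), ⟨hmem, ?_⟩, ?_⟩⟩
    · rw [Set.mem_ofPred_eq, f0_rep f hne, k0]
      exact mul_ne_zero ht hf0
    · rw [chart_pr f hne, k0, k1, k2]
      ext
      · show t * (f 0 b' * z.1) / (t * f 0 b') = z.1
        field_simp
      · show t * (f 0 b' * z.2) / (t * f 0 b') = z.2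
        field_simp

end Pool.Agent.Helper1_CP3
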