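import Pool.Agent.Helper1_CP3.Topo

set_option autoImplicit false
set_option linter.unusedSimpArgs false
set_option linter.unusedVariables false

open scoped LinearAlgebra.Projectivization Topology InnerProductSpace ENNReal
open MeasureTheory Filter

namespace Pool.Agent.Helper1_CP3

variable {Γ : Type} [Group Γ] {D : Set CP3} {T : Γ → V →L[ℂ] V}

namespace Act

/-- `τ` selects a closest line. -/
lemma exists_type (h : Act Γ D T) (hfin : (lines D).Finite) (hne : (lines D).Nonempty)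
    (E : Submodule ℂ V) : ∃ τ : Γ → Submodule ℂ V, (∀ γ, τ γ ∈ lines D) ∧
      ∀ γ, ∀ L ∈ lines D, dd (img T E γ) (τ γ) ≤ dd (img T E γ) L := by
  have := fun γ => Set.exists_min_image (lines D) (dd (img T E γ)) hfin hne
  choose τ h1 h2 using this
  exact ⟨τ, h1, h2⟩

variable {E : Submodule ℂ V} {τ : Γ → Submodule ℂ V}

/-- the type along a sequence is the attracting line -/
lemma type_eq (h : Act Γ D T) (hE2 : Module.finrank ℂ E = 2) (hE : ∀ v ∈ E, v ≠ 0 → v ∈ cone D)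
    (hτ1 : ∀ γ, τ γ ∈ lines D) (hτ2 : ∀ γ, ∀ L ∈ lines D, dd (img T E γ) (τ γ) ≤ dd (img T E γ) L)
    {γ : ℕ → Γ} {Lp L : Submodule ℂ V} (hLp : Lp ∈ lines D) (hL : L ∈ lines D)
    (hattr : Attr T D γ Lp) (g : Γ) (hγ : ∀ n, τ (γ n * g) = L) : L = Lp := by
  have h1 := h.conv hE hattr g
  have h2 : Tendsto (fun n => dd (img T E (γ n * g)) L) atTop (𝓝 0) := by
    refine squeeze_zero (fun n => dd_nonneg _ _) (fun n => ?_) h1
    rw [← hγ n]
    exact hτ2 _ Lp hLp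
  exact dd_uniq (fun n => h.finrank_img hE2 _) hL.1 hLp.1 h2 h1

/-- the part of the cone over `D` of a given type -/
def AA (T : Γ → V →L[ℂ] V) (U : Set CP3) (τ : Γ → Submodule ℂ V) (L : Submodule ℂ V) : Set V :=
  ⋃ γ ∈ {γ | τ γ = L}, T γ '' cone U

lemma isOpen_AA (h : Act Γ D T) {U : Set CP3} (hU : IsOpen U) (L : Submodule ℂ V) :
    IsOpen (AA T U τ L) := by
  apply isOpen_biUnion
  intro γ _
  have hsurj : Function.Surjective (T γ) :=
    (LinearMap.injective_iff_surjective (f := (T γ : V →ₗ[ℂ] V))).mp (h.inj γ)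
  exact (T γ).isOpenMap hsurj _ (isOpen_cone hU)

lemma claimY (h : Act Γ D T) (hE2 : Module.finrank ℂ E = 2) (hE : ∀ v ∈ E, v ≠ 0 → v ∈ cone D)
    (hτ1 : ∀ γ, τ γ ∈ lines D) (hτ2 : ∀ γ, ∀ L ∈ lines D, dd (img T E γ) (τ γ) ≤ dd (img T E γ) L)
    {K U : Set CP3} (hK : IsCompact K) (hUK : U ⊆ K) (hKD : K ⊆ D) {L : Submodule ℂ V}
    (hL : L ∈ lines D) {p : V} (hp0 : p ≠ 0) (hpD : pr p ∉ D) (hp : p ∈ closure (AA T U τ L)) :
    p ∈ L := by
  obtain ⟨v, hv, hvlim⟩ := mem_closure_iff_seq_limit.mp hp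
  have h1 : ∀ n, ∃ γ, τ γ = L ∧ ∃ w ∈ cone U, T γ w = v n := by
    intro n
    have := hv n
    simp only [AA, Set.mem_iUnion, Set.mem_image, Set.mem_ofPred_eq, exists_prop] at this
    exact this
  choose γ hγ w hw hwv using h1
  have hlim : Tendsto (fun n => pr (T (γ n) (w n))) atTop (𝓝 (pr p)) := by
    simp only [hwv]
    exact (continuousAt_pr hp0).tendsto.comp hvlim
  obtain ⟨φ, hφ, Lp, hLp, hattr, hxL⟩ := h.bdry hK hKD (fun n => cone_mono hUK (hw n)) hpD hlim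
  have h2 := h.type_eq hE2 hE hτ1 hτ2 hLp hL hattr 1 (fun n => by rw [mul_one]; exact hγ _)
  rw [h2, ← mem_PW hp0]
  exact hxL

lemma claimX (h : Act Γ D T) (hE2 : Module.finrank ℂ E = 2) (hE : ∀ v ∈ E, v ≠ 0 → v ∈ cone D)
    (hτ1 : ∀ γ, τ γ ∈ lines D) (hτ2 : ∀ γ, ∀ L ∈ lines D, dd (img T E γ) (τ γ) ≤ dd (img T E γ) L)
    {K U : Set CP3} (hK : IsCompact K) (hUK : U ⊆ K) (hKD : K ⊆ D) {L L' : Submodule ℂ V}
    (hL : L ∈ lines D) (hL' : L' ∈ lines D) (hne : L ≠ L') {p : V} (hp0 : p ≠ 0)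
    (hpD : pr p ∉ D) : p ∉ closure (AA T U τ L ∩ AA T U τ L') := by
  intro hp
  obtain ⟨v, hv, hvlim⟩ := mem_closure_iff_seq_limit.mp hp
  have h1 : ∀ n, ∃ γ, τ γ = L ∧ ∃ w ∈ cone U, T γ w = v n := by
    intro n
    have := (hv n).1
    simp only [AA, Set.mem_iUnion, Set.mem_image, Set.mem_ofPred_eq, exists_prop] at this
    exact this
  have h1' : ∀ n, ∃ γ, τ γ = L' ∧ ∃ w ∈ cone U, T γ w = v n := by
    intro n
    have := (hv n).2
    simp only [AA, Set.mem_iUnion, Set.mem_image, Set.mem_ofPred_eq, exists_prop] at this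
    exact this
  choose γ hγ w hw hwv using h1
  choose γ' hγ' w' hw' hwv' using h1'
  -- the transition elements lie in a finite set
  set F : Set Γ := {g | ∃ v ∈ cone K, T g v ∈ cone K} with hF
  have hFfin : F.Finite := h.pd K hK hKD
  have hg : ∀ n, (γ n)⁻¹ * γ' n ∈ F := by
    intro n
    have hwD : w n ∈ cone D := cone_mono (hUK.trans hKD) (hw n)
    have hwD' : w' n ∈ cone D := cone_mono (hUK.trans hKD) (hw' n)
    refine ⟨w' n, cone_mono hUK (hw' n), inj_ne (h.inj _) (hw' n).1, ?_⟩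
    rw [h.mul _ _ _ hwD', hwv', ← hwv, ← h.mul _ _ _ hwD, inv_mul_cancel, h.one _ hwD]
    exact hUK (hw n).2
  obtain ⟨g, hgF, hfreq⟩ : ∃ g ∈ F, ∃ᶠ n in atTop, (γ n)⁻¹ * γ' n = g := by
    by_contra hcon
    push Not at hcon
    have : ∀ᶠ n in atTop, ∀ g ∈ F, (γ n)⁻¹ * γ' n ≠ g := by
      rw [eventually_all_finite hFfin]
      intro g hg
      exact hcon g hg
    obtain ⟨n, hn⟩ := this.exists
    exact hn _ (hg n) rfl
  obtain ⟨ψ, hψ, hψg⟩ := Filter.extraction_of_frequently_atTop hfreq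
  have hlim : Tendsto (fun n => pr (T (γ (ψ n)) (w (ψ n)))) atTop (𝓝 (pr p)) := by
    have : Tendsto (fun n => pr (T (γ n) (w n))) atTop (𝓝 (pr p)) := by
      simp only [hwv]
      exact (continuousAt_pr hp0).tendsto.comp hvlim
    exact this.comp hψ.tendsto_atTop
  obtain ⟨φ, hφ, Lp, hLp, hattr, hxL⟩ := h.bdry hK hKD
    (γ := fun n => γ (ψ n)) (y := fun n => w (ψ n)) (fun n => cone_mono hUK (hw _)) hpD hlim
  have e1 := h.type_eq hE2 hE hτ1 hτ2 hLp hL hattr 1 (fun n => by rw [mul_one]; exact hγ _)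
  have e2 := h.type_eq hE2 hE hτ1 hτ2 hLp hL' hattr g (fun n => by
    have : γ (ψ (φ n)) * g = γ' (ψ (φ n)) := by
      rw [← hψg (φ n), mul_inv_cancel_left]
    rw [this]; exact hγ' _)
  exact hne (e1.trans e2.symm)

/-- The lines are pairwise disjoint. -/
lemma disjoint_lines (h : Act Γ D T) (hfin : (lines D).Finite) {L₁ L₂ : Submodule ℂ V}
    (hL₁ : L₁ ∈ lines D) (hL₂ : L₂ ∈ lines D) (hne : L₁ ≠ L₂) {p : V} (hp0 : p ≠ 0)
    (hp₁ : p ∈ L₁) (hp₂ : p ∈ L₂) : False := by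
  obtain ⟨E, hE2, hE⟩ := exists_line_in h.dim
  obtain ⟨τ, hτ1, hτ2⟩ := h.exists_type hfin ⟨L₁, hL₁⟩ E
  obtain ⟨K, U, hK, hU, hUK, hKD, hfund⟩ := h.fund
  have hpD : ∀ {q : V} {L : Submodule ℂ V}, L ∈ lines D → q ∈ L → q ≠ 0 → pr q ∉ D :=
    fun hL hq hq0 hD => hL.2 _ hq ⟨hq0, hD⟩
  -- cone D is covered by the sets AA
  have hcov : ∀ v ∈ cone D, ∃ L ∈ lines D, v ∈ AA T U τ L := by
    intro v hv
    obtain ⟨γ, w, hw, hvw⟩ := hfund v hv
    obtain ⟨c, hc, hce⟩ := (pr_eq_iff hv.1 (inj_ne (h.inj γ) hw.1)).mp hvw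
    refine ⟨τ γ, hτ1 γ, ?_⟩
    simp only [AA, Set.mem_iUnion, Set.mem_image, Set.mem_ofPred_eq, exists_prop]
    exact ⟨γ, rfl, c • w, cone_smul hw hc, by rw [map_smul, ← hce]⟩
  -- neighbourhood of p
  have hN : ∀ᶠ q in 𝓝 p, q ≠ 0 ∧ ∀ L ∈ lines D, ∀ L' ∈ lines D, L ≠ L' →
      q ∉ AA T U τ L ∩ AA T U τ L' := by
    have h0 : ∀ᶠ q in 𝓝 p, q ≠ 0 := isOpen_ne.mem_nhds hp0
    apply h0.and
    rw [eventually_all_finite hfin]
    intro L hL
    rw [eventually_all_finite hfin]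
    intro L' hL'
    rw [eventually_imp_distrib_left]
    intro hLL
    have h1 := h.claimX hE2 hE hτ1 hτ2 hK hUK hKD hL hL' hLL hp0 (hpD hL₁ hp₁ hp0)
    have h2 : ∀ᶠ q in 𝓝 p, q ∈ (closure (AA T U τ L ∩ AA T U τ L'))ᶜ :=
      isClosed_closure.isOpen_compl.mem_nhds h1
    filter_upwards [h2] with q hq hq'
    exact hq (subset_closure hq')
  obtain ⟨r, hr, hball⟩ := Metric.eventually_nhds_iff_ball.mp hN
  set S : Set V := Metric.ball p r ∩ {x | ∀ L ∈ lines D, x ∉ L} with hS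
  have hSpre : IsPreconnected S := preconnected_ball hfin (fun L hL => hL.1) p r
  have hSD : S ⊆ cone D := by
    rintro v ⟨hv1, hv2⟩
    have hv0 := (hball v hv1).1
    refine ⟨hv0, ?_⟩
    by_contra hvD
    obtain ⟨L, hL, hxL⟩ := h.cover hvD
    rw [mem_PW hv0] at hxL
    exact hv2 L hL hxL
  -- each line through p is approached by its own type
  have key : ∀ L₀ ∈ lines D, p ∈ L₀ → (S ∩ AA T U τ L₀).Nonempty := by
    intro L₀ hL₀ hp
    obtain ⟨q, hqN, hqL, hq⟩ := generic_point hfin (fun L hL => hL.1) hL₀ hp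
      Metric.isOpen_ball (Metric.mem_ball_self hr)
    have hq0 := (hball q hqN).1
    have hqD := hpD hL₀ hqL hq0
    -- q is in the closure of S
    have hqS : q ∈ closure S := by
      have hd := dense_S hfin (fun L hL => hL.1) (𝓛 := lines D)
      rw [hS]
      exact hd.open_subset_closure_inter Metric.isOpen_ball hqN
    have h1 : S ⊆ ⋃ L ∈ lines D, (S ∩ AA T U τ L) := by
      intro v hv
      obtain ⟨L, hL, hvL⟩ := hcov v (hSD hv)
      exact Set.mem_biUnion hL ⟨hv, hvL⟩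
    have h2 := closure_mono h1 hqS
    rw [hfin.closure_biUnion] at h2
    simp only [Set.mem_iUnion] at h2
    obtain ⟨L, hL, hqLc⟩ := h2
    have h3 : q ∈ L := h.claimY hE2 hE hτ1 hτ2 hK hUK hKD hL hq0 hqD
      (closure_mono Set.inter_subset_right hqLc)
    have h4 := hq L hL h3
    rw [h4] at hqLc
    exact closure_nonempty_iff.mp ⟨q, hqLc⟩
  set B : Set V := ⋃ L ∈ {L ∈ lines D | L ≠ L₁}, AA T U τ L with hB
  have hBo : IsOpen B := isOpen_biUnion fun L _ => h.isOpen_AA hU L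
  have hSAB : S ⊆ AA T U τ L₁ ∪ B := by
    intro v hv
    obtain ⟨L, hL, hvL⟩ := hcov v (hSD hv)
    by_cases hLL : L = L₁
    · left; rwa [← hLL]
    · right; exact Set.mem_biUnion (show L ∈ {L ∈ lines D | L ≠ L₁} from ⟨hL, hLL⟩) hvL
  have hSB : (S ∩ B).Nonempty := by
    obtain ⟨v, hv, hv2⟩ := key L₂ hL₂ hp₂
    exact ⟨v, hv, Set.mem_biUnion (show L₂ ∈ {L ∈ lines D | L ≠ L₁} from ⟨hL₂, hne.symm⟩) hv2⟩
  obtain ⟨v, hv, hv1, hv2⟩ := hSpre _ _ (h.isOpen_AA hU L₁) hBo hSAB (key L₁ hL₁ hp₁) hSB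
  simp only [hB, Set.mem_iUnion] at hv2
  obtain ⟨L, ⟨hL, hLne⟩, hvL⟩ := hv2
  exact (hball v hv.1).2 L₁ hL₁ L hL hLne.symm ⟨hv1, hvL⟩

end Act

end Pool.Agent.Helper1_CP3
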