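import Pool.Agent.Helper1_CP3.SVD

set_option autoImplicit false
set_option linter.unusedSimpArgs false
set_option linter.unusedVariables false

open scoped LinearAlgebra.Projectivization Topology InnerProductSpace
open MeasureTheory Filter

namespace Pool.Agent.Helper1_CP3

/-- the sequence `M n` leaves every compact subset of `D` -/
def Esc (M : ℕ → V →L[ℂ] V) (D : Set CP3) : Prop :=
  ∀ v ∈ cone D, ∀ vn : ℕ → V, Tendsto vn atTop (𝓝 v) → ∀ z : V, z ≠ 0 → ∀ an : ℕ → ℂ,
    (∀ n, an n ≠ 0) → Tendsto (fun n => an n • M n (vn n)) atTop (𝓝 z) → pr z ∉ D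

namespace SV

variable {M : ℕ → V →L[ℂ] V} {bn cn : ℕ → Fin 4 → V} {σ : ℕ → Fin 4 → ℝ}
    {b c : Fin 4 → V} {α κ β : ℝ} {D : Set CP3}

lemma σ_ne (h : SV M bn cn σ b c α κ β) (n : ℕ) (i : Fin 4) : (σ n i : ℂ) ≠ 0 := by
  exact_mod_cast (h.pos n i).ne'

lemma tendsto_coe {f : ℕ → ℝ} {a : ℝ} (h : Tendsto f atTop (𝓝 a)) :
    Tendsto (fun n => ((f n : ℝ) : ℂ)) atTop (𝓝 (a : ℂ)) :=
  (Complex.continuous_ofReal.tendsto a).comp h

lemma li3 {u : Fin 4 → V} (hu : Orthonormal ℂ u) (i j k : Fin 4) (hij : i ≠ j) (hik : i ≠ k)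
    (hjk : j ≠ k) {w₀ : V} (hw : ⟪u i, w₀⟫_ℂ ≠ 0) :
    LinearIndependent ℂ ![w₀, u j, u k] := by
  rw [Fintype.linearIndependent_iff]
  intro g hg
  rw [Fin.sum_univ_three] at hg
  simp only [Matrix.cons_val_zero, Matrix.cons_val_one, Matrix.cons_val] at hg
  have ho := orthonormal_iff_ite.mp hu
  have h1 := congrArg (fun v => ⟪u i, v⟫_ℂ) hg
  simp only [inner_add_right, inner_smul_right, inner_zero_right, ho, if_neg hij, if_neg hik,
    mul_zero, add_zero] at h1
  have g0 : g 0 = 0 := by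
    rcases mul_eq_zero.mp h1 with h | h
    · exact h
    · exact absurd h hw
  rw [g0, zero_smul, zero_add] at hg
  have h2 := congrArg (fun v => ⟪u j, v⟫_ℂ) hg
  have h3 := congrArg (fun v => ⟪u k, v⟫_ℂ) hg
  simp [inner_add_right, inner_smul_right, ho, if_neg hjk, if_neg hjk.symm] at h2 h3
  intro l
  fin_cases l
  · exact g0
  · exact h2.resolve_right (hu.ne_zero j)
  · exact h3.resolve_right (hu.ne_zero k)

/-- Claim 1: the middle gap. -/
lemma κ_zero (h : SV M bn cn σ b c α κ β) (hD : IsOpen D) (hdim : dimH (Dᶜ) ≤ 2)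
    (hesc : Esc M D) : κ = 0 := by
  by_contra hκ
  have hb := h.ob
  have hc := h.oc
  have ob := orthonormal_iff_ite.mp hb
  have oc := orthonormal_iff_ite.mp hc
  -- a point of D in span (b1, b2, b3)
  have hli : LinearIndependent ℂ ![b 2, b 1, b 3] := by
    apply li3 hb 2 1 3 (by decide) (by decide) (by decide)
    rw [ob]; simp
  obtain ⟨⟨z1, z2⟩, hz, hzS⟩ := (dense_plane hdim hli).nonempty
  simp only [Matrix.cons_val_zero, Matrix.cons_val_one, Matrix.cons_val] at hz hzS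
  have hcone := isOpen_cone hD
  -- the two families
  set X : ℂ × ℂ → V := fun p => ((α : ℂ) * p.1) • b 0 + (z1 + p.2) • b 1 + b 2 + z2 • b 3 with hX
  set w₀ : V := z1 • c 1 + (κ : ℂ) • c 2 + ((κ : ℂ) * β * z2) • c 3 with hw₀
  have hX0 : X 0 ∈ cone D := by
    have e : X 0 = b 2 + z1 • b 1 + z2 • b 3 := by
      simp only [hX, Prod.fst_zero, Prod.snd_zero, mul_zero, zero_smul, add_zero, zero_add]
      abel
    rw [e]
    exact ⟨hz, Set.notMem_compl_iff.mp hzS⟩
  have hXc : Continuous X := by rw [hX]; fun_prop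
  have hli' : LinearIndependent ℂ ![w₀, c 0, c 1] := by
    apply li3 hc 2 0 1 (by decide) (by decide) (by decide)
    simp [hw₀, inner_add_right, inner_smul_right, oc]
    exact ⟨hκ, hc.ne_zero 2⟩
  obtain ⟨⟨s, t⟩, hst, hY, hYS⟩ := (dense_plane hdim hli').inter_open_nonempty (X ⁻¹' cone D)
    (hcone.preimage hXc) ⟨0, hX0⟩
  simp only [Matrix.cons_val_zero, Matrix.cons_val_one, Matrix.cons_val] at hY hYS
  set Y : V := w₀ + s • c 0 + t • c 1 with hYdef
  -- the approximating sequence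
  set vn : ℕ → V := fun n => (((σ n 1 / σ n 0 : ℝ) : ℂ) * s) • bn n 0 + (z1 + t) • bn n 1
    + bn n 2 + z2 • bn n 3 with hvn
  have hvnt : Tendsto vn atTop (𝓝 (X (s, t))) := by
    have h0 := ((tendsto_coe h.tα).mul_const s).smul (h.tb 0)
    have h1 := (h.tb 1).const_smul (z1 + t)
    have h3 := (h.tb 3).const_smul z2
    exact ((h0.add h1).add (h.tb 2)).add h3
  have himg : ∀ n, ((σ n 1 : ℂ)⁻¹) • M n (vn n) = s • cn n 0 + (z1 + t) • cn n 1
      + ((σ n 2 / σ n 1 : ℝ) : ℂ) • cn n 2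
      + (((σ n 2 / σ n 1 : ℝ) : ℂ) * ((σ n 3 / σ n 2 : ℝ) : ℂ) * z2) • cn n 3 := by
    intro n
    have k0 := h.σ_ne n 0
    have k1 := h.σ_ne n 1
    have k2 := h.σ_ne n 2
    simp only [hvn, map_add, map_smul, h.map, smul_add, smul_smul]
    push_cast
    congr 1
    · congr 1
      · congr 1
        · congr 1; field_simp
        · congr 1; field_simp
      · congr 1; field_simp
    · congr 1; field_simp
  have hlim : Tendsto (fun n => ((σ n 1 : ℂ)⁻¹) • M n (vn n)) atTop (𝓝 Y) := by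
    have h0 := (h.tc 0).const_smul s
    have h1 := (h.tc 1).const_smul (z1 + t)
    have h2 := (tendsto_coe h.tκ).smul (h.tc 2)
    have h3 := (((tendsto_coe h.tκ).mul (tendsto_coe h.tβ)).mul_const z2).smul (h.tc 3)
    have h4 := ((h0.add h1).add h2).add h3
    have e : s • c 0 + (z1 + t) • c 1 + (κ : ℂ) • c 2 + ((κ : ℂ) * β * z2) • c 3 = Y := by
      simp only [hYdef, hw₀]
      module
    rw [e] at h4
    refine h4.congr fun n => (himg n).symm
  exact hesc _ hst vn hvnt Y hY _ (fun n => inv_ne_zero (h.σ_ne n 1)) hlim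
    (Set.notMem_compl_iff.mp hYS)

/-- Claim 2: the repelling line is in the complement of `D`. -/
lemma repelling (h : SV M bn cn σ b c α κ β) (hD : IsOpen D) (hdim : dimH (Dᶜ) ≤ 2)
    (hesc : Esc M D) {x2 x3 : ℂ} : x2 • b 2 + x3 • b 3 ∉ cone D := by
  have hκ := h.κ_zero hD hdim hesc
  intro hx
  have hb := h.ob
  have hc := h.oc
  have ob := orthonormal_iff_ite.mp hb
  have oc := orthonormal_iff_ite.mp hc
  have hcone := isOpen_cone hD
  -- perturb to get x2 ≠ 0
  obtain ⟨y2, hy2, hy⟩ : ∃ y2 : ℂ, y2 ≠ 0 ∧ y2 • b 2 + x3 • b 3 ∈ cone D := by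
    by_cases h2 : x2 = 0
    · have hcont : Continuous fun y : ℂ => y • b 2 + x3 • b 3 := by fun_prop
      have h1 : ∀ᶠ y in 𝓝 (0:ℂ), y • b 2 + x3 • b 3 ∈ cone D := by
        apply hcont.continuousAt
        apply hcone.mem_nhds
        rw [h2] at hx
        exact hx
      have h3 : ∀ᶠ y in 𝓝[≠] (0:ℂ), y • b 2 + x3 • b 3 ∈ cone D ∧ y ≠ 0 := by
        filter_upwards [h1.filter_mono nhdsWithin_le_nhds, self_mem_nhdsWithin] with y hy hy'
        exact ⟨hy, hy'⟩
      obtain ⟨y, hy, hy0⟩ := h3.exists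
      exact ⟨y, hy0, hy⟩
    · exact ⟨x2, h2, hx⟩
  set w₀ : V := y2 • c 2 + ((β : ℂ) * x3) • c 3 with hw₀
  have hli' : LinearIndependent ℂ ![w₀, c 0, c 1] := by
    apply li3 hc 2 0 1 (by decide) (by decide) (by decide)
    simp [hw₀, inner_add_right, inner_smul_right, oc]
    exact ⟨hy2, hc.ne_zero 2⟩
  obtain ⟨⟨s, t⟩, hY, hYS⟩ := (dense_plane hdim hli').nonempty
  simp only [Matrix.cons_val_zero, Matrix.cons_val_one, Matrix.cons_val] at hY hYS
  set Y : V := w₀ + s • c 0 + t • c 1 with hYdef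
  set vn : ℕ → V := fun n => (((σ n 2 / σ n 1 : ℝ) : ℂ) * ((σ n 1 / σ n 0 : ℝ) : ℂ) * s) • bn n 0
    + (((σ n 2 / σ n 1 : ℝ) : ℂ) * t) • bn n 1 + y2 • bn n 2 + x3 • bn n 3 with hvn
  have hvnt : Tendsto vn atTop (𝓝 (y2 • b 2 + x3 • b 3)) := by
    have h0 := (((tendsto_coe h.tκ).mul (tendsto_coe h.tα)).mul_const s).smul (h.tb 0)
    have h1 := ((tendsto_coe h.tκ).mul_const t).smul (h.tb 1)
    have h2 := (h.tb 2).const_smul y2
    have h3 := (h.tb 3).const_smul x3
    have h4 := ((h0.add h1).add h2).add h3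
    have e : ((κ : ℂ) * α * s) • b 0 + ((κ : ℂ) * t) • b 1 + y2 • b 2 + x3 • b 3
        = y2 • b 2 + x3 • b 3 := by
      rw [hκ]; simp
    rw [e] at h4
    exact h4
  have himg : ∀ n, ((σ n 2 : ℂ)⁻¹) • M n (vn n) = s • cn n 0 + t • cn n 1
      + y2 • cn n 2 + (((σ n 3 / σ n 2 : ℝ) : ℂ) * x3) • cn n 3 := by
    intro n
    have k0 := h.σ_ne n 0
    have k1 := h.σ_ne n 1
    have k2 := h.σ_ne n 2
    simp only [hvn, map_add, map_smul, h.map, smul_add, smul_smul]
    push_cast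
    congr 1
    · congr 1
      · congr 1
        · congr 1; field_simp
        · congr 1; field_simp
      · congr 1; field_simp
    · congr 1; field_simp
  have hlim : Tendsto (fun n => ((σ n 2 : ℂ)⁻¹) • M n (vn n)) atTop (𝓝 Y) := by
    have h0 := (h.tc 0).const_smul s
    have h1 := (h.tc 1).const_smul t
    have h2 := (h.tc 2).const_smul y2
    have h3 := ((tendsto_coe h.tβ).mul_const x3).smul (h.tc 3)
    have h4 := ((h0.add h1).add h2).add h3
    have e : s • c 0 + t • c 1 + y2 • c 2 + ((β : ℂ) * x3) • c 3 = Y := by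
      simp only [hYdef, hw₀]
      module
    rw [e] at h4
    refine h4.congr fun n => (himg n).symm
  exact hesc _ hy vn hvnt Y hY _ (fun n => inv_ne_zero (h.σ_ne n 2)) hlim
    (Set.notMem_compl_iff.mp hYS)

/-- orthonormal expansion in `V` -/
lemma expand {u : Fin 4 → V} (hu : Orthonormal ℂ u) (v : V) : v = ∑ i, ⟪u i, v⟫_ℂ • u i := by
  have hcard : Fintype.card (Fin 4) = Module.finrank ℂ V := by
    rw [finrank_euclideanSpace_fin]; rfl
  let B := basisOfOrthonormalOfCardEqFinrank hu hcard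
  have hB : ⇑B = u := coe_basisOfOrthonormalOfCardEqFinrank hu hcard
  let OB := B.toOrthonormalBasis (by rw [hB]; exact hu)
  have hOB : ∀ i, OB i = u i := fun i => by
    show (B.toOrthonormalBasis _) i = u i
    rw [Module.Basis.coe_toOrthonormalBasis, hB]
  have := (OB.sum_repr' v).symm
  simp only [hOB] at this
  exact this

/-- Claim 3: limits of images lie on the attracting line. -/
lemma attract (h : SV M bn cn σ b c α κ β) (hκ : κ = 0) {y : V} {yn : ℕ → V}
    (hy : Tendsto yn atTop (𝓝 y)) (hyr : y ∉ Submodule.span ℂ {b 2, b 3}) {z : V} {an : ℕ → ℂ}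
    (hz : Tendsto (fun n => an n • M n (yn n)) atTop (𝓝 z)) : z ∈ Submodule.span ℂ {c 0, c 1} := by
  have hb := h.ob
  have hc := h.oc
  -- coordinates
  have hcoord : ∀ i, Tendsto (fun n => (an n * (σ n i : ℂ)) * ⟪bn n i, yn n⟫_ℂ) atTop
      (𝓝 ⟪c i, z⟫_ℂ) := by
    intro i
    have h1 : Tendsto (fun n => ⟪cn n i, an n • M n (yn n)⟫_ℂ) atTop (𝓝 ⟪c i, z⟫_ℂ) :=
      (h.tc i).inner hz
    refine h1.congr fun n => ?_
    have e1 : yn n = ∑ j, ⟪bn n j, yn n⟫_ℂ • bn n j := expand (h.obn n) _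
    have e2 : M n (yn n) = ∑ j, (⟪bn n j, yn n⟫_ℂ * (σ n j : ℂ)) • cn n j := by
      conv_lhs => rw [e1, map_sum]
      apply Finset.sum_congr rfl
      intro j _
      rw [map_smul, h.map, smul_smul]
    rw [e2, inner_smul_right, inner_sum]
    have oc := orthonormal_iff_ite.mp (h.ocn n)
    simp only [inner_smul_right, oc, mul_ite, mul_one, mul_zero, Finset.sum_ite_eq,
      Finset.mem_univ, if_true]
    ring
  have hyc : ∀ i, Tendsto (fun n => ⟪bn n i, yn n⟫_ℂ) atTop (𝓝 ⟪b i, y⟫_ℂ) :=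
    fun i => (h.tb i).inner hy
  -- some coordinate of y in {0,1} is nonzero
  obtain ⟨j, hj, hjy⟩ : ∃ j : Fin 4, j ≤ 1 ∧ ⟪b j, y⟫_ℂ ≠ 0 := by
    by_contra hcon
    push Not at hcon
    apply hyr
    rw [expand hb y, Fin.sum_univ_four, hcon 0 (by decide), hcon 1 (by decide)]
    simp only [zero_smul, zero_add]
    apply Submodule.add_mem
    · exact Submodule.smul_mem _ _ (Submodule.subset_span (by simp))
    · exact Submodule.smul_mem _ _ (Submodule.subset_span (by simp))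
  -- hence `an * σ 1` stays bounded, in the sense `an σ_j → finite`
  have hbd : Tendsto (fun n => an n * (σ n j : ℂ)) atTop (𝓝 (⟪c j, z⟫_ℂ / ⟪b j, y⟫_ℂ)) := by
    have h1 := (hcoord j).div (hyc j) hjy
    have h2 : ∀ᶠ n in atTop, ⟪bn n j, yn n⟫_ℂ ≠ 0 := (hyc j).eventually_ne hjy
    refine h1.congr' ?_
    filter_upwards [h2] with n hn
    simp only [Pi.div_apply]
    rw [mul_div_assoc, div_self hn, mul_one]
  -- σ i / σ j → 0 for i ≥ 2
  have hsmall : ∀ i : Fin 4, 2 ≤ i → Tendsto (fun n => σ n i / σ n j) atTop (𝓝 0) := by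
    intro i hi
    have h1 : ∀ n, σ n i / σ n j ≤ σ n 2 / σ n 1 := by
      intro n
      exact div_le_div₀ (h.pos n _).le (h.anti n hi) (h.pos n _) (h.anti n hj)
    have h2 := h.tκ
    rw [hκ] at h2
    exact squeeze_zero (fun n => div_nonneg (h.pos n _).le (h.pos n _).le) h1 h2
  have hzero : ∀ i : Fin 4, 2 ≤ i → ⟪c i, z⟫_ℂ = 0 := by
    intro i hi
    have h1 := ((hbd.mul (tendsto_coe (hsmall i hi))).mul (hyc i))
    have h2 : Tendsto (fun n => (an n * (σ n i : ℂ)) * ⟪bn n i, yn n⟫_ℂ) atTop (𝓝 0) := by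
      have e : (⟪c j, z⟫_ℂ / ⟪b j, y⟫_ℂ) * ((0:ℝ):ℂ) * ⟪b i, y⟫_ℂ = 0 := by simp
      rw [e] at h1
      refine h1.congr fun n => ?_
      have := h.σ_ne n j
      push_cast
      field_simp
    exact tendsto_nhds_unique (hcoord i) h2
  rw [expand hc z, Fin.sum_univ_four, hzero 2 (by decide), hzero 3 (by decide)]
  simp only [zero_smul, add_zero]
  apply Submodule.add_mem
  · exact Submodule.smul_mem _ _ (Submodule.subset_span (by simp))
  · exact Submodule.smul_mem _ _ (Submodule.subset_span (by simp))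

end SV

end Pool.Agent.Helper1_CP3
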