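import Pool.Agent.Helper1_CP3.Quartic

set_option autoImplicit false
set_option linter.unusedSimpArgs false
set_option linter.unusedVariables false

open scoped LinearAlgebra.Projectivization Topology InnerProductSpace
open MeasureTheory Filter

namespace Pool.Agent.Helper1_CP3

/-- If `K` is affine along a dense set of directions through `w`, its second derivative vanishes. -/
lemma snd_zero {K : V → V} {w : V} (hK : AnalyticAt ℂ K w)
    (h : ∀ i, Dense {b : V | ∃ γ δ : ℂ, ∀ᶠ z in 𝓝 (0:ℂ), K (w + z • b) i = γ * z + δ}) :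
    fderiv ℂ (fderiv ℂ K) w = 0 := by
  set B := fderiv ℂ (fderiv ℂ K) w with hB
  have hsymm : ∀ u v, B u v = B v u :=
    ContDiffAt.isSymmSndFDerivAt_of_omega hK.contDiffAt
  have hquad : ∀ i, ∀ b, (B b b) i = 0 := by
    intro i
    have hcont : Continuous fun b : V => (B b b) i := by
      have h1 : Continuous fun b : V => B b b := by
        exact (B.continuous).clm_apply continuous_id
      exact (EuclideanSpace.proj i : V →L[ℂ] ℂ).continuous.comp h1
    have hz : ∀ b ∈ {b : V | ∃ γ δ : ℂ, ∀ᶠ z in 𝓝 (0:ℂ), K (w + z • b) i = γ * z + δ},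
        (B b b) i = 0 := by
      rintro b ⟨γ, δ, hb⟩
      have hlin : ∀ z : ℂ, HasDerivAt (fun z : ℂ => w + z • b) b z := by
        intro z
        have := ((hasDerivAt_id z).smul_const b).const_add w
        simpa using this
      have hlin0 : Tendsto (fun z : ℂ => w + z • b) (𝓝 0) (𝓝 w) := by
        have : Continuous fun z : ℂ => w + z • b := by fun_prop
        simpa using (this.tendsto (0:ℂ))
      have h1 : HasDerivAt (fun z : ℂ => (fderiv ℂ K (w + z • b) b) i) ((B b b) i) 0 := by
        have h2 : HasFDerivAt (fderiv ℂ K) B (w + (0:ℂ) • b) := by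
          rw [zero_smul, add_zero]
          exact hK.fderiv.differentiableAt.hasFDerivAt
        have h3 := h2.comp_hasDerivAt (0:ℂ) (hlin 0)
        have h4 : HasDerivAt (fun z : ℂ => fderiv ℂ K (w + z • b) b) (B b b) 0 := by
          have := h3.clm_apply (hasDerivAt_const (0:ℂ) b)
          simpa using this
        exact ((EuclideanSpace.proj i : V →L[ℂ] ℂ).hasFDerivAt).comp_hasDerivAt (0:ℂ) h4
      have h5 : (fun z : ℂ => (fderiv ℂ K (w + z • b) b) i) =ᶠ[𝓝 0] fun _ => γ := by
        filter_upwards [hb.eventually_nhds, hlin0.eventually hK.eventually_analyticAt] with z hz1 hz2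
        have h6 : HasDerivAt (fun z : ℂ => K (w + z • b) i) ((fderiv ℂ K (w + z • b) b) i) z := by
          have := hz2.differentiableAt.hasFDerivAt.comp_hasDerivAt z (hlin z)
          exact ((EuclideanSpace.proj i : V →L[ℂ] ℂ).hasFDerivAt).comp_hasDerivAt z this
        have h7 : HasDerivAt (fun z : ℂ => γ * z + δ) γ z := by
          have := ((hasDerivAt_id z).const_mul γ).add_const δ
          simpa using this
        exact h6.unique (h7.congr_of_eventuallyEq hz1)
      exact h1.unique ((hasDerivAt_const (0:ℂ) γ).congr_of_eventuallyEq h5)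
    intro b
    have hcl : IsClosed {b : V | (B b b) i = 0} := isClosed_eq hcont continuous_const
    have := (h i).closure_eq ▸ (closure_minimal hz hcl)
    exact this (Set.mem_univ b)
  have hq : ∀ b, B b b = 0 := fun b => by ext i; exact hquad i b
  ext1 u
  ext1 v
  have h1 : B u v + B u v = 0 := by
    have h0 := hq (u + v)
    have e : B (u + v) (u + v) = B u u + B v u + (B u v + B v v) := by
      rw [map_add (B (u + v)), map_add B]
      simp only [add_apply]
    rw [e, hq u, hq v, hsymm v u, zero_add, add_zero] at h0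
    exact h0
  have h2 : (2:ℂ) • B u v = 0 := by rw [two_smul]; exact h1
  simpa using h2

/-- local linearity -/
lemma local_linear {g g' : CP3 → CP3} {D : Set CP3} (hb : Bihol g g' D)
    (hdim : dimH (Dᶜ) ≤ 2) {v : V} (hv : v ∈ cone D) :
    ∃ M : V →L[ℂ] V, Function.Injective M ∧ ∀ᶠ w in 𝓝 v, g (pr w) = pr (M w) := by
  obtain ⟨H, h⟩ := exists_good hb.holo hv
  have hJ := J_ne_zero hb hv h
  have hcone := isOpen_cone hb.open'
  obtain ⟨κ, hκ⟩ := IsAlgClosed.exists_pow_nat_eq (J H v) (n := 4) (by norm_num)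
  have hκ0 : κ ≠ 0 := by
    rintro rfl
    rw [zero_pow (by norm_num)] at hκ
    exact hJ hκ.symm
  set r : V → ℂ := fun w => κ * Complex.exp (1 / 4 * Complex.log (J H w / J H v)) with hr
  have hr0 : ∀ w, r w ≠ 0 := fun w => mul_ne_zero hκ0 (Complex.exp_ne_zero _)
  have hr4 : ∀ w, J H w ≠ 0 → r w ^ 4 = J H w := by
    intro w hw
    simp only [hr]
    rw [mul_pow, ← Complex.exp_nat_mul, hκ]
    have : (((4 : ℕ) : ℂ)) * (1 / 4 * Complex.log (J H w / J H v)) = Complex.log (J H w / J H v) := by
      push_cast; ring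
    rw [this, Complex.exp_log (div_ne_zero hw hJ)]
    field_simp
  have hJan := analyticAt_J h.an
  have hran : AnalyticAt ℂ r v := by
    apply AnalyticAt.fun_mul analyticAt_const
    apply AnalyticAt.cexp'
    apply AnalyticAt.fun_mul analyticAt_const
    apply AnalyticAt.clog
    · exact hJan.fun_div analyticAt_const hJ
    · rw [div_self hJ]; exact Complex.one_mem_slitPlane
  set K : V → V := fun w => (r w)⁻¹ • H w with hK
  have hKan : AnalyticAt ℂ K v := (hran.fun_inv (hr0 v)).fun_smul h.an
  -- a good neighbourhood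
  have hgood : ∀ᶠ w in 𝓝 v, AnalyticAt ℂ K w ∧ w ∈ cone D ∧ GoodLift g w H ∧ J H w ≠ 0 := by
    filter_upwards [hKan.eventually_analyticAt, hcone.mem_nhds hv, h.eventually,
      hJan.continuousAt.eventually_ne hJ] with w h1 h2 h3 h4
    exact ⟨h1, h2, h3, h4⟩
  have hsnd : ∀ᶠ w in 𝓝 v, fderiv ℂ (fderiv ℂ K) w = 0 := by
    filter_upwards [hgood, hgood.eventually_nhds] with w hw hww
    obtain ⟨h1, h2, h3, h4⟩ := hw
    apply snd_zero h1
    intro i
    have hD : pr w ∉ Dᶜ := by
      rw [Set.notMem_compl_iff]; exact h2.2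
    refine (dense_dir hdim h2.1 hD).mono ?_
    intro b hbb
    have hab : ∀ s t : ℂ, (s ≠ 0 ∨ t ≠ 0) → s • w + t • b ∈ cone D := by
      intro s t hst
      have := hbb s t hst
      exact ⟨this.1, Set.notMem_compl_iff.mp this.2⟩
    obtain ⟨α, β, hαβ⟩ := Pf_line hb i hab
    have hlin0 : Tendsto (fun z : ℂ => w + z • b) (𝓝 0) (𝓝 w) := by
      have : Continuous fun z : ℂ => w + z • b := by fun_prop
      simpa using (this.tendsto (0:ℂ))
    have han : AnalyticAt ℂ (fun z : ℂ => K (w + z • b) i) 0 := by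
      have e1 : AnalyticAt ℂ (fun z : ℂ => w + z • b) 0 := by
        apply AnalyticAt.fun_add analyticAt_const
        exact analyticAt_id.fun_smul analyticAt_const
      have e2 : AnalyticAt ℂ (fun u : V => K u i) (w + (0:ℂ) • b) := by
        rw [zero_smul, add_zero]
        exact ((EuclideanSpace.proj i : V →L[ℂ] ℂ).analyticAt _).fun_comp h1
      exact AnalyticAt.fun_comp (g := fun u : V => K u i) e2 e1
    apply root_affine (α := α) (β := β) han
    filter_upwards [hlin0.eventually hww] with z hz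
    obtain ⟨k1, k2, k3, k4⟩ := hz
    rw [← hαβ z, Pf_eq k3 i]
    simp only [hK, PiLp.smul_apply, smul_eq_mul, mul_pow, inv_pow]
    rw [hr4 _ k4, inv_mul_eq_div]
  -- `fderiv K` is constant near `v`
  obtain ⟨ρ, hρ, hball⟩ := Metric.eventually_nhds_iff_ball.mp (hgood.and hsnd)
  have hconst : ∀ w ∈ Metric.ball v ρ, fderiv ℂ K w = fderiv ℂ K v := by
    intro w hw
    apply Metric.isOpen_ball.is_const_of_fderiv_eq_zero (𝕜 := ℂ)
      ((convex_ball v ρ).isPreconnected) (f := fderiv ℂ K) ?_ ?_ hw (Metric.mem_ball_self hρ)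
    · intro u hu
      exact (hball u hu).1.1.fderiv.differentiableAt.differentiableWithinAt
    · intro u hu
      exact (hball u hu).2
  set M : V →L[ℂ] V := fderiv ℂ K v with hM
  have hlin : ∀ w ∈ Metric.ball v ρ, K w = M w := by
    intro w hw
    obtain ⟨⟨h1, h2, h3, h4⟩, -⟩ := hball w hw
    have heuler : fderiv ℂ K w w = K w := by
      have e1 : HasDerivAt (fun c : ℂ => c • w) w 1 := by
        have := (hasDerivAt_id (1:ℂ)).smul_const w
        simpa using this
      have hd' : HasFDerivAt K (fderiv ℂ K w) ((1:ℂ) • w) := by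
        rw [one_smul]; exact h1.differentiableAt.hasFDerivAt
      have e2 : HasDerivAt (fun c : ℂ => K (c • w)) (fderiv ℂ K w w) 1 :=
        HasFDerivAt.comp_hasDerivAt (f := fun c : ℂ => c • w) (1:ℂ) hd' e1
      have e3 : HasDerivAt (fun c : ℂ => c • K w) (K w) 1 := by
        have := (hasDerivAt_id (1:ℂ)).smul_const (K w)
        simpa using this
      have e4 : (fun c : ℂ => K (c • w)) =ᶠ[𝓝 1] fun c => c • K w := by
        filter_upwards [isOpen_ne.mem_nhds (one_ne_zero : (1:ℂ) ≠ 0)] with c hc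
        have e5 : r (c • w) = r w := by
          simp only [hr]
          rw [J_hom h3.an.differentiableAt h3.hom hc]
        simp only [hK]
        rw [e5, h3.hom c w hc, smul_comm]
      exact e2.unique (e3.congr_of_eventuallyEq e4)
    rw [← heuler, hconst w hw]
  have hev : ∀ᶠ w in 𝓝 v, g (pr w) = pr (M w) := by
    filter_upwards [Metric.ball_mem_nhds v hρ, h.eq] with w hw1 hw2
    rw [← hlin w hw1, ← hw2]
    simp only [hK]
    rw [pr_smul (inv_ne_zero (hr0 w))]
  refine ⟨M, ?_, hev⟩
  -- injectivity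
  rw [injective_iff_map_eq_zero]
  intro u hu
  by_contra hu0
  have hMv : M v ≠ 0 := by
    rw [← hlin v (Metric.mem_ball_self hρ)]
    exact smul_ne_zero (inv_ne_zero (hr0 v)) h.ne
  have hcont : Tendsto (fun t : ℂ => v + t • u) (𝓝 0) (𝓝 v) := by
    have : Continuous fun t : ℂ => v + t • u := by fun_prop
    simpa using (this.tendsto (0:ℂ))
  have h1 : ∀ᶠ t in 𝓝[≠] (0:ℂ), (g (pr (v + t • u)) = pr (M (v + t • u)) ∧ v + t • u ∈ cone D) ∧
      t ≠ 0 := by
    filter_upwards [(hcont.eventually (hev.and (hcone.mem_nhds hv))).filter_mono nhdsWithin_le_nhds,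
      self_mem_nhdsWithin] with t ht ht'
    exact ⟨ht, ht'⟩
  obtain ⟨t, ⟨ht1, ht2⟩, ht0⟩ := h1.exists
  rw [map_add, map_smul, hu, smul_zero, add_zero, ← hev.self_of_nhds] at ht1
  have hinj : pr (v + t • u) = pr v := by
    rw [← hb.inv _ ht2.2, ht1, hb.inv _ hv.2]
  obtain ⟨c, hc, hce⟩ := (pr_eq_iff ht2.1 hv.1).mp hinj
  have h2 : t • u = (c - 1) • v := by
    rw [sub_smul, one_smul, ← hce]; abel
  have h3 : M (t • u) = 0 := by rw [map_smul, hu, smul_zero]
  rw [h2, map_smul] at h3
  rcases smul_eq_zero.mp h3 with h4 | h4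
  · rw [h4, zero_smul] at h2
    rcases smul_eq_zero.mp h2 with h5 | h5
    · exact ht0 h5
    · exact hu0 h5
  · exact hMv h4

end Pool.Agent.Helper1_CP3
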