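import Pool.Agent.Helper1_CP3.Disj

set_option autoImplicit false
set_option linter.unusedSimpArgs false
set_option linter.unusedVariables false

open scoped LinearAlgebra.Projectivization Topology InnerProductSpace ENNReal
open MeasureTheory Filter

namespace Pool.Agent.Helper1_CP3

/-! ### components -/

lemma PW_eq_image (W : Submodule ℂ V) :
    PW W = (fun u : W => pr u) '' ({0}ᶜ : Set W) := by
  ext x
  constructor
  · intro hx
    obtain ⟨v, hv, rfl⟩ := exists_unit x
    rw [mem_PW (unit_ne hv)] at hx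
    refine ⟨⟨v, hx⟩, ?_, rfl⟩
    intro h
    apply unit_ne hv
    exact congrArg Subtype.val h
  · rintro ⟨u, hu, rfl⟩
    have hu0 : (u : V) ≠ 0 := fun h => hu (Subtype.ext h)
    show pr u ∈ PW W
    rw [mem_PW hu0]
    exact u.2

lemma PW_preconnected {W : Submodule ℂ V} (hW : Module.finrank ℂ W = 2) : IsPreconnected (PW W) := by
  rw [PW_eq_image]
  have h1 : IsPreconnected ({0}ᶜ : Set W) := by
    refine (isConnected_compl_singleton_of_one_lt_rank ?_ 0).isPreconnected
    have h2 : Module.finrank ℝ W = 4 := finrank_real W hW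
    rw [← Module.finrank_eq_rank, h2]
    norm_cast
  apply h1.image
  intro u hu
  have hu0 : (u : V) ≠ 0 := fun h => hu (Subtype.ext h)
  apply ContinuousAt.continuousWithinAt
  exact ContinuousAt.comp' (g := pr) (continuousAt_pr hu0) continuous_subtype_val.continuousAt

lemma PW_subset {D : Set CP3} {L : Submodule ℂ V} (hL : L ∈ lines D) : PW L ⊆ Dᶜ := by
  intro x hx hD
  obtain ⟨v, hv, rfl⟩ := exists_unit x
  rw [mem_PW (unit_ne hv)] at hx
  exact hL.2 v hx ⟨unit_ne hv, hD⟩

theorem Act.component {Γ : Type} [Group Γ] {D : Set CP3} {T : Γ → V →L[ℂ] V} (h : Act Γ D T)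
    (hfin : (lines D).Finite) {x : CP3} (hx : x ∈ Dᶜ) :
    ∃ L ∈ lines D, connectedComponentIn (Dᶜ) x = PW L := by
  obtain ⟨L, hL, hxL⟩ := h.cover hx
  refine ⟨L, hL, ?_⟩
  apply Set.Subset.antisymm
  · set R : Set CP3 := ⋃ L' ∈ {L' ∈ lines D | L' ≠ L}, PW L' with hR
    have hRc : IsClosed R := by
      apply Set.Finite.isClosed_biUnion (hfin.subset fun L hL => hL.1)
      intro L' _
      exact isClosed_PW L'
    have hdisj : PW L ∩ R = ∅ := by
      rw [Set.eq_empty_iff_forall_notMem]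
      rintro y ⟨hy1, hy2⟩
      simp only [hR, Set.mem_iUnion] at hy2
      obtain ⟨L', ⟨hL', hne⟩, hyL'⟩ := hy2
      obtain ⟨v, hv, rfl⟩ := exists_unit y
      rw [mem_PW (unit_ne hv)] at hy1 hyL'
      exact h.disjoint_lines hfin hL hL' hne.symm (unit_ne hv) hy1 hyL'
    have hpre : IsPreconnected (connectedComponentIn (Dᶜ) x) := isPreconnected_connectedComponentIn
    intro y hy
    by_contra hyL
    have hsub : connectedComponentIn (Dᶜ) x ⊆ PW L ∪ R := by
      intro z hz
      have hzD := connectedComponentIn_subset _ _ hz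
      obtain ⟨L', hL', hzL'⟩ := h.cover hzD
      by_cases hLL : L' = L
      · left; rwa [← hLL]
      · right
        exact Set.mem_biUnion (show L' ∈ {L' ∈ lines D | L' ≠ L} from ⟨hL', hLL⟩) hzL'
    have hyR : y ∈ R := (hsub hy).resolve_left hyL
    have hxC : x ∈ connectedComponentIn (Dᶜ) x := mem_connectedComponentIn hx
    obtain ⟨z, hz, hz1⟩ := (isPreconnected_closed_iff.mp hpre) (PW L) R (isClosed_PW L) hRc hsub
      ⟨x, hxC, hxL⟩ ⟨y, hy, hyR⟩
    rw [hdisj] at hz1
    exact hz1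
  · exact (PW_preconnected hL.1).subset_connectedComponentIn hxL (PW_subset hL)

/-! ### from coverings to group actions by matrices -/

open Classical in
/-- extension of a bijection of `D` by the identity -/
noncomputable def extend {D : Set CP3} (γ : Equiv.Perm D) (x : CP3) : CP3 :=
  if h : x ∈ D then (γ ⟨x, h⟩ : CP3) else x

lemma extend_of_mem {D : Set CP3} (γ : Equiv.Perm D) {x : CP3} (h : x ∈ D) :
    extend γ x = (γ ⟨x, h⟩ : CP3) := dif_pos h

lemma extend_mem {D : Set CP3} (γ : Equiv.Perm D) {x : CP3} (h : x ∈ D) : extend γ x ∈ D := by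
  rw [extend_of_mem γ h]; exact (γ ⟨x, h⟩).2

lemma extend_mul {D : Set CP3} (γ γ' : Equiv.Perm D) {x : CP3} (h : x ∈ D) :
    extend (γ * γ') x = extend γ (extend γ' x) := by
  rw [extend_of_mem _ h, extend_of_mem γ (extend_mem γ' h)]
  congr 1
  rw [Equiv.Perm.mul_apply]
  congr 1
  exact Subtype.ext (extend_of_mem γ' h).symm

lemma extend_one {D : Set CP3} {x : CP3} (h : x ∈ D) : extend (1 : Equiv.Perm D) x = x := by
  rw [extend_of_mem _ h]; rfl

lemma holoOn_extend {D : Set CP3} (hD : IsOpen D) (γ : Equiv.Perm D)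
    (h : IsHolo D (fun x => (γ x : CP3))) : HoloOn (extend γ) D := by
  intro v hv
  obtain ⟨v', hv', G, hmk, han, hG0, hev⟩ := h ⟨pr v, hv.2⟩
  have hmk' : pr v' = pr v := by rw [pr_of_ne hv']; exact hmk
  obtain ⟨c, hc, hcv⟩ := (pr_eq_iff hv' hv.1).mp hmk'
  have hcont : Tendsto (fun w : V => c • w) (𝓝 v) (𝓝 v') := by
    have : Continuous fun w : V => c • w := by fun_prop
    rw [hcv]
    exact this.tendsto v
  have han' : AnalyticAt ℂ (fun w : V => c • w) v := analyticAt_const.fun_smul analyticAt_id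
  refine ⟨fun w => G (c • w), ?_, ?_, ?_⟩
  · have h1 : AnalyticAt ℂ G (c • v) := by rw [← hcv]; exact han
    exact AnalyticAt.fun_comp (g := G) h1 han'
  · show G (c • v) ≠ 0
    rw [← hcv]; exact hG0
  · filter_upwards [hcont.eventually hev, (isOpen_cone hD).mem_nhds hv,
      hcont.eventually (han.continuousAt.eventually_ne hG0)] with w h1 h2 h3
    have hcw : c • w ≠ 0 := smul_ne_zero hc h2.1
    have hD' : Projectivization.mk ℂ (c • w) hcw ∈ D := by
      rw [← pr_of_ne hcw, pr_smul hc]; exact h2.2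
    have h4 := h1 hcw hD' h3
    rw [pr_of_ne h3, ← h4, extend_of_mem γ h2.2]
    congr 2
    apply Subtype.ext
    show Projectivization.mk ℂ (c • w) hcw = pr w
    rw [← pr_of_ne hcw, pr_smul hc]

lemma bihol_extend {D : Set CP3} (hD : IsOpen D) (γ : Equiv.Perm D)
    (h : IsHolo D (fun x => (γ x : CP3))) (h' : IsHolo D (fun x => (γ⁻¹ x : CP3))) :
    Bihol (extend γ) (extend γ⁻¹) D := by
  refine ⟨hD, holoOn_extend hD γ h, holoOn_extend hD γ⁻¹ h', fun x hx => extend_mem γ hx, ?_⟩
  intro x hx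
  rw [← extend_mul γ⁻¹ γ hx, inv_mul_cancel, extend_one hx]

lemma continuous_act {M : V →L[ℂ] V} (hM : Function.Injective M) : Continuous (act M) := by
  rw [continuous_iff_continuousAt]
  intro x
  obtain ⟨v, hv, rfl⟩ := exists_unit x
  have hv0 := unit_ne hv
  intro S hS
  rw [act_pr hv0] at hS
  rw [mem_nhds_pr (inj_ne hM hv0)] at hS
  have h1 : ∀ᶠ w in 𝓝 v, pr (M w) ∈ S := M.continuous.continuousAt.eventually hS
  show act M ⁻¹' S ∈ 𝓝 (pr v)
  rw [mem_nhds_pr hv0]
  filter_upwards [h1, isOpen_ne.mem_nhds hv0] with w hw1 hw2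
  show act M (pr w) ∈ S
  rw [act_pr hw2]; exact hw1

theorem covers_act {D : Set CP3} (hD : IsOpen D) (hc : IsConnected D) (hcov : Covers D)
    (hdim : dimH (Dᶜ) ≤ 2) :
    ∃ (Γ : Type) (_ : Group Γ) (T : Γ → V →L[ℂ] V), Act Γ D T := by
  obtain ⟨Γ, hholo, -, hpd, hcpt⟩ := hcov
  have hb : ∀ γ : Γ, Bihol (extend (γ : Equiv.Perm D)) (extend (γ : Equiv.Perm D)⁻¹) D := by
    intro γ
    exact bihol_extend hD γ (hholo γ γ.2) (hholo _ (Γ.inv_mem γ.2))
  choose T hTinj hT using fun γ : Γ => extension (hb γ) hdim hc.isPreconnected hc.nonempty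
  have hmaps : ∀ γ, ∀ v ∈ cone D, T γ v ∈ cone D := by
    intro γ v hv
    refine ⟨inj_ne (hTinj γ) hv.1, ?_⟩
    rw [← hT γ v hv]
    exact extend_mem _ hv.2
  refine ⟨Γ, inferInstance, T, hD, hdim, hTinj, hmaps, ?_, ?_, ?_, ?_⟩
  · intro γ γ' v hv
    rw [← hT _ v hv, ← hT γ _ (hmaps γ' v hv), ← hT γ' v hv]
    exact extend_mul _ _ hv.2
  · intro v hv
    rw [← hT 1 v hv]
    exact extend_one hv.2
  · intro K hK hKD
    set K' : Set D := Subtype.val ⁻¹' K with hK'
    have himg : Subtype.val '' K' = K := by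
      rw [hK', Subtype.image_preimage_coe, Set.inter_eq_right]
      exact hKD
    have hK'c : IsCompact K' := by
      rw [Subtype.isCompact_iff, himg]; exact hK
    refine (hpd K' hK'c).subset ?_
    rintro γ ⟨v, hv, hTv⟩
    have hvD : pr v ∈ D := hKD hv.2
    refine ⟨(γ : Equiv.Perm D) ⟨pr v, hvD⟩, ⟨⟨pr v, hvD⟩, hv.2, rfl⟩, ?_⟩
    show ((γ : Equiv.Perm D) ⟨pr v, hvD⟩ : CP3) ∈ K
    rw [← extend_of_mem _ hvD, hT γ v ⟨hv.1, hvD⟩]
    exact hTv.2
  · -- fundamental compact set
    have hcs : ContinuousConstSMul Γ D := by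
      constructor
      intro γ
      have hval : ∀ x : D, act (T γ) (x : CP3) = ((γ : Equiv.Perm D) x : CP3) := by
        intro x
        obtain ⟨v, hv, hvx⟩ := exists_unit (x : CP3)
        have hvD : v ∈ cone D := ⟨unit_ne hv, by rw [hvx]; exact x.2⟩
        rw [← extend_of_mem (γ : Equiv.Perm D) x.2, ← hvx, act_pr (unit_ne hv), ← hT γ v hvD]
      rw [continuous_induced_rng]
      exact ((continuous_act (hTinj γ)).comp continuous_subtype_val).congr hval
    have hopenq := isOpenMap_quotient_mk'_mul (Γ := Γ) (T := D)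
    choose K hK hKn hKD using fun x : D => exists_compact_nhd hD x.2
    set O : D → Set D := fun x => Subtype.val ⁻¹' interior (K x) with hO
    have hOo : ∀ x, IsOpen (O x) := fun x => isOpen_interior.preimage continuous_subtype_val
    have hcover : (Set.univ : Set (MulAction.orbitRel.Quotient Γ D)) ⊆
        ⋃ x : D, (Quotient.mk (MulAction.orbitRel Γ D)) '' (O x) := by
      intro q _
      induction q using Quotient.inductionOn with
      | h x =>
        refine Set.mem_iUnion.mpr ⟨x, x, ?_, rfl⟩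
        exact mem_interior_iff_mem_nhds.mpr (hKn x)
    obtain ⟨t, ht⟩ := (isCompact_univ (X := MulAction.orbitRel.Quotient Γ D)).elim_finite_subcover _
      (fun x => hopenq _ (hOo x)) hcover
    refine ⟨⋃ x ∈ t, K x, ⋃ x ∈ t, interior (K x), ?_, ?_, ?_, ?_, ?_⟩
    · exact t.finite_toSet.isCompact_biUnion fun x _ => hK x
    · exact isOpen_biUnion fun x _ => isOpen_interior
    · exact Set.iUnion₂_mono fun x _ => interior_subset
    · exact Set.iUnion₂_subset fun x _ => hKD x
    · intro v hv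
      have h1 := ht (Set.mem_univ (Quotient.mk (MulAction.orbitRel Γ D) ⟨pr v, hv.2⟩))
      simp only [Set.mem_iUnion] at h1
      obtain ⟨x, hxt, y, hy, hyq⟩ := h1
      have h2 : (MulAction.orbitRel Γ D).r ⟨pr v, hv.2⟩ y := Quotient.exact hyq.symm
      obtain ⟨γ, hγ⟩ := h2
      obtain ⟨w, hw, hwy⟩ := exists_unit (y : CP3)
      have hwD : w ∈ cone D := ⟨unit_ne hw, by rw [hwy]; exact y.2⟩
      refine ⟨γ, w, ⟨unit_ne hw, ?_⟩, ?_⟩
      · rw [hwy]
        exact Set.mem_biUnion hxt hy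
      · rw [← hT γ w hwD, hwy, extend_of_mem _ y.2]
        have h3 := congrArg (fun z : D => (z : CP3)) hγ
        exact h3.symm

/-- Main theorem. -/
theorem main {D : Set CP3} (hD : IsOpen D) (hc : IsConnected D) (hcov : Covers D)
    (h2 : μH[2] (Dᶜ) < ⊤) : ∀ x ∈ Dᶜ, IsLine (connectedComponentIn (Dᶜ) x) := by
  have hdim : dimH (Dᶜ) ≤ 2 := by
    have := dimH_le_of_hausdorffMeasure_ne_top (d := 2) (s := Dᶜ) (by
      have : (((2 : NNReal) : ℝ)) = 2 := rfl
      rw [this]; exact h2.ne)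
    exact_mod_cast this
  obtain ⟨Γ, _, T, h⟩ := covers_act hD hc hcov hdim
  intro x hx
  obtain ⟨L, hL, hcomp⟩ := h.component (finite_lines h2) hx
  exact ⟨L, hL.1, hcomp⟩

end Pool.Agent.Helper1_CP3
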