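import Pool.Agent.Helper1_CP3.Ext

set_option autoImplicit false
set_option linter.unusedSimpArgs false
set_option linter.unusedVariables false

open scoped LinearAlgebra.Projectivization Topology InnerProductSpace
open MeasureTheory Filter

namespace Pool.Agent.Helper1_CP3

/-- projective action of a linear map -/
noncomputable def act (M : V →L[ℂ] V) (x : CP3) : CP3 := pr (M x.rep)

lemma inj_ne {M : V →L[ℂ] V} (hM : Function.Injective M) {v : V} (hv : v ≠ 0) : M v ≠ 0 := by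
  intro h
  exact hv (hM (by rw [h, map_zero]))

lemma act_pr {M : V →L[ℂ] V} {v : V} (hv : v ≠ 0) : act M (pr v) = pr (M v) := by
  obtain ⟨c, hc, h⟩ := rep_pr hv
  unfold act
  rw [h, map_smul, pr_smul hc]

/-- two injective linear maps which agree projectively on an open set are proportional -/
lemma proportional {M M' : V →L[ℂ] V} (hM : Function.Injective M) (hM' : Function.Injective M')
    {v₀ : V} (hv₀ : v₀ ≠ 0) (h : ∀ᶠ w in 𝓝 v₀, pr (M w) = pr (M' w)) :
    ∃ c : ℂ, c ≠ 0 ∧ M' = c • M := by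
  obtain ⟨ρ, hρ, hball⟩ := Metric.eventually_nhds_iff_ball.mp (h.and (isOpen_ne.mem_nhds hv₀))
  have hc : ∀ w ∈ Metric.ball v₀ ρ, ∃ c : ℂ, c ≠ 0 ∧ M' w = c • M w := by
    intro w hw
    obtain ⟨h1, h2⟩ := hball w hw
    exact (pr_eq_iff (inj_ne hM' h2) (inj_ne hM h2)).mp h1.symm
  obtain ⟨c₀, hc₀, h₀⟩ := hc v₀ (Metric.mem_ball_self hρ)
  have hconst : ∀ w ∈ Metric.ball v₀ ρ, M' w = c₀ • M w := by
    intro w hw
    obtain ⟨c₁, hc₁, h₁⟩ := hc w hw
    by_cases hdep : ∃ a : ℂ, w = a • v₀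
    · obtain ⟨a, rfl⟩ := hdep
      rw [map_smul, map_smul, h₀, smul_comm]
    · have hmid : (1/2 : ℂ) • (v₀ + w) ∈ Metric.ball v₀ ρ := by
        rw [Metric.mem_ball, dist_eq_norm] at hw ⊢
        have e : (1/2 : ℂ) • (v₀ + w) - v₀ = (1/2 : ℂ) • (w - v₀) := by
          module
        rw [e, norm_smul]
        have : ‖(1/2 : ℂ)‖ = 1/2 := by norm_num
        rw [this]
        have := norm_nonneg (w - v₀)
        linarith
      obtain ⟨c₂, hc₂, h₂⟩ := hc _ hmid
      have h3 : M ((c₀ - c₂) • v₀ + (c₁ - c₂) • w) = 0 := by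
        simp only [map_smul, map_add, h₀, h₁] at h₂ ⊢
        have e : (c₀ - c₂) • M v₀ + (c₁ - c₂) • M w
            = (2:ℂ) • ((1/2 : ℂ) • (c₀ • M v₀ + c₁ • M w) - c₂ • (1/2 : ℂ) • (M v₀ + M w)) := by
          module
        rw [e, h₂, sub_self, smul_zero]
      have h4 : (c₀ - c₂) • v₀ + (c₁ - c₂) • w = 0 := hM (by rw [h3, map_zero])
      by_cases h5 : c₁ - c₂ = 0
      · rw [h5, zero_smul, add_zero] at h4
        rcases smul_eq_zero.mp h4 with h6 | h6
        · rw [h₁, sub_eq_zero.mp h5, ← sub_eq_zero.mp h6]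
        · exact absurd h6 hv₀
      · exfalso
        apply hdep
        refine ⟨-((c₁ - c₂)⁻¹ * (c₀ - c₂)), ?_⟩
        have h6 : (c₁ - c₂) • w = -((c₀ - c₂) • v₀) := by
          rw [eq_neg_iff_add_eq_zero, add_comm]; exact h4
        calc w = (c₁ - c₂)⁻¹ • ((c₁ - c₂) • w) := by rw [smul_smul, inv_mul_cancel₀ h5, one_smul]
          _ = _ := by rw [h6]; module
  refine ⟨c₀, hc₀, ?_⟩
  ext1 u
  have hcont : Tendsto (fun t : ℂ => v₀ + t • u) (𝓝 0) (𝓝 v₀) := by
    have : Continuous fun t : ℂ => v₀ + t • u := by fun_prop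
    simpa using (this.tendsto (0:ℂ))
  have h1 : ∀ᶠ t in 𝓝[≠] (0:ℂ), v₀ + t • u ∈ Metric.ball v₀ ρ ∧ t ≠ 0 := by
    filter_upwards [(hcont.eventually (Metric.ball_mem_nhds v₀ hρ)).filter_mono nhdsWithin_le_nhds,
      self_mem_nhdsWithin] with t ht ht'
    exact ⟨ht, ht'⟩
  obtain ⟨t, ht, ht0⟩ := h1.exists
  have h2 := hconst _ ht
  rw [map_add, map_add, map_smul, map_smul, h₀, smul_add, add_right_inj, smul_comm] at h2
  exact smul_right_injective V ht0 h2

/-- Extension theorem: a biholomorphism of `D` is given by a linear map. -/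
theorem extension {g g' : CP3 → CP3} {D : Set CP3} (hb : Bihol g g' D)
    (hdim : dimH (Dᶜ) ≤ 2) (hc : IsPreconnected D) (hne : D.Nonempty) :
    ∃ M : V →L[ℂ] V, Function.Injective M ∧ ∀ v ∈ cone D, g (pr v) = pr (M v) := by
  set U : (V →L[ℂ] V) → Set CP3 := fun M => {x | ∀ᶠ y in 𝓝 x, g y = act M y} with hU
  have hUo : ∀ M, IsOpen (U M) := by
    intro M
    rw [isOpen_iff_mem_nhds]
    intro x hx
    exact (eventually_eventually_nhds.mpr hx)
  have hloc : ∀ x ∈ D, ∃ M : V →L[ℂ] V, Function.Injective M ∧ x ∈ U M := by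
    intro x hx
    have hxr := pr_rep x
    have hv : x.rep ∈ cone D := ⟨x.rep_nonzero, by rw [hxr]; exact hx⟩
    obtain ⟨M, hM, hev⟩ := local_linear hb hdim hv
    refine ⟨M, hM, ?_⟩
    have h1 : {y | g y = act M y} ∈ 𝓝 (pr x.rep) := by
      rw [mem_nhds_pr x.rep_nonzero]
      filter_upwards [hev, isOpen_ne.mem_nhds x.rep_nonzero] with w hw1 hw2
      rw [act_pr hw2, hw1]
    rw [hxr] at h1
    exact h1
  obtain ⟨x₀, hx₀⟩ := hne
  obtain ⟨M₀, hM₀, hx₀U⟩ := hloc x₀ hx₀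
  set B : Set CP3 := ⋃ M : {M : V →L[ℂ] V // Function.Injective M ∧ act M ≠ act M₀}, U M.1 with hB
  have hBo : IsOpen B := isOpen_iUnion fun M => hUo _
  have hcov : D ⊆ U M₀ ∪ B := by
    intro x hx
    obtain ⟨M, hM, hxU⟩ := hloc x hx
    by_cases h : act M = act M₀
    · left
      simp only [hU, Set.mem_ofPred_eq] at hxU ⊢
      rw [← h]; exact hxU
    · right
      exact Set.mem_iUnion.mpr ⟨⟨M, hM, h⟩, hxU⟩
  have hdisj : ¬ (D ∩ (U M₀ ∩ B)).Nonempty := by
    rintro ⟨x, -, hx1, hx2⟩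
    obtain ⟨⟨M, hM, hne⟩, hx3⟩ := Set.mem_iUnion.mp hx2
    apply hne
    have h1 : ∀ᶠ y in 𝓝 x, act M y = act M₀ y := by
      filter_upwards [hx1, hx3] with y h1 h2
      rw [← h1, ← h2]
    have h2 : ∀ᶠ w in 𝓝 x.rep, pr (M w) = pr (M₀ w) := by
      have h3 : ∀ᶠ y in 𝓝 (pr x.rep), act M y = act M₀ y := by rw [pr_rep]; exact h1
      filter_upwards [(continuousAt_pr x.rep_nonzero).eventually h3,
        isOpen_ne.mem_nhds x.rep_nonzero] with w hw1 hw2
      rwa [act_pr hw2, act_pr hw2] at hw1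
    obtain ⟨c, hc, hcM⟩ := proportional hM hM₀ x.rep_nonzero h2
    funext y
    unfold act
    rw [hcM, smul_apply, pr_smul hc]
  have hsub : D ⊆ U M₀ := by
    intro x hx
    rcases hcov hx with h | h
    · exact h
    · exact absurd (hc _ _ (hUo _) hBo hcov ⟨x₀, hx₀, hx₀U⟩ ⟨x, hx, h⟩) hdisj
  refine ⟨M₀, hM₀, ?_⟩
  intro v hv
  have h1 := (hsub hv.2).self_of_nhds
  rw [h1, act_pr hv.1]

end Pool.Agent.Helper1_CP3
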