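import Pool.Agent.Helper1_CP3.Dim

set_option autoImplicit false
set_option linter.unusedSimpArgs false
set_option linter.unusedVariables false

open scoped LinearAlgebra.Projectivization Topology InnerProductSpace
open MeasureTheory Filter

namespace Pool.Agent.Helper1_CP3

/-- A homogeneous local lift of `g`. -/
structure GoodLift (g : CP3 → CP3) (v : V) (H : V → V) : Prop where
  an : AnalyticAt ℂ H v
  ne : H v ≠ 0
  hom : ∀ (c : ℂ) (w : V), c ≠ 0 → H (c • w) = c • H w
  eq : ∀ᶠ w in 𝓝 v, pr (H w) = g (pr w)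

/-- `g` is holomorphic on `D`, in terms of lifts. -/
def HoloOn (g : CP3 → CP3) (D : Set CP3) : Prop :=
  ∀ v ∈ cone D, ∃ G : V → V, AnalyticAt ℂ G v ∧ G v ≠ 0 ∧ ∀ᶠ w in 𝓝 v, pr (G w) = g (pr w)

lemma exists_good {g : CP3 → CP3} {D : Set CP3} (hg : HoloOn g D) {v : V} (hv : v ∈ cone D) :
    ∃ H, GoodLift g v H := by
  obtain ⟨G, hG, hG0, hGe⟩ := hg v hv
  have hn : (((‖v‖ ^ 2 : ℝ) : ℂ)) ≠ 0 := by simpa using hv.1
  set ψ : V →L[ℂ] ℂ := (((‖v‖ ^ 2 : ℝ) : ℂ)⁻¹) • innerSL ℂ v with hψ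
  have hψv : ψ v = 1 := by
    have := self_div hv.1
    rw [div_eq_inv_mul] at this
    simpa [hψ] using this
  have hcomp : AnalyticAt ℂ (fun w => (ψ w)⁻¹ • w) v := by
    apply AnalyticAt.fun_smul
    · apply AnalyticAt.fun_inv
      · exact ψ.analyticAt v
      · rw [hψv]; exact one_ne_zero
    · exact analyticAt_id
  have hval : (fun w => (ψ w)⁻¹ • w) v = v := by simp [hψv]
  refine ⟨fun w => ψ w • G ((ψ w)⁻¹ • w), ?_, ?_, ?_, ?_⟩
  · apply AnalyticAt.fun_smul
    · exact ψ.analyticAt v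
    · refine AnalyticAt.fun_comp ?_ hcomp
      simp only [hψv, inv_one, one_smul]
      exact hG
  · simp only [hψv, inv_one, one_smul]
    exact hG0
  · intro c w hc
    by_cases hw : ψ w = 0
    · simp [hw]
    · simp only [map_smul, smul_eq_mul]
      rw [smul_smul, mul_inv, mul_comm c⁻¹, mul_assoc, inv_mul_cancel₀ hc, mul_one, mul_smul]
  · have h1 : Tendsto (fun w => (ψ w)⁻¹ • w) (𝓝 v) (𝓝 v) := by
      have := hcomp.continuousAt.tendsto
      simp only [hψv, inv_one, one_smul] at this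
      exact this
    have h2 : ∀ᶠ w in 𝓝 v, ψ w ≠ 0 := by
      apply ψ.continuous.continuousAt.eventually_ne
      rw [hψv]; exact one_ne_zero
    filter_upwards [h1.eventually hGe, h2] with w hw1 hw2
    rw [pr_smul hw2, hw1, pr_smul (inv_ne_zero hw2)]

/-- Euler's relation -/
lemma euler {H : V → V} {v : V} (hd : DifferentiableAt ℂ H v)
    (hom : ∀ (c : ℂ) (w : V), c ≠ 0 → H (c • w) = c • H w) : fderiv ℂ H v v = H v := by
  have h1 : HasDerivAt (fun c : ℂ => c • v) v 1 := by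
    have := (hasDerivAt_id (1:ℂ)).smul_const v
    simpa using this
  have hd' : HasFDerivAt H (fderiv ℂ H v) ((1:ℂ) • v) := by
    rw [one_smul]; exact hd.hasFDerivAt
  have h2 : HasDerivAt (fun c : ℂ => H (c • v)) (fderiv ℂ H v v) 1 :=
    hd'.comp_hasDerivAt (1:ℂ) h1
  have h3 : HasDerivAt (fun c : ℂ => c • H v) (H v) 1 := by
    have := (hasDerivAt_id (1:ℂ)).smul_const (H v)
    simpa using this
  have h4 : (fun c : ℂ => H (c • v)) =ᶠ[𝓝 1] fun c => c • H v := by
    filter_upwards [isOpen_ne.mem_nhds (one_ne_zero : (1:ℂ) ≠ 0)] with c hc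
    exact hom c v hc
  exact h2.unique (h3.congr_of_eventuallyEq h4)

/-- scalar version of Euler in degree 0 -/
lemma euler0 {c : V → ℂ} {v : V} (hd : DifferentiableAt ℂ c v)
    (hom : ∀ (a : ℂ) (w : V), a ≠ 0 → c (a • w) = c w) : fderiv ℂ c v v = 0 := by
  have h1 : HasDerivAt (fun a : ℂ => a • v) v 1 := by
    have := (hasDerivAt_id (1:ℂ)).smul_const v
    simpa using this
  have hd' : HasFDerivAt c (fderiv ℂ c v) ((1:ℂ) • v) := by
    rw [one_smul]; exact hd.hasFDerivAt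
  have h2 : HasDerivAt (fun a : ℂ => c (a • v)) (fderiv ℂ c v v) 1 :=
    hd'.comp_hasDerivAt (1:ℂ) h1
  have h4 : (fun a : ℂ => c (a • v)) =ᶠ[𝓝 1] fun a => c v := by
    filter_upwards [isOpen_ne.mem_nhds (one_ne_zero : (1:ℂ) ≠ 0)] with a ha
    exact hom a v ha
  exact h2.unique ((hasDerivAt_const (1:ℂ) (c v)).congr_of_eventuallyEq h4)

/-- Jacobian determinant -/
noncomputable def J (H : V → V) (v : V) : ℂ := (fderiv ℂ H v).det

lemma fderiv_hom {H : V → V} {v : V} (hd : DifferentiableAt ℂ H v)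
    (hom : ∀ (c : ℂ) (w : V), c ≠ 0 → H (c • w) = c • H w) {c : ℂ} (hc : c ≠ 0) :
    HasFDerivAt H (fderiv ℂ H v) (c • v) := by
  have e : H = fun w => c • H (c⁻¹ • w) := by
    funext w
    rw [← hom c _ hc, smul_smul, mul_inv_cancel₀ hc, one_smul]
  have h1 : HasFDerivAt (fun w : V => c⁻¹ • w) (c⁻¹ • ContinuousLinearMap.id ℂ V) (c • v) :=
    (hasFDerivAt_id _).const_smul c⁻¹
  have h2 : HasFDerivAt H (fderiv ℂ H v) (c⁻¹ • (c • v)) := by
    rw [smul_smul, inv_mul_cancel₀ hc, one_smul]; exact hd.hasFDerivAt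
  have h3 := (h2.comp (c • v) h1).const_smul c
  have h4 : HasFDerivAt H (c • (fderiv ℂ H v).comp (c⁻¹ • ContinuousLinearMap.id ℂ V)) (c • v) :=
    h3.congr_of_eventuallyEq (Eventually.of_forall fun w => congrFun e w)
  refine HasFDerivAt.congr_fderiv h4 ?_
  ext w
  simp [smul_smul, hc]

lemma J_hom {H : V → V} {v : V} (hd : DifferentiableAt ℂ H v)
    (hom : ∀ (c : ℂ) (w : V), c ≠ 0 → H (c • w) = c • H w) {c : ℂ} (hc : c ≠ 0) :
    J H (c • v) = J H v := by
  unfold J
  rw [(fderiv_hom hd hom hc).fderiv]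

/-- the determinant is analytic -/
lemma analyticAt_det (T : V →L[ℂ] V) : AnalyticAt ℂ (fun T : V →L[ℂ] V => T.det) T := by
  set b := (EuclideanSpace.basisFun (Fin 4) ℂ).toBasis with hb
  have e : (fun T : V →L[ℂ] V => T.det) = fun T : V →L[ℂ] V =>
      ∑ σ : Equiv.Perm (Fin 4), ((Equiv.Perm.sign σ : ℤ) : ℂ) *
        ∏ i, (T (b i)) (σ i) := by
    funext T
    rw [ContinuousLinearMap.det, ← LinearMap.det_toMatrix b, Matrix.det_apply']
    apply Finset.sum_congr rfl
    intro σ _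
    congr 1
    apply Finset.prod_congr rfl
    intro i _
    simp [LinearMap.toMatrix_apply, hb]
  rw [e]
  apply Finset.analyticAt_fun_sum
  intro σ _
  apply AnalyticAt.fun_mul analyticAt_const
  apply Finset.analyticAt_fun_prod
  intro i _
  have : (fun T : V →L[ℂ] V => (T (b i)) (σ i))
      = ((EuclideanSpace.proj (σ i) : V →L[ℂ] ℂ).comp (ContinuousLinearMap.apply ℂ V (b i)) :
        (V →L[ℂ] V) →L[ℂ] ℂ) := rfl
  rw [this]
  exact ContinuousLinearMap.analyticAt _ _

lemma analyticAt_J {H : V → V} {v : V} (h : AnalyticAt ℂ H v) : AnalyticAt ℂ (J H) v :=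
  (analyticAt_det _).fun_comp h.fderiv

/-- determinant identity -/
lemma det_aux (c : ℂ) (hc : c ≠ 0) (φ : V →L[ℂ] ℂ) (v : V) (h : φ v = 0) :
    (c • ContinuousLinearMap.id ℂ V + φ.smulRight v).det = c ^ 4 := by
  have e : ((c • ContinuousLinearMap.id ℂ V + φ.smulRight v : V →L[ℂ] V) : V →ₗ[ℂ] V)
      = c • LinearMap.transvection ((c⁻¹ • φ : V →L[ℂ] ℂ) : V →ₗ[ℂ] ℂ) v := by
    ext w
    simp [LinearMap.transvection.apply, smul_smul, hc]
  rw [ContinuousLinearMap.det, e, LinearMap.det_smul, LinearMap.transvection.det]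
  simp [h, finrank_euclideanSpace_fin]

/-- Comparison of two good lifts. -/
lemma compare {g : CP3 → CP3} {v : V} {H H' : V → V} (h : GoodLift g v H) (h' : GoodLift g v H') :
    ∃ c : ℂ, c ≠ 0 ∧ H' v = c • H v ∧ J H' v = c ^ 4 * J H v := by
  obtain ⟨j, hj⟩ : ∃ j, H v j ≠ 0 := by
    by_contra hcon
    push Not at hcon
    exact h.ne (by ext j; exact hcon j)
  set c : V → ℂ := fun w => H' w j / H w j with hc
  have hjan : AnalyticAt ℂ (fun w => H w j) v :=
    ((EuclideanSpace.proj j : V →L[ℂ] ℂ).analyticAt _).fun_comp h.an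
  have hjan' : AnalyticAt ℂ (fun w => H' w j) v :=
    ((EuclideanSpace.proj j : V →L[ℂ] ℂ).analyticAt _).fun_comp h'.an
  have hcan : AnalyticAt ℂ c v := hjan'.fun_div hjan hj
  have hev : ∀ᶠ w in 𝓝 v, H' w = c w • H w ∧ c w ≠ 0 := by
    filter_upwards [h.eq, h'.eq, h.an.continuousAt.eventually_ne h.ne,
      h'.an.continuousAt.eventually_ne h'.ne, hjan.continuousAt.eventually_ne hj] with w h1 h2 h3 h4 h5
    obtain ⟨a, ha, hEq⟩ := (pr_eq_iff h4 h3).mp (h2.trans h1.symm)
    have : c w = a := by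
      simp only [hc, hEq]
      simp [h5]
    rw [this]
    exact ⟨hEq, ha⟩
  have hhom : ∀ (a : ℂ) (w : V), a ≠ 0 → c (a • w) = c w := by
    intro a w ha
    simp only [hc, h.hom a w ha, h'.hom a w ha]
    simp only [PiLp.smul_apply, smul_eq_mul]
    rw [mul_div_mul_left _ _ ha]
  have hv := hev.self_of_nhds
  refine ⟨c v, hv.2, hv.1, ?_⟩
  have hfd : HasFDerivAt H' (c v • fderiv ℂ H v + (fderiv ℂ c v).smulRight (H v)) v := by
    have h1 := hcan.differentiableAt.hasFDerivAt.smul h.an.differentiableAt.hasFDerivAt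
    refine HasFDerivAt.congr_of_eventuallyEq h1 ?_
    filter_upwards [hev] with w hw
    exact hw.1
  have e : (c v • fderiv ℂ H v + (fderiv ℂ c v).smulRight (H v))
      = (fderiv ℂ H v).comp (c v • ContinuousLinearMap.id ℂ V + (fderiv ℂ c v).smulRight v) := by
    ext1 w
    simp only [add_apply, smul_apply,
      ContinuousLinearMap.smulRight_apply, ContinuousLinearMap.comp_apply, ContinuousLinearMap.id_apply,
      map_add, map_smul, euler h.an.differentiableAt h.hom]
  unfold J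
  rw [hfd.fderiv, e]
  have h0 := euler0 hcan.differentiableAt hhom
  have := det_aux (c v) hv.2 (fderiv ℂ c v) v h0
  rw [ContinuousLinearMap.det] at this ⊢
  rw [ContinuousLinearMap.toLinearMap_comp, LinearMap.det_comp, this, mul_comm]

end Pool.Agent.Helper1_CP3
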