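import Pool.Agent.Helper1_CP3.Bdry

set_option autoImplicit false
set_option linter.unusedSimpArgs false
set_option linter.unusedVariables false

open scoped LinearAlgebra.Projectivization Topology InnerProductSpace ENNReal
open MeasureTheory Filter

namespace Pool.Agent.Helper1_CP3

lemma isClosed_PW (W : Submodule ℂ V) : IsClosed (PW W) := by
  have e : PW W = ⋂ u : V, {x : CP3 | proj x u ∈ W} := by
    ext x
    simp only [Set.mem_iInter, Set.mem_ofPred_eq]
    constructor
    · intro hx u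
      exact hx (Submodule.starProjection_apply_mem _ _)
    · intro h
      have h1 := h x.rep
      rw [proj_rep] at h1
      show x.submodule ≤ W
      rw [Projectivization.submodule_eq, Submodule.span_singleton_le_iff_mem]
      exact h1
  rw [e]
  apply isClosed_iInter
  intro u
  have hc : Continuous fun x : CP3 => proj x u :=
    (ContinuousLinearMap.apply ℂ V u).continuous.comp continuous_proj
  exact (Submodule.closed_of_finiteDimensional W).preimage hc

lemma PW_subsingleton {W W' : Submodule ℂ V} (hW : Module.finrank ℂ W = 2)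
    (hW' : Module.finrank ℂ W' = 2) (hne : W ≠ W') : (PW W ∩ PW W').Subsingleton := by
  rintro x ⟨hx, hx'⟩ y ⟨hy, hy'⟩
  by_contra hxy
  obtain ⟨u, hu, rfl⟩ := exists_unit x
  obtain ⟨v, hv, rfl⟩ := exists_unit y
  have hu0 := unit_ne hu
  have hv0 := unit_ne hv
  rw [mem_PW hu0] at hx hx'
  rw [mem_PW hv0] at hy hy'
  have hli : LinearIndependent ℂ ![u, v] := by
    rw [LinearIndependent.pair_iff' hu0]
    intro a ha
    apply hxy
    have ha0 : a ≠ 0 := by
      rintro rfl
      rw [zero_smul] at ha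
      exact hv0 ha.symm
    rw [← ha, pr_smul ha0]
  have h2 := finrank_span_eq_card hli
  rw [Matrix.range_cons_cons_empty, Fintype.card_fin] at h2
  have e1 : Submodule.span ℂ {u, v} = W := by
    apply Submodule.eq_of_le_of_finrank_eq
    · rw [Submodule.span_le]
      rintro w (rfl | rfl)
      · exact hx
      · exact hy
    · rw [h2, hW]
  have e2 : Submodule.span ℂ {u, v} = W' := by
    apply Submodule.eq_of_le_of_finrank_eq
    · rw [Submodule.span_le]
      rintro w (rfl | rfl)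
      · exact hx'
      · exact hy'
    · rw [h2, hW']
  exact hne (e1.symm.trans e2)

/-- area of the unit disc -/
noncomputable def m0 : ℝ≥0∞ := μH[2] (Metric.ball (0:ℂ) 1)

lemma m0_pos : 0 < m0 := by
  have h : (Module.finrank ℝ ℂ : ℝ) = 2 := by rw [Complex.finrank_real_complex]; norm_num
  unfold m0
  rw [← h]
  exact Metric.isOpen_ball.measure_pos _ ⟨0, Metric.mem_ball_self one_pos⟩

/-- lower bound for the area of a line -/
lemma area_line {W : Submodule ℂ V} (hW : Module.finrank ℂ W = 2) : m0 ≤ 16 * μH[2] (PW W) := by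
  let B := (stdOrthonormalBasis ℂ W).reindex (finCongr hW)
  set u0 : V := ((B 0 : W) : V) with hu0
  set u1 : V := ((B 1 : W) : V) with hu1
  have hB := orthonormal_iff_ite.mp B.orthonormal
  have h00 : ⟪u0, u0⟫_ℂ = 1 := by have := hB 0 0; rw [if_pos rfl] at this; exact this
  have h11 : ⟪u1, u1⟫_ℂ = 1 := by have := hB 1 1; rw [if_pos rfl] at this; exact this
  have h01 : ⟪u0, u1⟫_ℂ = 0 := by have := hB 0 1; rw [if_neg (by decide)] at this; exact this
  have h10 : ⟪u1, u0⟫_ℂ = 0 := by have := hB 1 0; rw [if_neg (by decide)] at this; exact this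
  have n0 : ‖u0‖ = 1 := by
    have := B.orthonormal.1 0
    exact this
  have n1 : ‖u1‖ = 1 := by
    have := B.orthonormal.1 1
    exact this
  set f : CP3 → ℂ := fun x => ⟪u1, x.rep⟫_ℂ / ⟪u0, x.rep⟫_ℂ with hf
  set g : ℂ → CP3 := fun z => pr (u0 + z • u1) with hg
  have hne : ∀ z : ℂ, u0 + z • u1 ≠ 0 := by
    intro z hz
    have := congrArg (fun v => ⟪u0, v⟫_ℂ) hz
    simp only [inner_add_right, inner_smul_right, h00, h01, inner_zero_right, mul_zero,
      add_zero] at this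
    exact one_ne_zero this
  have hfg : ∀ z, f (g z) = z := by
    intro z
    obtain ⟨c, hc, h⟩ := rep_pr (hne z)
    simp only [hf, hg, h, inner_smul_right, inner_add_right, h00, h01, h10, h11]
    field_simp
    simp
  have hgW : ∀ z, g z ∈ PW W := by
    intro z
    rw [hg, mem_PW (hne z)]
    exact W.add_mem (B 0).2 (W.smul_mem _ (B 1).2)
  have hnorm : ∀ z : ℂ, ‖u0 + z • u1‖ ^ 2 = 1 + ‖z‖ ^ 2 := by
    intro z
    have h1 : ⟪u0 + z • u1, u0 + z • u1⟫_ℂ = 1 + (starRingEnd ℂ z) * z := by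
      simp only [inner_add_left, inner_add_right, inner_smul_left, inner_smul_right, h00, h01,
        h10, h11]
      ring
    rw [inner_self_eq_norm_sq_to_K, Complex.conj_mul'] at h1
    have h2 : (((‖u0 + z • u1‖ ^ 2 : ℝ)) : ℂ) = ((1 + ‖z‖ ^ 2 : ℝ) : ℂ) := by
      push_cast
      exact h1
    exact_mod_cast h2
  -- `a z = 1 / (1 + |z|²)`, `b z = z / (1 + |z|²)`
  have hproj : ∀ z : ℂ, proj (g z) u0 = ((1 + ‖z‖ ^ 2 : ℝ) : ℂ)⁻¹ • (u0 + z • u1) := by
    intro z
    rw [hg]
    simp only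
    rw [proj_pr (hne z), hnorm z]
    congr 1
    rw [inner_add_left, inner_smul_left, h00, h10, mul_zero, add_zero, one_div]
  have ha : ∀ z : ℂ, ⟪u0, proj (g z) u0⟫_ℂ = ((1 + ‖z‖ ^ 2 : ℝ) : ℂ)⁻¹ := by
    intro z
    rw [hproj, inner_smul_right, inner_add_right, inner_smul_right, h00, h01]
    simp
  have hb : ∀ z : ℂ, ⟪u1, proj (g z) u0⟫_ℂ = ((1 + ‖z‖ ^ 2 : ℝ) : ℂ)⁻¹ * z := by
    intro z
    rw [hproj, inner_smul_right, inner_add_right, inner_smul_right, h10, h11]
    simp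
  have hdiff : ∀ (u : V) (hu : ‖u‖ = 1) (x y : CP3),
      ‖⟪u, proj x u0⟫_ℂ - ⟪u, proj y u0⟫_ℂ‖ ≤ dist x y := by
    intro u hu x y
    rw [← inner_sub_right]
    calc ‖⟪u, proj x u0 - proj y u0⟫_ℂ‖ ≤ ‖u‖ * ‖proj x u0 - proj y u0‖ := norm_inner_le_norm _ _
      _ = ‖(proj x - proj y) u0‖ := by rw [hu, one_mul]; rfl
      _ ≤ ‖proj x - proj y‖ * ‖u0‖ := ContinuousLinearMap.le_opNorm _ _
      _ = dist x y := by rw [n0, mul_one, ← dist_eq_norm]; rfl
  have hlip : LipschitzOnWith 4 f (g '' Metric.ball 0 1) := by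
    apply LipschitzOnWith.of_dist_le_mul
    rintro _ ⟨z, hz, rfl⟩ _ ⟨w, hw, rfl⟩
    rw [hfg, hfg, dist_eq_norm]
    rw [mem_ball_zero_iff] at hz hw
    have d0 := hdiff u0 n0 (g z) (g w)
    have d1 := hdiff u1 n1 (g z) (g w)
    rw [ha, ha] at d0
    rw [hb, hb] at d1
    set A : ℂ := ((1 + ‖z‖ ^ 2 : ℝ) : ℂ) with hA
    set A' : ℂ := ((1 + ‖w‖ ^ 2 : ℝ) : ℂ) with hA'
    have hApos : (0:ℝ) < 1 + ‖z‖ ^ 2 := by positivity
    have hApos' : (0:ℝ) < 1 + ‖w‖ ^ 2 := by positivity
    have hA0 : A ≠ 0 := by rw [hA]; exact_mod_cast hApos.ne'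
    have hA0' : A' ≠ 0 := by rw [hA']; exact_mod_cast hApos'.ne'
    have hAn : ‖A‖ ≤ 2 := by
      rw [hA, Complex.norm_real, Real.norm_of_nonneg hApos.le]
      have : ‖z‖ ^ 2 ≤ 1 := by
        have := norm_nonneg z
        nlinarith
      linarith
    have e : z - w = A * ((A⁻¹ * z - A'⁻¹ * w) + w * (A'⁻¹ - A⁻¹)) := by
      field_simp
      ring
    rw [e, norm_mul]
    have h3 : ‖(A⁻¹ * z - A'⁻¹ * w) + w * (A'⁻¹ - A⁻¹)‖ ≤ dist (g z) (g w) + 1 * dist (g z) (g w) := by
      refine (norm_add_le _ _).trans (add_le_add d1 ?_)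
      rw [norm_mul]
      apply mul_le_mul hw.le _ (norm_nonneg _) zero_le_one
      rw [norm_sub_rev]; exact d0
    have hdn : 0 ≤ dist (g z) (g w) := dist_nonneg
    calc ‖A‖ * ‖(A⁻¹ * z - A'⁻¹ * w) + w * (A'⁻¹ - A⁻¹)‖
        ≤ 2 * (dist (g z) (g w) + 1 * dist (g z) (g w)) :=
          mul_le_mul hAn h3 (norm_nonneg _) (by norm_num)
      _ = ((4 : NNReal) : ℝ) * dist (g z) (g w) := by push_cast; ring
  have h1 := hlip.hausdorffMeasure_image_le (d := 2) (by norm_num)
  have h2 : f '' (g '' Metric.ball 0 1) = Metric.ball 0 1 := by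
    rw [Set.image_image]
    simp only [hfg, Set.image_id']
  rw [h2] at h1
  have h3 : μH[2] (g '' Metric.ball 0 1) ≤ μH[2] (PW W) := by
    apply measure_mono
    rintro _ ⟨z, -, rfl⟩
    exact hgW z
  calc m0 ≤ _ := h1
    _ ≤ ((4 : NNReal) : ℝ≥0∞) ^ (2:ℝ) * μH[2] (PW W) := by gcongr
    _ = 16 * μH[2] (PW W) := by
        congr 1
        rw [ENNReal.rpow_ofNat]
        norm_num

/-- only finitely many lines in a set of finite area -/
lemma finite_lines {D : Set CP3} (h : μH[2] (Dᶜ) < ⊤) : (lines D).Finite := by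
  by_contra hinf
  have hc : m0 / 16 ≠ 0 := by
    rw [ENNReal.div_ne_zero]
    exact ⟨m0_pos.ne', by norm_num⟩
  obtain ⟨n, hn⟩ := ENNReal.exists_nat_mul_gt hc h.ne
  obtain ⟨F, hF, hFn⟩ := Set.Infinite.exists_subset_card_eq hinf n
  have h1 : μH[2] (⋃ W ∈ F, PW W) = ∑ W ∈ F, μH[2] (PW W) := by
    apply measure_biUnion_finset₀
    · intro W hW W' hW' hne
      have hs := PW_subsingleton (hF hW).1 (hF hW').1 hne
      have : NullSingletonClass (μH[2] : Measure CP3) :=
        Measure.nullSingletonClass_hausdorff _ (by norm_num)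
      exact hs.measure_zero _
    · intro W _
      exact (isClosed_PW W).measurableSet.nullMeasurableSet
  have h2 : (⋃ W ∈ F, PW W) ⊆ Dᶜ := by
    intro x hx
    simp only [Set.mem_iUnion] at hx
    obtain ⟨W, hW, hxW⟩ := hx
    obtain ⟨v, hv, rfl⟩ := exists_unit x
    rw [mem_PW (unit_ne hv)] at hxW
    intro hD
    exact (hF hW).2 v hxW ⟨unit_ne hv, hD⟩
  have h3 : (n : ℝ≥0∞) * (m0 / 16) ≤ μH[2] (Dᶜ) := by
    calc (n : ℝ≥0∞) * (m0 / 16) = ∑ W ∈ F, m0 / 16 := by
          rw [Finset.sum_const, hFn, nsmul_eq_mul]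
      _ ≤ ∑ W ∈ F, μH[2] (PW W) := by
          apply Finset.sum_le_sum
          intro W hW
          have := area_line (hF hW).1
          rw [ENNReal.div_le_iff_le_mul (Or.inl (by norm_num)) (Or.inl (by norm_num)), mul_comm]
          exact this
      _ = μH[2] (⋃ W ∈ F, PW W) := h1.symm
      _ ≤ μH[2] (Dᶜ) := measure_mono h2
  exact absurd h3 (not_le.mpr hn)

end Pool.Agent.Helper1_CP3
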