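import Mathlib

set_option autoImplicit false
set_option linter.unusedSimpArgs false
set_option linter.unusedVariables false

open scoped Topology
open Filter Polynomial

namespace Pool.Agent.Helper1_CP3

/-- entire functions of polynomial growth are polynomials -/
lemma entire_poly (n : ℕ) : ∀ f : ℂ → ℂ, Differentiable ℂ f →
    (∃ C : ℝ, ∀ z : ℂ, 1 ≤ ‖z‖ → ‖f z‖ ≤ C * ‖z‖ ^ n) →
    ∃ P : ℂ[X], P.natDegree ≤ n ∧ ∀ z, f z = P.eval z := by
  induction n with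
  | zero =>
    rintro f hf ⟨C₁, hC⟩
    have hb : Bornology.IsBounded (Set.range f) := by
      obtain ⟨C', hC'⟩ := (isCompact_closedBall (0:ℂ) 1).exists_bound_of_continuousOn
        hf.continuous.continuousOn
      rw [isBounded_iff_forall_norm_le]
      refine ⟨max C₁ C', ?_⟩
      rintro _ ⟨z, rfl⟩
      rcases le_total 1 ‖z‖ with h | h
      · have := hC z h
        rw [pow_zero, mul_one] at this
        exact this.trans (le_max_left _ _)
      · exact (hC' z (by simpa using h)).trans (le_max_right _ _)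
    obtain ⟨c, hc⟩ := hf.exists_eq_const_of_bounded hb
    refine ⟨C c, by simp, fun z => by rw [hc]; simp⟩
  | succ n ih =>
    rintro f hf ⟨C', hC⟩
    set g := dslope f 0 with hg
    have hgd : Differentiable ℂ g := by
      rw [← differentiableOn_univ, hg, Complex.differentiableOn_dslope univ_mem]
      exact differentiableOn_univ.mpr hf
    have hrel : ∀ z, f z = f 0 + z * g z := by
      intro z
      have := sub_smul_dslope f 0 z
      rw [sub_zero, smul_eq_mul] at this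
      rw [hg, this]; ring
    obtain ⟨P, hP, hPe⟩ := ih g hgd ⟨C' + ‖f 0‖, by
      intro z hz
      have hz0 : z ≠ 0 := by rintro rfl; norm_num at hz
      have h1 : z * g z = f z - f 0 := by rw [hrel z]; ring
      have h2 : ‖z‖ * ‖g z‖ ≤ C' * ‖z‖ ^ (n + 1) + ‖f 0‖ := by
        rw [← norm_mul, h1]
        exact (norm_sub_le _ _).trans (add_le_add (hC z hz) le_rfl)
      have hzp : 0 < ‖z‖ := by positivity
      have h3 : ‖f 0‖ ≤ ‖f 0‖ * ‖z‖ ^ (n + 1) :=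
        le_mul_of_one_le_right (norm_nonneg _) (one_le_pow₀ hz)
      have h4 : ‖z‖ * ‖g z‖ ≤ ‖z‖ * ((C' + ‖f 0‖) * ‖z‖ ^ n) := by
        calc ‖z‖ * ‖g z‖ ≤ C' * ‖z‖ ^ (n + 1) + ‖f 0‖ * ‖z‖ ^ (n + 1) := by linarith
          _ = ‖z‖ * ((C' + ‖f 0‖) * ‖z‖ ^ n) := by ring
      exact le_of_mul_le_mul_left h4 hzp⟩
    refine ⟨C (f 0) + X * P, ?_, ?_⟩
    · refine (natDegree_add_le _ _).trans ?_
      rw [natDegree_C]
      refine max_le (Nat.zero_le _) ?_
      refine (natDegree_mul_le).trans ?_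
      rw [natDegree_X]
      omega
    · intro z
      rw [hrel z, hPe z]
      simp

/-- vanishing to order four -/
lemma order_four {P : ℂ[X]} (hP : P.natDegree ≤ 4) {z₀ : ℂ}
    (h : ∃ K : ℝ, ∀ᶠ z in 𝓝 z₀, ‖P.eval z‖ ≤ K * ‖z - z₀‖ ^ 4) :
    ∃ c : ℂ, P = C c * (X - C z₀) ^ 4 := by
  by_cases h0 : P = 0
  · exact ⟨0, by simp [h0]⟩
  obtain ⟨K, hK⟩ := h
  set m := P.rootMultiplicity z₀ with hm
  obtain ⟨Q, hQ, hQr⟩ := P.exists_eq_pow_rootMultiplicity_mul_and_not_dvd h0 z₀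
  rw [← hm] at hQ
  have hQ0 : Q.eval z₀ ≠ 0 := by
    intro hcon
    exact hQr (dvd_iff_isRoot.mpr hcon)
  have hm4 : 4 ≤ m := by
    by_contra hlt
    push Not at hlt
    -- `‖Q z‖ ≤ K ‖z - z₀‖ ^ (4 - m)` on a punctured neighbourhood
    have h1 : ∀ᶠ z in 𝓝[≠] z₀, ‖Q.eval z‖ ≤ K * ‖z - z₀‖ ^ (4 - m) := by
      filter_upwards [hK.filter_mono nhdsWithin_le_nhds, self_mem_nhdsWithin] with z hz hz'
      have hne : z - z₀ ≠ 0 := sub_ne_zero.mpr hz'
      have hpos : 0 < ‖z - z₀‖ ^ m := by positivity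
      rw [hQ] at hz
      simp only [eval_mul, eval_pow, eval_sub, eval_X, eval_C, norm_mul, norm_pow] at hz
      have e : ‖z - z₀‖ ^ 4 = ‖z - z₀‖ ^ m * ‖z - z₀‖ ^ (4 - m) := by
        rw [← pow_add]; congr 1; omega
      rw [e] at hz
      have : ‖z - z₀‖ ^ m * ‖Q.eval z‖ ≤ ‖z - z₀‖ ^ m * (K * ‖z - z₀‖ ^ (4 - m)) := by
        calc _ ≤ _ := hz
          _ = _ := by ring
      exact le_of_mul_le_mul_left this hpos
    have h2 : Tendsto (fun z => ‖Q.eval z‖) (𝓝[≠] z₀) (𝓝 ‖Q.eval z₀‖) :=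
      (Q.continuous.norm.continuousAt).tendsto.mono_left nhdsWithin_le_nhds
    have h3 : Tendsto (fun z => K * ‖z - z₀‖ ^ (4 - m)) (𝓝[≠] z₀) (𝓝 0) := by
      have h4 : Continuous fun z : ℂ => K * ‖z - z₀‖ ^ (4 - m) := by fun_prop
      have h5 := (h4.continuousAt (x := z₀)).tendsto.mono_left (nhdsWithin_le_nhds (s := {z₀}ᶜ))
      simp only [sub_self, norm_zero] at h5
      rw [zero_pow (by omega), mul_zero] at h5
      exact h5
    have h4 : ‖Q.eval z₀‖ ≤ 0 := le_of_tendsto_of_tendsto h2 h3 h1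
    exact hQ0 (norm_le_zero_iff.mp h4)
  have hQne : Q ≠ 0 := by rintro rfl; simp at hQ0
  have hdeg : P.natDegree = m + Q.natDegree := by
    have hne : (X - C z₀) ^ m ≠ 0 := pow_ne_zero _ (X_sub_C_ne_zero z₀)
    rw [hQ, natDegree_mul hne hQne, natDegree_pow, natDegree_X_sub_C, mul_one]
  have hm' : m = 4 := by omega
  have hQd : Q.natDegree = 0 := by omega
  refine ⟨Q.coeff 0, ?_⟩
  have hQc := eq_C_of_natDegree_eq_zero hQd
  conv_lhs => rw [hQ, hm', hQc]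
  ring

/-- the fourth-power lemma -/
lemma fourth_power {f : ℂ → ℂ} (hf : Differentiable ℂ f)
    (hg : ∃ C : ℝ, ∀ z : ℂ, 1 ≤ ‖z‖ → ‖f z‖ ≤ C * ‖z‖ ^ 4)
    (hz : ∀ z₀, f z₀ = 0 → ∃ K : ℝ, ∀ᶠ z in 𝓝 z₀, ‖f z‖ ≤ K * ‖z - z₀‖ ^ 4) :
    ∃ α β : ℂ, ∀ z, f z = (α * z + β) ^ 4 := by
  obtain ⟨P, hP, hPe⟩ := entire_poly 4 f hf hg
  by_cases hd : P.natDegree = 0
  · obtain ⟨β, hβ⟩ := IsAlgClosed.exists_pow_nat_eq (P.coeff 0) (n := 4) (by norm_num)
    refine ⟨0, β, fun z => ?_⟩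
    rw [hPe, eq_C_of_natDegree_eq_zero hd, eval_C, zero_mul, zero_add, hβ]
  · obtain ⟨z₀, hz₀⟩ := IsAlgClosed.exists_root P (by
      intro h
      exact hd (natDegree_eq_of_degree_eq_some h))
    have h1 : f z₀ = 0 := by rw [hPe]; exact hz₀
    obtain ⟨K, hK⟩ := hz z₀ h1
    obtain ⟨c, hc⟩ := order_four hP (z₀ := z₀) ⟨K, by
      filter_upwards [hK] with z hz
      rwa [← hPe z]⟩
    obtain ⟨α, hα⟩ := IsAlgClosed.exists_pow_nat_eq c (n := 4) (by norm_num)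
    refine ⟨α, -(α * z₀), fun z => ?_⟩
    rw [hPe, hc]
    simp only [eval_mul, eval_C, eval_pow, eval_sub, eval_X]
    rw [← hα]; ring

/-- an analytic fourth root of `(α z + β)⁴` is affine near `0` -/
lemma root_affine {h : ℂ → ℂ} (hh : AnalyticAt ℂ h 0) {α β : ℂ}
    (he : ∀ᶠ z in 𝓝 0, h z ^ 4 = (α * z + β) ^ 4) :
    ∃ γ δ : ℂ, ∀ᶠ z in 𝓝 0, h z = γ * z + δ := by
  have hlin : AnalyticAt ℂ (fun z : ℂ => α * z + β) 0 := by fun_prop
  have fac : ∀ ζ : ℂ, AnalyticAt ℂ (fun z => h z - ζ * (α * z + β)) 0 := fun ζ =>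
    hh.fun_sub (analyticAt_const.fun_mul hlin)
  have dich := fun ζ => (fac ζ).eventually_eq_zero_or_eventually_ne_zero
  have done : ∀ ζ : ℂ, (∀ᶠ z in 𝓝 0, h z - ζ * (α * z + β) = 0) →
      ∃ γ δ : ℂ, ∀ᶠ z in 𝓝 0, h z = γ * z + δ := by
    intro ζ hζ
    refine ⟨ζ * α, ζ * β, ?_⟩
    filter_upwards [hζ] with z hz
    linear_combination hz
  rcases dich 1 with h1 | h1
  · exact done 1 h1
  rcases dich (-1) with h2 | h2
  · exact done _ h2
  rcases dich Complex.I with h3 | h3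
  · exact done _ h3
  rcases dich (-Complex.I) with h4 | h4
  · exact done _ h4
  exfalso
  have := (((he.filter_mono (nhdsWithin_le_nhds (s := {0}ᶜ))).and h1).and (h2.and (h3.and h4))).exists
  obtain ⟨z, ⟨hz, k1⟩, k2, k3, k4⟩ := this
  have e : (h z - 1 * (α * z + β)) * (h z - (-1) * (α * z + β)) *
      ((h z - Complex.I * (α * z + β)) * (h z - (-Complex.I) * (α * z + β))) = 0 := by
    have hI : Complex.I ^ 2 = -1 := Complex.I_sq
    have : (h z - 1 * (α * z + β)) * (h z - (-1) * (α * z + β)) *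
      ((h z - Complex.I * (α * z + β)) * (h z - (-Complex.I) * (α * z + β)))
      = (h z ^ 2 - (α * z + β) ^ 2) * (h z ^ 2 - Complex.I ^ 2 * (α * z + β) ^ 2) := by ring
    rw [this, hI]
    linear_combination hz
  rcases mul_eq_zero.mp e with e | e <;> rcases mul_eq_zero.mp e with e | e
  · exact k1 e
  · exact k2 e
  · exact k3 e
  · exact k4 e

end Pool.Agent.Helper1_CP3
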