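import Pool.Agent.Helper1_CP3.Lift
import Pool.Agent.Helper1_CP3.OneVar

set_option autoImplicit false
set_option linter.unusedSimpArgs false
set_option linter.unusedVariables false

open scoped LinearAlgebra.Projectivization Topology InnerProductSpace
open MeasureTheory Filter

namespace Pool.Agent.Helper1_CP3

lemma GoodLift.eventually {g : CP3 → CP3} {v : V} {H : V → V} (h : GoodLift g v H) :
    ∀ᶠ w in 𝓝 v, GoodLift g w H := by
  filter_upwards [h.an.eventually_analyticAt, h.an.continuousAt.eventually_ne h.ne,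
    h.eq.eventually_nhds] with w h1 h2 h3
  exact ⟨h1, h2, h.hom, h3⟩

lemma GoodLift.smul {g : CP3 → CP3} {v : V} {H : V → V} (h : GoodLift g v H) {c : ℂ} (hc : c ≠ 0) :
    GoodLift g (c • v) H := by
  have e : H = fun w => c • H (c⁻¹ • w) := by
    funext w
    rw [← h.hom c _ hc, smul_smul, mul_inv_cancel₀ hc, one_smul]
  have hcv : c⁻¹ • (c • v) = v := by rw [smul_smul, inv_mul_cancel₀ hc, one_smul]
  have hcont : Tendsto (fun w : V => c⁻¹ • w) (𝓝 (c • v)) (𝓝 v) := by
    have : Continuous fun w : V => c⁻¹ • w := by fun_prop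
    have := this.continuousAt (x := c • v)
    rwa [ContinuousAt, hcv] at this
  refine ⟨?_, ?_, h.hom, ?_⟩
  · rw [e]
    apply AnalyticAt.fun_smul analyticAt_const
    have h1 : AnalyticAt ℂ H (c⁻¹ • (c • v)) := by rw [hcv]; exact h.an
    refine AnalyticAt.fun_comp (g := H) h1 ?_
    exact analyticAt_const.fun_smul analyticAt_id
  · rw [h.hom c v hc]
    exact smul_ne_zero hc h.ne
  · filter_upwards [hcont.eventually h.eq] with w hw
    rw [show H w = c • H (c⁻¹ • w) from congrFun e w, pr_smul hc, hw, pr_smul (inv_ne_zero hc)]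

open Classical in
/-- the well-defined quartic functions `H_i⁴ / det DH` -/
noncomputable def Pf (g : CP3 → CP3) (i : Fin 4) (w : V) : ℂ :=
  if h : ∃ H, GoodLift g w H then (h.choose w i) ^ 4 / J h.choose w else 0

lemma Pf_eq {g : CP3 → CP3} {v : V} {H : V → V} (h : GoodLift g v H) (i : Fin 4) :
    Pf g i v = (H v i) ^ 4 / J H v := by
  have hex : ∃ H, GoodLift g v H := ⟨H, h⟩
  unfold Pf
  rw [dif_pos hex]
  obtain ⟨c, hc, h1, h2⟩ := compare h hex.choose_spec
  rw [h1, h2]
  simp only [PiLp.smul_apply, smul_eq_mul, mul_pow]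
  rw [mul_div_mul_left _ _ (pow_ne_zero 4 hc)]

/-- hypotheses on the pair of mutually inverse maps -/
structure Bihol (g g' : CP3 → CP3) (D : Set CP3) : Prop where
  open' : IsOpen D
  holo : HoloOn g D
  holo' : HoloOn g' D
  maps : Set.MapsTo g D D
  inv : ∀ x ∈ D, g' (g x) = x

lemma J_ne_zero {g g' : CP3 → CP3} {D : Set CP3} (hb : Bihol g g' D) {v : V} (hv : v ∈ cone D)
    {H : V → V} (h : GoodLift g v H) : J H v ≠ 0 := by
  have hHv : H v ∈ cone D := by
    refine ⟨h.ne, ?_⟩
    rw [h.eq.self_of_nhds]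
    exact hb.maps hv.2
  obtain ⟨K, hK⟩ := exists_good hb.holo' hHv
  -- `K (H w) = c w • w`
  obtain ⟨j, hj⟩ : ∃ j, v j ≠ 0 := by
    by_contra hcon
    push Not at hcon
    exact hv.1 (by ext j; exact hcon j)
  have hKH : AnalyticAt ℂ (fun w => K (H w)) v := hK.an.fun_comp h.an
  set c : V → ℂ := fun w => K (H w) j / w j with hc
  have hnum : AnalyticAt ℂ (fun w => K (H w) j) v :=
    ((EuclideanSpace.proj j : V →L[ℂ] ℂ).analyticAt _).fun_comp hKH
  have hden : AnalyticAt ℂ (fun w : V => w j) v := (EuclideanSpace.proj j : V →L[ℂ] ℂ).analyticAt _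
  have hcan : AnalyticAt ℂ c v := hnum.fun_div hden hj
  have hcone := isOpen_cone hb.open'
  have hev : ∀ᶠ w in 𝓝 v, K (H w) = c w • w ∧ c w ≠ 0 := by
    filter_upwards [h.eq, h.an.continuousAt.eventually hK.eq, hcone.mem_nhds hv,
      h.an.continuousAt.eventually (hK.an.continuousAt.eventually_ne hK.ne),
      hden.continuousAt.eventually_ne hj] with w h1 h2 h3 h4 h5
    rw [h1, hb.inv _ h3.2] at h2
    obtain ⟨a, ha, hEq⟩ := (pr_eq_iff h4 h3.1).mp h2
    have : c w = a := by
      simp only [hc, hEq]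
      simp [h5]
    rw [this]
    exact ⟨hEq, ha⟩
  have hhom : ∀ (a : ℂ) (w : V), a ≠ 0 → c (a • w) = c w := by
    intro a w ha
    simp only [hc, h.hom a w ha, hK.hom a _ ha]
    simp only [PiLp.smul_apply, smul_eq_mul]
    rw [mul_div_mul_left _ _ ha]
  have hfd : HasFDerivAt (fun w => K (H w)) (c v • ContinuousLinearMap.id ℂ V
      + (fderiv ℂ c v).smulRight v) v := by
    have h1 := hcan.differentiableAt.hasFDerivAt.smul (hasFDerivAt_id (𝕜 := ℂ) v)
    refine HasFDerivAt.congr_of_eventuallyEq h1 ?_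
    filter_upwards [hev] with w hw
    exact hw.1
  have hfd2 : HasFDerivAt (fun w => K (H w)) ((fderiv ℂ K (H v)).comp (fderiv ℂ H v)) v :=
    hK.an.differentiableAt.hasFDerivAt.comp v h.an.differentiableAt.hasFDerivAt
  have e := hfd.unique hfd2
  have h0 := euler0 hcan.differentiableAt hhom
  have hc0 := hev.self_of_nhds.2
  have hdet := det_aux (c v) hc0 (fderiv ℂ c v) v h0
  rw [e, ContinuousLinearMap.det, ContinuousLinearMap.toLinearMap_comp, LinearMap.det_comp] at hdet
  intro hJ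
  unfold J at hJ
  rw [ContinuousLinearMap.det] at hJ
  rw [hJ, mul_zero] at hdet
  exact pow_ne_zero 4 hc0 hdet.symm

lemma Pf_eventually {g : CP3 → CP3} {v : V} {H : V → V} (h : GoodLift g v H) (i : Fin 4) :
    ∀ᶠ w in 𝓝 v, Pf g i w = (H w i) ^ 4 / J H w := by
  filter_upwards [h.eventually] with w hw
  exact Pf_eq hw i

lemma analyticAt_Pf {g g' : CP3 → CP3} {D : Set CP3} (hb : Bihol g g' D) {v : V} (hv : v ∈ cone D)
    (i : Fin 4) : AnalyticAt ℂ (Pf g i) v := by
  obtain ⟨H, h⟩ := exists_good hb.holo hv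
  have h1 : AnalyticAt ℂ (fun w => (H w i) ^ 4 / J H w) v := by
    apply AnalyticAt.fun_div
    · apply AnalyticAt.fun_pow
      exact ((EuclideanSpace.proj i : V →L[ℂ] ℂ).analyticAt _).fun_comp h.an
    · exact analyticAt_J h.an
    · exact J_ne_zero hb hv h
  refine h1.congr ?_
  filter_upwards [Pf_eventually h i] with w hw
  exact hw.symm

lemma Pf_smul {g g' : CP3 → CP3} {D : Set CP3} (hb : Bihol g g' D) {v : V} (hv : v ∈ cone D)
    (i : Fin 4) {c : ℂ} (hc : c ≠ 0) : Pf g i (c • v) = c ^ 4 * Pf g i v := by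
  obtain ⟨H, h⟩ := exists_good hb.holo hv
  rw [Pf_eq h i, Pf_eq (h.smul hc) i, J_hom h.an.differentiableAt h.hom hc, h.hom c v hc]
  simp only [PiLp.smul_apply, smul_eq_mul, mul_pow]
  rw [mul_div_assoc]

/-- On a line contained in `D` the function `Pf` is the fourth power of a linear function. -/
lemma Pf_line {g g' : CP3 → CP3} {D : Set CP3} (hb : Bihol g g' D) (i : Fin 4) {a b : V}
    (hab : ∀ s t : ℂ, (s ≠ 0 ∨ t ≠ 0) → s • a + t • b ∈ cone D) :
    ∃ α β : ℂ, ∀ z : ℂ, Pf g i (a + z • b) = (α * z + β) ^ 4 := by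
  have hmem : ∀ z : ℂ, a + z • b ∈ cone D := by
    intro z
    have := hab 1 z (Or.inl one_ne_zero)
    rwa [one_smul] at this
  have hmem' : ∀ z : ℂ, z • a + b ∈ cone D := by
    intro z
    have := hab z 1 (Or.inr one_ne_zero)
    rwa [one_smul] at this
  have hd : Differentiable ℂ (fun z : ℂ => Pf g i (a + z • b)) := by
    intro z
    have h1 := (analyticAt_Pf hb (hmem z) i).differentiableAt
    have h2 : DifferentiableAt ℂ (fun z : ℂ => a + z • b) z := by fun_prop
    exact DifferentiableAt.fun_comp' (g := Pf g i) z h1 h2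
  apply fourth_power hd
  · -- growth
    have hcont : Continuous (fun z : ℂ => Pf g i (z • a + b)) := by
      rw [continuous_iff_continuousAt]
      intro z
      have h1 := (analyticAt_Pf hb (hmem' z) i).continuousAt
      have h2 : ContinuousAt (fun z : ℂ => z • a + b) z := by fun_prop
      exact ContinuousAt.comp' (g := Pf g i) h1 h2
    obtain ⟨C, hC⟩ := (isCompact_closedBall (0:ℂ) 1).exists_bound_of_continuousOn
      hcont.continuousOn
    refine ⟨C, ?_⟩
    intro z hz
    have hz0 : z ≠ 0 := by rintro rfl; norm_num at hz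
    have e : a + z • b = z • (z⁻¹ • a + b) := by
      rw [smul_add, smul_smul, mul_inv_cancel₀ hz0, one_smul]
    rw [e, Pf_smul hb (hmem' _) i hz0, norm_mul, norm_pow, mul_comm]
    apply mul_le_mul_of_nonneg_right _ (by positivity)
    apply hC
    simp only [Metric.mem_closedBall, dist_zero_right, norm_inv]
    exact inv_le_one_of_one_le₀ hz
  · intro z₀ hz₀
    obtain ⟨H, h⟩ := exists_good hb.holo (hmem z₀)
    have hJ := J_ne_zero hb (hmem z₀) h
    rw [Pf_eq h i] at hz₀
    have hH0 : H (a + z₀ • b) i = 0 := by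
      rcases div_eq_zero_iff.mp hz₀ with h1 | h1
      · exact pow_eq_zero_iff (by norm_num) |>.mp h1
      · exact absurd h1 hJ
    have hlin : Tendsto (fun z : ℂ => a + z • b) (𝓝 z₀) (𝓝 (a + z₀ • b)) := by
      have : Continuous fun z : ℂ => a + z • b := by fun_prop
      exact this.continuousAt
    have hdiff : DifferentiableAt ℂ (fun z : ℂ => H (a + z • b) i) z₀ := by
      have h1 : AnalyticAt ℂ (fun w => H w i) (a + z₀ • b) :=
        ((EuclideanSpace.proj i : V →L[ℂ] ℂ).analyticAt _).fun_comp h.an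
      have h2 : DifferentiableAt ℂ (fun z : ℂ => a + z • b) z₀ := by fun_prop
      exact DifferentiableAt.fun_comp' (g := fun w => H w i) z₀ h1.differentiableAt h2
    have hO := hdiff.isBigO_sub
    rw [Asymptotics.isBigO_iff] at hO
    obtain ⟨C, hC⟩ := hO
    have hJb : ∀ᶠ z in 𝓝 z₀, ‖(J H (a + z • b))⁻¹‖ ≤ ‖(J H (a + z₀ • b))⁻¹‖ + 1 := by
      have h1 : ContinuousAt (fun z : ℂ => ‖(J H (a + z • b))⁻¹‖) z₀ := by
        apply ContinuousAt.norm
        have h0 : ContinuousAt (fun z : ℂ => J H (a + z • b)) z₀ :=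
          ContinuousAt.comp' (g := J H) (analyticAt_J h.an).continuousAt hlin
        exact h0.inv₀ hJ
      have h2 := h1.eventually (gt_mem_nhds (lt_add_one _))
      filter_upwards [h2] with z hz
      exact hz.le
    refine ⟨C ^ 4 * (‖(J H (a + z₀ • b))⁻¹‖ + 1), ?_⟩
    filter_upwards [hC, hJb, hlin.eventually (Pf_eventually h i)] with z h1 h2 h3
    rw [hH0, sub_zero] at h1
    rw [h3, div_eq_mul_inv, norm_mul, norm_pow]
    calc ‖H (a + z • b) i‖ ^ 4 * ‖(J H (a + z • b))⁻¹‖
        ≤ (C * ‖z - z₀‖) ^ 4 * (‖(J H (a + z₀ • b))⁻¹‖ + 1) := by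
          apply mul_le_mul _ h2 (norm_nonneg _) (by positivity)
          exact pow_le_pow_left₀ (norm_nonneg _) h1 4
      _ = _ := by ring

end Pool.Agent.Helper1_CP3
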