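import Pool.Agent.Helper1_CP3.Glob

set_option autoImplicit false
set_option linter.unusedSimpArgs false
set_option linter.unusedVariables false

open scoped LinearAlgebra.Projectivization Topology InnerProductSpace
open MeasureTheory Filter

namespace Pool.Agent.Helper1_CP3

/-- singular value decomposition of an injective endomorphism -/
lemma svd {M : V →L[ℂ] V} (hM : Function.Injective M) :
    ∃ (b c : Fin 4 → V) (σ : Fin 4 → ℝ), Orthonormal ℂ b ∧ Orthonormal ℂ c ∧ (∀ i, 0 < σ i) ∧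
      Antitone σ ∧ ∀ i, M (b i) = (σ i : ℂ) • c i := by
  set T : V →ₗ[ℂ] V := (((ContinuousLinearMap.adjoint M).comp M : V →L[ℂ] V) : V →ₗ[ℂ] V) with hT
  have hin : ∀ u v, ⟪T u, v⟫_ℂ = ⟪M u, M v⟫_ℂ := by
    intro u v
    simp only [hT, ContinuousLinearMap.coe_coe, ContinuousLinearMap.comp_apply]
    rw [ContinuousLinearMap.adjoint_inner_left]
  have hin' : ∀ u v, ⟪u, T v⟫_ℂ = ⟪M u, M v⟫_ℂ := by
    intro u v
    simp only [hT, ContinuousLinearMap.coe_coe, ContinuousLinearMap.comp_apply]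
    rw [ContinuousLinearMap.adjoint_inner_right]
  have hsymm : T.IsSymmetric := by
    intro u v
    rw [hin, hin']
  have hn : Module.finrank ℂ V = 4 := finrank_euclideanSpace_fin
  set b := hsymm.eigenvectorBasis hn with hb
  set lam := hsymm.eigenvalues hn with hlam
  have hTb : ∀ i, T (b i) = (lam i : ℂ) • b i := fun i => hsymm.apply_eigenvectorBasis hn i
  have hMM : ∀ i j, ⟪M (b i), M (b j)⟫_ℂ = if i = j then (lam i : ℂ) else 0 := by
    intro i j
    rw [← hin', hTb, inner_smul_right]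
    have := (orthonormal_iff_ite.mp b.orthonormal) i j
    rw [this]
    by_cases hij : i = j
    · subst hij; simp
    · simp [hij]
  have hnorm : ∀ i, lam i = ‖M (b i)‖ ^ 2 := by
    intro i
    have h1 := hMM i i
    rw [if_pos rfl, inner_self_eq_norm_sq_to_K] at h1
    have : ((‖M (b i)‖ ^ 2 : ℝ) : ℂ) = (lam i : ℂ) := by
      rw [← h1]; push_cast; rfl
    exact_mod_cast this.symm
  have hb0 : ∀ i, b i ≠ 0 := fun i => unit_ne (b.orthonormal.1 i)
  have hpos : ∀ i, 0 < ‖M (b i)‖ := fun i => norm_pos_iff.mpr (inj_ne hM (hb0 i))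
  refine ⟨b, fun i => ((‖M (b i)‖ : ℂ)⁻¹) • M (b i), fun i => ‖M (b i)‖, b.orthonormal, ?_, hpos, ?_, ?_⟩
  · rw [orthonormal_iff_ite]
    intro i j
    rw [inner_smul_left, inner_smul_right, hMM]
    have hi : (‖M (b i)‖ : ℂ) ≠ 0 := by exact_mod_cast (hpos i).ne'
    by_cases hij : i = j
    · subst hij
      simp only [if_true]
      rw [hnorm i]
      push_cast
      rw [map_inv₀, Complex.conj_ofReal]
      field_simp
    · simp [hij]
  · intro i j hij
    have h1 := hsymm.eigenvalues_antitone hn hij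
    have h2 : lam j ≤ lam i := h1
    rw [hnorm, hnorm] at h2
    exact (pow_le_pow_iff_left₀ (norm_nonneg _) (norm_nonneg _) two_ne_zero).mp h2
  · intro i
    have hi : (‖M (b i)‖ : ℂ) ≠ 0 := by exact_mod_cast (hpos i).ne'
    rw [smul_smul, mul_inv_cancel₀ hi, one_smul]

/-- A sequence of injective linear maps with convergent singular value data. -/
structure SV (M : ℕ → V →L[ℂ] V) (bn cn : ℕ → Fin 4 → V) (σ : ℕ → Fin 4 → ℝ)
    (b c : Fin 4 → V) (α κ β : ℝ) : Prop where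
  obn : ∀ n, Orthonormal ℂ (bn n)
  ocn : ∀ n, Orthonormal ℂ (cn n)
  pos : ∀ n i, 0 < σ n i
  anti : ∀ n, Antitone (σ n)
  map : ∀ n i, M n (bn n i) = (σ n i : ℂ) • cn n i
  tb : ∀ i, Tendsto (fun n => bn n i) atTop (𝓝 (b i))
  tc : ∀ i, Tendsto (fun n => cn n i) atTop (𝓝 (c i))
  tα : Tendsto (fun n => σ n 1 / σ n 0) atTop (𝓝 α)
  tκ : Tendsto (fun n => σ n 2 / σ n 1) atTop (𝓝 κ)
  tβ : Tendsto (fun n => σ n 3 / σ n 2) atTop (𝓝 β)

lemma exists_SV (M : ℕ → V →L[ℂ] V) (hM : ∀ n, Function.Injective (M n)) :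
    ∃ φ : ℕ → ℕ, StrictMono φ ∧ ∃ (bn cn : ℕ → Fin 4 → V) (σ : ℕ → Fin 4 → ℝ)
      (b c : Fin 4 → V) (α κ β : ℝ), SV (fun n => M (φ n)) bn cn σ b c α κ β := by
  choose bn cn σ h1 h2 h3 h4 h5 using fun n => svd (hM n)
  set x : ℕ → (Fin 4 → V) × (Fin 4 → V) × ℝ × ℝ × ℝ := fun n =>
    (bn n, cn n, σ n 1 / σ n 0, σ n 2 / σ n 1, σ n 3 / σ n 2) with hx
  have hratio : ∀ n (i j : Fin 4), i ≤ j → ‖σ n j / σ n i‖ ≤ 1 := by
    intro n i j hij
    rw [Real.norm_of_nonneg (div_nonneg (h3 n j).le (h3 n i).le)]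
    exact (div_le_one (h3 n i)).mpr (h4 n hij)
  have hbound : ∀ n, x n ∈ Metric.closedBall (0 : (Fin 4 → V) × (Fin 4 → V) × ℝ × ℝ × ℝ) 1 := by
    intro n
    rw [mem_closedBall_zero_iff]
    simp only [hx, Prod.norm_def, sup_le_iff]
    refine ⟨?_, ?_, hratio n 0 1 (by decide), hratio n 1 2 (by decide), hratio n 2 3 (by decide)⟩
    · rw [pi_norm_le_iff_of_nonneg zero_le_one]
      intro i; exact ((h1 n).1 i).le
    · rw [pi_norm_le_iff_of_nonneg zero_le_one]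
      intro i; exact ((h2 n).1 i).le
  obtain ⟨⟨b, c, α, κ, β⟩, -, φ, hφ, hlim⟩ :=
    (isCompact_closedBall (0 : (Fin 4 → V) × (Fin 4 → V) × ℝ × ℝ × ℝ) 1).tendsto_subseq hbound
  rw [Prod.tendsto_iff, Prod.tendsto_iff, Prod.tendsto_iff, Prod.tendsto_iff] at hlim
  obtain ⟨l1, l2, l3, l4, l5⟩ := hlim
  rw [tendsto_pi_nhds] at l1 l2
  exact ⟨φ, hφ, fun n => bn (φ n), fun n => cn (φ n), fun n => σ (φ n), b, c, α, κ, β,
    ⟨fun n => h1 _, fun n => h2 _, fun n => h3 _, fun n => h4 _, fun n => h5 _, l1, l2, l3, l4, l5⟩⟩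

namespace SV

variable {M : ℕ → V →L[ℂ] V} {bn cn : ℕ → Fin 4 → V} {σ : ℕ → Fin 4 → ℝ}
    {b c : Fin 4 → V} {α κ β : ℝ}

lemma ortho_lim {un : ℕ → Fin 4 → V} {u : Fin 4 → V} (h : ∀ n, Orthonormal ℂ (un n))
    (ht : ∀ i, Tendsto (fun n => un n i) atTop (𝓝 (u i))) : Orthonormal ℂ u := by
  rw [orthonormal_iff_ite]
  intro i j
  have h1 : Tendsto (fun n => ⟪un n i, un n j⟫_ℂ) atTop (𝓝 ⟪u i, u j⟫_ℂ) := (ht i).inner (ht j)
  have h2 : (fun n => ⟪un n i, un n j⟫_ℂ) = fun _ => if i = j then 1 else 0 := by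
    funext n
    exact (orthonormal_iff_ite.mp (h n)) i j
  rw [h2] at h1
  exact tendsto_nhds_unique h1 tendsto_const_nhds

lemma ob (h : SV M bn cn σ b c α κ β) : Orthonormal ℂ b := ortho_lim h.obn h.tb

lemma oc (h : SV M bn cn σ b c α κ β) : Orthonormal ℂ c := ortho_lim h.ocn h.tc

lemma κ_nonneg (h : SV M bn cn σ b c α κ β) : 0 ≤ κ :=
  ge_of_tendsto' h.tκ fun n => div_nonneg (h.pos n _).le (h.pos n _).le

/-- passing to a subsequence -/
lemma subseq (h : SV M bn cn σ b c α κ β) {φ : ℕ → ℕ} (hφ : Tendsto φ atTop atTop) :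
    SV (fun n => M (φ n)) (fun n => bn (φ n)) (fun n => cn (φ n)) (fun n => σ (φ n)) b c α κ β :=
  ⟨fun n => h.obn _, fun n => h.ocn _, fun n => h.pos _, fun n => h.anti _, fun n => h.map _,
    fun i => (h.tb i).comp hφ, fun i => (h.tc i).comp hφ, h.tα.comp hφ, h.tκ.comp hφ, h.tβ.comp hφ⟩

/-- the inverse sequence -/
lemma inv (h : SV M bn cn σ b c α κ β) {M' : ℕ → V →L[ℂ] V} (hM : ∀ n v, M' n (M n v) = v) :
    SV M' (fun n i => cn n i.rev) (fun n i => bn n i.rev) (fun n i => (σ n i.rev)⁻¹)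
      (fun i => c i.rev) (fun i => b i.rev) β κ α := by
  have hrev : ∀ {u : Fin 4 → V}, Orthonormal ℂ u → Orthonormal ℂ (fun i => u (Fin.rev i)) := by
    intro u hu
    exact hu.comp _ Fin.rev_injective
  refine ⟨fun n => hrev (h.ocn n), fun n => hrev (h.obn n), fun n i => inv_pos.mpr (h.pos n _), ?_, ?_,
    fun i => h.tc _, fun i => h.tb _, ?_, ?_, ?_⟩
  · intro n i j hij
    have h1 : σ n i.rev ≤ σ n j.rev := h.anti n (Fin.rev_le_rev.mpr hij)
    exact inv_anti₀ (h.pos n _) h1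
  · intro n i
    have h1 := h.map n i.rev
    have h2 : (σ n i.rev : ℂ) ≠ 0 := by exact_mod_cast (h.pos n _).ne'
    have h3 : cn n i.rev = (σ n i.rev : ℂ)⁻¹ • M n (bn n i.rev) := by
      rw [h1, smul_smul, inv_mul_cancel₀ h2, one_smul]
    show M' n (cn n i.rev) = (((σ n i.rev)⁻¹ : ℝ) : ℂ) • bn n i.rev
    rw [h3, map_smul, hM]
    push_cast
    rfl
  · have e : (fun n => (σ n (Fin.rev 1))⁻¹ / (σ n (Fin.rev 0))⁻¹) = fun n => σ n 3 / σ n 2 := by
      funext n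
      rw [show (Fin.rev 1 : Fin 4) = 2 from rfl, show (Fin.rev 0 : Fin 4) = 3 from rfl]
      rw [inv_div_inv]
    rw [e]; exact h.tβ
  · have e : (fun n => (σ n (Fin.rev 2))⁻¹ / (σ n (Fin.rev 1))⁻¹) = fun n => σ n 2 / σ n 1 := by
      funext n
      rw [show (Fin.rev 1 : Fin 4) = 2 from rfl, show (Fin.rev 2 : Fin 4) = 1 from rfl]
      rw [inv_div_inv]
    rw [e]; exact h.tκ
  · have e : (fun n => (σ n (Fin.rev 3))⁻¹ / (σ n (Fin.rev 2))⁻¹) = fun n => σ n 1 / σ n 0 := by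
      funext n
      rw [show (Fin.rev 3 : Fin 4) = 0 from rfl, show (Fin.rev 2 : Fin 4) = 1 from rfl]
      rw [inv_div_inv]
    rw [e]; exact h.tα

end SV

end Pool.Agent.Helper1_CP3
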