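import Pool.Agent.Helper1_CP3.Types

set_option autoImplicit false
set_option linter.unusedSimpArgs false
set_option linter.unusedVariables false

open scoped LinearAlgebra.Projectivization Topology InnerProductSpace ENNReal
open MeasureTheory Filter

namespace Pool.Agent.Helper1_CP3

/-! ### complements of finite unions of subspaces -/

lemma dense_compl_sub {E : Type*} [NormedAddCommGroup E] [NormedSpace ℝ E] (W : Submodule ℝ E)
    (hW : W ≠ ⊤) : Dense ((W : Set E)ᶜ) := by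
  rw [← interior_eq_empty_iff_dense_compl]
  by_contra h
  apply hW
  exact W.eq_top_of_nonempty_interior' (Set.nonempty_iff_ne_empty.mpr h)

lemma dense_compl_finite {E : Type*} [NormedAddCommGroup E] [NormedSpace ℝ E]
    [FiniteDimensional ℝ E] {𝓕 : Set (Submodule ℝ E)} (hfin : 𝓕.Finite) (h : ∀ W ∈ 𝓕, W ≠ ⊤) :
    Dense {x : E | ∀ W ∈ 𝓕, x ∉ W} := by
  have hc : CompleteSpace E := FiniteDimensional.complete ℝ E
  have e : {x : E | ∀ W ∈ 𝓕, x ∉ W} = ⋂ W ∈ 𝓕, ((W : Set E)ᶜ) := by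
    ext x; simp
  rw [e]
  apply dense_biInter_of_isOpen
  · intro W hW
    exact (Submodule.closed_of_finiteDimensional W).isOpen_compl
  · exact hfin.countable
  · intro W hW
    exact dense_compl_sub W (h W hW)

lemma finrank_real (L : Submodule ℂ V) (hL : Module.finrank ℂ L = 2) :
    Module.finrank ℝ (L.restrictScalars ℝ) = 4 := by
  have h1 : Module.finrank ℝ (L.restrictScalars ℝ) = Module.finrank ℝ L := rfl
  rw [h1, ← Module.finrank_mul_finrank ℝ ℂ L, hL, Complex.finrank_real_complex]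

lemma finrank_real_V : Module.finrank ℝ V = 8 := by
  rw [← Module.finrank_mul_finrank ℝ ℂ V, finrank_euclideanSpace_fin, Complex.finrank_real_complex]

lemma sup_ne_top (L : Submodule ℂ V) (hL : Module.finrank ℂ L = 2) (x : V) :
    L.restrictScalars ℝ ⊔ (ℝ ∙ x) ≠ ⊤ := by
  intro h
  have h1 := Submodule.finrank_add_le_finrank_add_finrank (L.restrictScalars ℝ) (ℝ ∙ x)
  rw [h, finrank_top, finrank_real_V, finrank_real L hL] at h1
  have h2 := finrank_span_le_card (R := ℝ) ({x} : Set V)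
  simp at h2
  omega

/-- the ball minus finitely many lines is preconnected -/
lemma preconnected_ball {𝓛 : Set (Submodule ℂ V)} (hfin : 𝓛.Finite)
    (h2 : ∀ L ∈ 𝓛, Module.finrank ℂ L = 2) (p : V) (r : ℝ) :
    IsPreconnected (Metric.ball p r ∩ {x | ∀ L ∈ 𝓛, x ∉ L}) := by
  apply isPreconnected_of_forall_pair
  rintro x ⟨hx, hxL⟩ y ⟨hy, hyL⟩
  -- intermediate point
  have hd : Dense {z : V | ∀ W ∈ ((fun L : Submodule ℂ V => L.restrictScalars ℝ ⊔ (ℝ ∙ x)) '' 𝓛 ∪
      (fun L : Submodule ℂ V => L.restrictScalars ℝ ⊔ (ℝ ∙ y)) '' 𝓛), z ∉ W} := by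
    apply dense_compl_finite ((hfin.image _).union (hfin.image _))
    rintro W (⟨L, hL, rfl⟩ | ⟨L, hL, rfl⟩)
    · exact sup_ne_top L (h2 L hL) x
    · exact sup_ne_top L (h2 L hL) y
  obtain ⟨z, hz, hzW⟩ := hd.inter_open_nonempty (Metric.ball p r) Metric.isOpen_ball ⟨x, hx⟩
  have hseg : ∀ u : V, u ∈ Metric.ball p r → (∀ L ∈ 𝓛, u ∉ L) →
      (∀ L ∈ 𝓛, z ∉ L.restrictScalars ℝ ⊔ (ℝ ∙ u)) →
      segment ℝ u z ⊆ Metric.ball p r ∩ {x | ∀ L ∈ 𝓛, x ∉ L} := by
    intro u hu huL hzu w hw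
    refine ⟨(convex_ball p r).segment_subset hu hz hw, ?_⟩
    intro L hL hwL
    obtain ⟨a, b, ha, hb, hab, rfl⟩ := hw
    by_cases hb0 : b = 0
    · rw [hb0] at hab
      rw [add_zero] at hab
      rw [hab, hb0, one_smul, zero_smul, add_zero] at hwL
      exact huL L hL hwL
    · apply hzu L hL
      have e : z = b⁻¹ • (a • u + b • z) + (-(b⁻¹ * a)) • u := by
        rw [smul_add, smul_smul, smul_smul, inv_mul_cancel₀ hb0, one_smul]
        module
      rw [e]
      apply Submodule.add_mem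
      · apply Submodule.mem_sup_left
        exact Submodule.smul_mem _ _ hwL
      · apply Submodule.mem_sup_right
        exact Submodule.smul_mem _ _ (Submodule.mem_span_singleton_self u)
  have hx' := hseg x hx hxL (fun L hL => hzW _ (Or.inl ⟨L, hL, rfl⟩))
  have hy' := hseg y hy hyL (fun L hL => hzW _ (Or.inr ⟨L, hL, rfl⟩))
  refine ⟨segment ℝ x z ∪ segment ℝ y z, Set.union_subset hx' hy', Or.inl (left_mem_segment ℝ x z),
    Or.inr (left_mem_segment ℝ y z), ?_⟩
  exact IsPreconnected.union z (right_mem_segment ℝ x z) (right_mem_segment ℝ y z)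
    (convex_segment x z).isPreconnected (convex_segment y z).isPreconnected

lemma dense_S {𝓛 : Set (Submodule ℂ V)} (hfin : 𝓛.Finite)
    (h2 : ∀ L ∈ 𝓛, Module.finrank ℂ L = 2) : Dense {x : V | ∀ L ∈ 𝓛, x ∉ L} := by
  have h := dense_compl_finite (E := V) (𝓕 := (fun L : Submodule ℂ V => L.restrictScalars ℝ) '' 𝓛)
    (hfin.image _) (by
      rintro W ⟨L, hL, rfl⟩ htop
      have := finrank_real L (h2 L hL)
      rw [show L.restrictScalars ℝ = ⊤ from htop, finrank_top, finrank_real_V] at this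
      norm_num at this)
  refine h.mono ?_
  intro x hx L hL hxL
  exact hx _ ⟨L, hL, rfl⟩ hxL

/-- generic points of a line near a given point -/
lemma generic_point {𝓛 : Set (Submodule ℂ V)} (hfin : 𝓛.Finite)
    (h2 : ∀ L ∈ 𝓛, Module.finrank ℂ L = 2) {L₁ : Submodule ℂ V} (hL₁ : L₁ ∈ 𝓛) {p : V}
    (hp : p ∈ L₁) {N : Set V} (hN : IsOpen N) (hpN : p ∈ N) :
    ∃ q ∈ N, q ∈ L₁ ∧ ∀ L ∈ 𝓛, q ∈ L → L = L₁ := by
  have hfin' : {L ∈ 𝓛 | L ≠ L₁}.Finite := hfin.subset fun L hL => hL.1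
  have h := dense_compl_finite (E := L₁)
    (𝓕 := (fun L : Submodule ℂ V => (L.comap L₁.subtype).restrictScalars ℝ) '' {L ∈ 𝓛 | L ≠ L₁})
    (hfin'.image _) (by
      rintro W ⟨L, ⟨hL, hne⟩, rfl⟩ htop
      apply hne
      have h3 : L₁ ≤ L := by
        intro x hx
        have : (⟨x, hx⟩ : L₁) ∈ (L.comap L₁.subtype).restrictScalars ℝ := by
          rw [show (L.comap L₁.subtype).restrictScalars ℝ = ⊤ from htop]; trivial
        exact this
      exact (Submodule.eq_of_le_of_finrank_eq h3 (by rw [h2 L₁ hL₁, h2 L hL])).symm)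
  obtain ⟨q, hqN, hq⟩ := h.inter_open_nonempty (Subtype.val ⁻¹' N)
    (hN.preimage continuous_subtype_val) ⟨⟨p, hp⟩, hpN⟩
  refine ⟨q, hqN, q.2, ?_⟩
  intro L hL hqL
  by_contra hne
  exact hq _ ⟨L, ⟨hL, hne⟩, rfl⟩ hqL

end Pool.Agent.Helper1_CP3
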