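import Pool.Agent.Helper1_CP3.Lines

set_option autoImplicit false
set_option linter.unusedSimpArgs false
set_option linter.unusedVariables false

open scoped LinearAlgebra.Projectivization Topology InnerProductSpace ENNReal
open MeasureTheory Filter

namespace Pool.Agent.Helper1_CP3

/-- deviation of the subspace `F` from `L` -/
noncomputable def dd (F L : Submodule ℂ V) : ℝ :=
  ‖(ContinuousLinearMap.id ℂ V - L.starProjection).comp F.starProjection‖

lemma dd_le {F L : Submodule ℂ V} {u : V} (hu : u ∈ F) : ‖u - L.starProjection u‖ ≤ dd F L * ‖u‖ := by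
  have h := ContinuousLinearMap.le_opNorm
    ((ContinuousLinearMap.id ℂ V - L.starProjection).comp F.starProjection) u
  rw [ContinuousLinearMap.comp_apply, Submodule.starProjection_eq_self_iff.mpr hu] at h
  exact h

lemma exists_of_lt {F L : Submodule ℂ V} {r : ℝ} (h : r < dd F L) :
    ∃ u ∈ F, ‖u‖ ≤ 1 ∧ r < ‖u - L.starProjection u‖ := by
  obtain ⟨x, hx, hxr⟩ := ContinuousLinearMap.exists_lt_apply_of_lt_opNorm _ h
  refine ⟨F.starProjection x, Submodule.starProjection_apply_mem _ _, ?_, hxr⟩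
  exact (Submodule.norm_starProjection_apply_le _ _).trans hx.le

lemma dd_nonneg (F L : Submodule ℂ V) : 0 ≤ dd F L := norm_nonneg _

lemma mem_of_lim {L : Submodule ℂ V} {F : ℕ → Submodule ℂ V}
    (h : Tendsto (fun n => dd (F n) L) atTop (𝓝 0)) {p : V} {pn : ℕ → V} (hpn : ∀ n, pn n ∈ F n)
    (hlim : Tendsto pn atTop (𝓝 p)) : p ∈ L := by
  have h1 : Tendsto (fun n => ‖pn n - L.starProjection (pn n)‖) atTop
      (𝓝 ‖p - L.starProjection p‖) :=
    ((hlim.sub ((L.starProjection.continuous.tendsto p).comp hlim))).norm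
  have h2 : Tendsto (fun n => dd (F n) L * ‖pn n‖) atTop (𝓝 (0 * ‖p‖)) := h.mul hlim.norm
  rw [zero_mul] at h2
  have h3 := le_of_tendsto_of_tendsto' h1 h2 fun n => dd_le (hpn n)
  have h4 : p - L.starProjection p = 0 := norm_le_zero_iff.mp h3
  rw [← Submodule.starProjection_eq_self_iff]
  exact (sub_eq_zero.mp h4).symm

lemma dd_uniq {F : ℕ → Submodule ℂ V} (hF : ∀ n, Module.finrank ℂ (F n) = 2)
    {L L' : Submodule ℂ V} (hL : Module.finrank ℂ L = 2) (hL' : Module.finrank ℂ L' = 2)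
    (h : Tendsto (fun n => dd (F n) L) atTop (𝓝 0)) (h' : Tendsto (fun n => dd (F n) L') atTop (𝓝 0)) :
    L = L' := by
  let B : ∀ n, OrthonormalBasis (Fin 2) ℂ (F n) := fun n =>
    (stdOrthonormalBasis ℂ (F n)).reindex (finCongr (hF n))
  set x : ℕ → V × V := fun n => (((B n 0 : F n) : V), ((B n 1 : F n) : V)) with hx
  have n0 : ∀ n, ‖(x n).1‖ = 1 := fun n => (B n).orthonormal.1 0
  have n1 : ∀ n, ‖(x n).2‖ = 1 := fun n => (B n).orthonormal.1 1
  have h01 : ∀ n, ⟪(x n).1, (x n).2⟫_ℂ = 0 := by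
    intro n
    have := (orthonormal_iff_ite.mp (B n).orthonormal) 0 1
    rw [if_neg (by decide)] at this
    exact this
  have hmem : ∀ n, x n ∈ (Metric.sphere (0:V) 1) ×ˢ (Metric.sphere (0:V) 1) := by
    intro n
    exact ⟨by simpa using n0 n, by simpa using n1 n⟩
  obtain ⟨⟨p, q⟩, ⟨hp, hq⟩, φ, hφ, hlim⟩ :=
    ((isCompact_sphere (0:V) 1).prod (isCompact_sphere (0:V) 1)).tendsto_subseq hmem
  rw [Prod.tendsto_iff] at hlim
  obtain ⟨l1, l2⟩ := hlim
  have hp1 : ‖p‖ = 1 := by simpa using hp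
  have hq1 : ‖q‖ = 1 := by simpa using hq
  have hpq : ⟪p, q⟫_ℂ = 0 := by
    have h1 : Tendsto (fun n => ⟪(x (φ n)).1, (x (φ n)).2⟫_ℂ) atTop (𝓝 ⟪p, q⟫_ℂ) := l1.inner l2
    have h2 : (fun n => ⟪(x (φ n)).1, (x (φ n)).2⟫_ℂ) = fun _ => 0 := by
      funext n; exact h01 _
    rw [h2] at h1
    exact tendsto_nhds_unique h1 tendsto_const_nhds
  have hφt := hφ.tendsto_atTop
  have key : ∀ {L : Submodule ℂ V}, Module.finrank ℂ L = 2 →
      Tendsto (fun n => dd (F n) L) atTop (𝓝 0) → Submodule.span ℂ {p, q} = L := by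
    intro L hL h
    have hpL : p ∈ L := mem_of_lim (h.comp hφt) (fun n => (B (φ n) 0).2) l1
    have hqL : q ∈ L := mem_of_lim (h.comp hφt) (fun n => (B (φ n) 1).2) l2
    have hli : LinearIndependent ℂ ![p, q] := by
      rw [LinearIndependent.pair_iff' (unit_ne hp1)]
      intro a ha
      have h1 := congrArg (fun v => ⟪q, v⟫_ℂ) ha
      have hqp : ⟪q, p⟫_ℂ = 0 := by rw [← inner_conj_symm, hpq, map_zero]
      simp only [inner_smul_right, hqp, mul_zero] at h1
      have h2 : q = 0 := inner_self_eq_zero.mp h1.symm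
      exact unit_ne hq1 h2
    have h2 := finrank_span_eq_card hli
    rw [Matrix.range_cons_cons_empty, Fintype.card_fin] at h2
    apply Submodule.eq_of_le_of_finrank_eq
    · rw [Submodule.span_le]
      rintro w (rfl | rfl)
      · exact hpL
      · exact hqL
    · rw [h2, hL]
  rw [← key hL h, ← key hL' h']

variable {Γ : Type} [Group Γ] {D : Set CP3} {T : Γ → V →L[ℂ] V}

/-- image of a subspace -/
noncomputable def img (T : Γ → V →L[ℂ] V) (E : Submodule ℂ V) (γ : Γ) : Submodule ℂ V :=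
  E.map (T γ : V →ₗ[ℂ] V)

namespace Act

lemma finrank_img (h : Act Γ D T) {E : Submodule ℂ V} (hE : Module.finrank ℂ E = 2) (γ : Γ) :
    Module.finrank ℂ (img T E γ) = 2 := by
  unfold img
  rw [← hE]
  exact (Submodule.equivMapOfInjective (T γ : V →ₗ[ℂ] V) (h.inj γ) E).finrank_eq.symm

/-- images of lines in `D` converge to the attracting line -/
lemma conv (h : Act Γ D T) {E : Submodule ℂ V} (hE : ∀ v ∈ E, v ≠ 0 → v ∈ cone D)
    {γ : ℕ → Γ} {Lp : Submodule ℂ V} (hattr : Attr T D γ Lp) (g : Γ) :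
    Tendsto (fun n => dd (img T E (γ n * g)) Lp) atTop (𝓝 0) := by
  by_contra hcon
  rw [Metric.tendsto_atTop] at hcon
  push Not at hcon
  obtain ⟨ε, hε, hcon⟩ := hcon
  have hfreq : ∃ᶠ n in atTop, ε ≤ dd (img T E (γ n * g)) Lp := by
    rw [frequently_atTop]
    intro N
    obtain ⟨n, hn, hn2⟩ := hcon N
    refine ⟨n, hn, ?_⟩
    rwa [Real.dist_eq, sub_zero, abs_of_nonneg (dd_nonneg _ _)] at hn2
  obtain ⟨ψ, hψ, hψε⟩ := Filter.extraction_of_frequently_atTop hfreq
  have h1 : ∀ n, ∃ u ∈ img T E (γ (ψ n) * g), ‖u‖ ≤ 1 ∧ ε / 2 < ‖u - Lp.starProjection u‖ := by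
    intro n
    apply exists_of_lt
    have := hψε n
    linarith
  choose u hu hu1 huε using h1
  have hu0 : ∀ n, u n ≠ 0 := by
    intro n h0
    have := huε n
    rw [h0] at this
    simp at this
    linarith
  have h2 : ∀ n, ∃ e ∈ E, T (γ (ψ n) * g) e = u n := by
    intro n
    obtain ⟨e, he, heu⟩ := hu n
    exact ⟨e, he, heu⟩
  choose e heE heu using h2
  have he0 : ∀ n, e n ≠ 0 := by
    intro n h0
    apply hu0 n
    rw [← heu, h0, map_zero]
  choose c hc hcomp using fun n => h.comp_eq (γ (ψ n)) g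
  -- normalised vectors
  set y : ℕ → V := fun n => ((‖T g (e n)‖ : ℂ)⁻¹) • T g (e n) with hy
  set w : ℕ → V := fun n => ((‖u n‖ : ℂ)⁻¹) • u n with hw
  have hTe0 : ∀ n, T g (e n) ≠ 0 := fun n => inj_ne (h.inj g) (he0 n)
  have hnorm_unit : ∀ v : V, v ≠ 0 → ‖((‖v‖ : ℂ)⁻¹) • v‖ = 1 := by
    intro v hv
    rw [norm_smul, norm_inv, Complex.norm_real, norm_norm, inv_mul_cancel₀ (norm_ne_zero_iff.mpr hv)]
  set G : Submodule ℂ V := img T E g with hG
  have hyG : ∀ n, y n ∈ G := by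
    intro n
    apply Submodule.smul_mem
    exact ⟨e n, heE n, rfl⟩
  have hmem : ∀ n, (y n, w n) ∈ (Metric.sphere (0:V) 1 ∩ (G : Set V)) ×ˢ (Metric.sphere (0:V) 1) := by
    intro n
    refine ⟨⟨?_, hyG n⟩, ?_⟩
    · rw [mem_sphere_zero_iff_norm]; exact hnorm_unit _ (hTe0 n)
    · show w n ∈ _
      rw [mem_sphere_zero_iff_norm]; exact hnorm_unit _ (hu0 n)
  have hcomp2 : IsCompact ((Metric.sphere (0:V) 1 ∩ (G : Set V)) ×ˢ (Metric.sphere (0:V) 1)) :=
    ((isCompact_sphere (0:V) 1).inter_right (Submodule.closed_of_finiteDimensional G)).prod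
      (isCompact_sphere (0:V) 1)
  obtain ⟨⟨y0, z⟩, ⟨⟨hy01, hy0G⟩, hz1⟩, θ, hθ, hlim⟩ := hcomp2.tendsto_subseq hmem
  rw [Prod.tendsto_iff] at hlim
  obtain ⟨l1, l2⟩ := hlim
  have hy0D : y0 ∈ cone D := by
    obtain ⟨e0, he0E, he0⟩ := hy0G
    change T g e0 = y0 at he0
    have hy0n : y0 ≠ 0 := unit_ne (by simpa using hy01)
    have he00 : e0 ≠ 0 := by
      rintro rfl
      apply hy0n
      rw [← he0]; exact map_zero _
    rw [← he0]
    exact h.maps g e0 (hE e0 he0E he00)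
  have hzL : z ∈ Lp := by
    refine hattr (fun n => ψ (θ n)) (hψ.comp hθ).tendsto_atTop y0 (fun n => y (θ n)) l1 hy0D z
      (fun n => (‖u (θ n)‖ : ℂ)⁻¹ * (c (θ n)) * (‖T g (e (θ n))‖ : ℂ)) ?_
    refine l2.congr fun n => ?_
    simp only [Function.comp_apply, hw, hy, map_smul, smul_smul]
    have k1 : (‖T g (e (θ n))‖ : ℂ) ≠ 0 := by
      exact_mod_cast (norm_ne_zero_iff.mpr (hTe0 (θ n)))
    rw [mul_assoc, mul_inv_cancel₀ k1, mul_one, mul_smul]
    congr 1
    rw [← heu, hcomp]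
    simp
  have h3 : Tendsto (fun n => ‖w (θ n) - Lp.starProjection (w (θ n))‖) atTop
      (𝓝 ‖z - Lp.starProjection z‖) :=
    (l2.sub ((Lp.starProjection.continuous.tendsto z).comp l2)).norm
  rw [Submodule.starProjection_eq_self_iff.mpr hzL, sub_self, norm_zero] at h3
  have h4 : ∀ n, ε / 2 ≤ ‖w (θ n) - Lp.starProjection (w (θ n))‖ := by
    intro n
    simp only [hw, map_smul]
    rw [← smul_sub, norm_smul, norm_inv, Complex.norm_real, norm_norm]
    have k1 : 0 < ‖u (θ n)‖ := norm_pos_iff.mpr (hu0 _)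
    have k2 : 1 ≤ ‖u (θ n)‖⁻¹ := (one_le_inv₀ k1).mpr (hu1 _)
    have k3 := huε (θ n)
    nlinarith [norm_nonneg (u (θ n) - Lp.starProjection (u (θ n)))]
  have h5 := ge_of_tendsto' h3 h4
  linarith

end Act

/-- a line in `D` -/
lemma exists_line_in {D : Set CP3} (hdim : dimH (Dᶜ) ≤ 2) :
    ∃ E : Submodule ℂ V, Module.finrank ℂ E = 2 ∧ ∀ v ∈ E, v ≠ 0 → v ∈ cone D := by
  obtain ⟨a, ha⟩ := (dense_cone hdim).nonempty
  have haD : pr a ∉ Dᶜ := Set.notMem_compl_iff.mpr ha.2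
  -- `b` good and not a multiple of `a`
  have hd := dense_dir hdim ha.1 haD
  have hne : (ℂ ∙ a : Submodule ℂ V) ≠ ⊤ := by
    intro htop
    have h1 := finrank_span_singleton (K := ℂ) ha.1
    rw [htop, finrank_top, finrank_euclideanSpace_fin] at h1
    norm_num at h1
  have hopen : IsOpen ((ℂ ∙ a : Submodule ℂ V) : Set V)ᶜ :=
    (Submodule.closed_of_finiteDimensional _).isOpen_compl
  have hnon : (((ℂ ∙ a : Submodule ℂ V) : Set V)ᶜ).Nonempty := by
    rw [Set.nonempty_compl]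
    intro h
    exact hne (SetLike.coe_injective (by rw [h]; rfl))
  obtain ⟨b, hb1, hb2⟩ := hd.inter_open_nonempty _ hopen hnon
  refine ⟨Submodule.span ℂ {a, b}, ?_, ?_⟩
  · have hli : LinearIndependent ℂ ![a, b] := by
      rw [LinearIndependent.pair_iff' ha.1]
      intro c hc
      apply hb1
      rw [SetLike.mem_coe, Submodule.mem_span_singleton]
      exact ⟨c, hc⟩
    have h2 := finrank_span_eq_card hli
    rw [Matrix.range_cons_cons_empty, Fintype.card_fin] at h2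
    exact h2
  · intro v hv hv0
    rw [Submodule.mem_span_pair] at hv
    obtain ⟨s, t, rfl⟩ := hv
    have hst : s ≠ 0 ∨ t ≠ 0 := by
      by_contra hcon
      push Not at hcon
      rw [hcon.1, hcon.2] at hv0
      simp at hv0
    have := hb2 s t hst
    exact ⟨this.1, Set.notMem_compl_iff.mp this.2⟩

end Pool.Agent.Helper1_CP3
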